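import Pool.Agent.H64.SmOcc

/-!
# Minimal trees are good binary trees: the induction (MP_ebc12b_co, helper64)
-/

set_option autoImplicit false

namespace Pool.Agent.H64.Sm

open Pool.Agent.Helper877_Smith

open RT Mk

/-- every branch of shape `Q` has squared norm `q` -/
def isq (T : UT) (Q : Sh) (q : ℝ) : Prop := ∀ X, Occ T X → X.sh = Q → X.u = q

/-- every branch of shape `S` has squared norm between `l` and `h` -/
def btw (T : UT) (S : Sh) (l h : ℝ) : Prop := ∀ X, Occ T X → X.sh = S → l < X.u ∧ X.u < h

/-- the condition on the two blocks -/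
def condG (T : UT) (q : ℝ) : Bool → Sh → Sh → Prop
  | true, Q, S => isq T Q q ∧ btw T S (q / 2) q
  | false, Q, S => isq T Q q ∧ btw T S q (2 * q)

section

variable {T : UT} (hG : GM T)

include hG

theorem isq_node {Q : Sh} {q : ℝ} (h : isq T Q q) : isq T (Sh.node Q Q) (q / 2) := by
  intro X hX hs
  obtain ⟨a, A, b, B, rfl, h1, h2⟩ := sh_node hs
  have e1 := h A hX.left h1
  have e2 := h B hX.right h2
  have := (node_bounds hG hX).2.2.2.2 (by rw [e1, e2])
  rw [e1] at this
  linarith

theorem btw_node {Q S : Sh} {q l h : ℝ} (hq : 0 < q) (hl : 0 < l) (h1 : isq T Q q)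
    (h2 : btw T S l h) : btw T (Sh.node Q S) (q * l / (q + l)) ((q + h) / 4) := by
  intro X hX hs
  obtain ⟨a, A, b, B, rfl, g1, g2⟩ := sh_node hs
  have e1 := h1 A hX.left g1
  obtain ⟨e2, e3⟩ := h2 B hX.right g2
  obtain ⟨n1, n2, n3, n4, -⟩ := node_bounds hG hX
  rw [e1] at n3 n4
  constructor
  · rw [div_lt_iff₀ (by positivity)]
    have h5 : q * B.u * (q + l) ≤ (RT.node a A b B).u * (q + B.u) * (q + l) :=
      mul_le_mul_of_nonneg_right n3 (by positivity)
    have h6 : q * l * (q + B.u) < q * B.u * (q + l) := by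
      nlinarith [mul_pos (mul_pos hq hq) (sub_pos.2 e2)]
    have h7 : q * l * (q + B.u) < ((RT.node a A b B).u * (q + l)) * (q + B.u) := by
      linarith
    exact lt_of_mul_lt_mul_right h7 (by positivity)
  · linarith

omit hG in
theorem btw_mono {S : Sh} {l h l' h' : ℝ} (hb : btw T S l h) (hl : l' ≤ l) (hh : h ≤ h') :
    btw T S l' h' := fun X hX hs => ⟨hl.trans_lt (hb X hX hs).1, (hb X hX hs).2.trans_le hh⟩

theorem condG.even {b : Bool} {Q S : Sh} {q : ℝ} (hq : 0 < q) (h : condG T q b Q S) :
    condG T (q / 2) b (Sh.node Q Q) (Sh.node Q S) := by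
  cases b with
  | true =>
    obtain ⟨h1, h2⟩ := h
    refine ⟨isq_node hG h1, btw_mono (btw_node hG hq (by positivity) h1 h2) ?_ (by linarith)⟩
    rw [le_div_iff₀ (by positivity)]
    nlinarith
  | false =>
    obtain ⟨h1, h2⟩ := h
    refine ⟨isq_node hG h1, btw_mono (btw_node hG hq (by positivity) h1 h2) ?_ (by linarith)⟩
    rw [le_div_iff₀ (by positivity)]
    nlinarith

theorem condG.odd_true {Q S : Sh} {q : ℝ} (h : condG T q true Q S) :
    condG T (q / 2) false (Sh.node Q Q) S := by
  obtain ⟨h1, h2⟩ := h
  exact ⟨isq_node hG h1, btw_mono h2 le_rfl (by linarith)⟩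

theorem condG.odd_false {Q S : Sh} {q : ℝ} (hq : 0 < q) (h : condG T q false Q S) :
    condG T (q / 2) true (Sh.node Q Q) (Sh.node Q (Sh.node Q S)) := by
  obtain ⟨h1, h2⟩ := h
  have h3 : btw T (Sh.node Q S) (q / 2) (3 * q / 4) :=
    btw_mono (btw_node hG hq hq h1 h2) (by rw [le_div_iff₀ (by positivity)]; nlinarith)
      (by linarith)
  refine ⟨isq_node hG h1, btw_mono (btw_node hG hq (by positivity) h1 h3) ?_ (by linarith)⟩
  rw [le_div_iff₀ (by positivity)]
  nlinarith

theorem odd_eqG {Q : Sh} {q : ℝ} (hq : 0 < q) (h1 : isq T Q q) :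
    condG T (q / 2) true (Sh.node Q Q) (Sh.node Q (Sh.node Q Q)) := by
  have h3 : btw T (Sh.node Q Q) (q / 4) (3 * q / 4) := by
    intro X hX hs
    have := isq_node hG h1 X hX hs
    constructor <;> linarith
  have h4 := btw_node hG hq (by positivity) h1 h3
  refine ⟨isq_node hG h1, ?_⟩
  intro X hX hs
  obtain ⟨a, A, b, B, rfl, g1, g2⟩ := sh_node hs
  have e1 := h1 A hX.left g1
  have e2 := isq_node hG h1 B hX.right g2
  obtain ⟨n1, n2, n3, n4, -⟩ := node_bounds hG hX
  rw [e1, e2] at n3 n4
  constructor
  · nlinarith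
  · linarith

theorem unmarked_le {Q S : Sh} {q : ℝ} (hq : 0 < q) (h : isq T Q q) (z : Mk) : z.mk = 0 →
    ∀ X, Occ T X → X.sh = z.ex Q S → X.u ≤ q ∧ (¬ z.isLf → X.u ≤ q / 2) := by
  induction z with
  | lf b =>
    intro hm X hX hs
    cases b with
    | false => exact ⟨(h X hX hs).le, fun hz => absurd trivial hz⟩
    | true => simp [Mk.mk] at hm
  | nd l r hl hr =>
    intro hm X hX hs
    simp only [Mk.mk] at hm
    obtain ⟨a, A, b, B, rfl, g1, g2⟩ := sh_node hs
    have e1 := (hl (by omega) A hX.left g1).1
    have e2 := (hr (by omega) B hX.right g2).1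
    obtain ⟨n1, n2, n3, n4, -⟩ := node_bounds hG hX
    exact ⟨by linarith, fun _ => by linarith⟩

theorem true_le {Q S : Sh} {q : ℝ} (hq : 0 < q) (h : condG T q true Q S) (z : Mk) :
    ∀ X, Occ T X → X.sh = z.ex Q S → X.u ≤ q ∧ (¬ z.isLf → X.u ≤ q / 2) := by
  induction z with
  | lf b =>
    intro X hX hs
    refine ⟨?_, fun hz => absurd trivial hz⟩
    cases b with
    | false => exact (h.1 X hX hs).le
    | true => exact (h.2 X hX hs).2.le
  | nd l r hl hr =>
    intro X hX hs
    obtain ⟨a, A, b, B, rfl, g1, g2⟩ := sh_node hs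
    have e1 := (hl A hX.left g1).1
    have e2 := (hr B hX.right g2).1
    obtain ⟨n1, n2, n3, n4, -⟩ := node_bounds hG hX
    exact ⟨by linarith, fun _ => by linarith⟩

theorem false_le {Q S : Sh} {q : ℝ} (hq : 0 < q) (h : condG T q false Q S) (z : Mk) :
    z.mk ≤ 1 → ∀ X, Occ T X → X.sh = z.ex Q S → X.u < 2 * q ∧ (¬ z.isLf → X.u < q) := by
  induction z with
  | lf b =>
    intro _ X hX hs
    refine ⟨?_, fun hz => absurd trivial hz⟩
    cases b with
    | false => rw [h.1 X hX hs]; linarith
    | true => exact (h.2 X hX hs).2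
  | nd l r hl hr =>
    intro hm X hX hs
    simp only [Mk.mk] at hm
    obtain ⟨a, A, b, B, rfl, g1, g2⟩ := sh_node hs
    have e1 := (hl (by omega) A hX.left g1).1
    have e2 := (hr (by omega) B hX.right g2).1
    obtain ⟨n1, n2, n3, n4, -⟩ := node_bounds hG hX
    rcases Nat.eq_zero_or_pos l.mk with h0 | h0
    · have e3 := (unmarked_le hG hq h.1 l h0 A hX.left g1).1
      exact ⟨by linarith, fun _ => by linarith⟩
    · have e3 := (unmarked_le hG hq h.1 r (by omega) B hX.right g2).1
      exact ⟨by linarith, fun _ => by linarith⟩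

theorem LNR_true {Q S : Sh} {q : ℝ} (hq : 0 < q) (h : condG T q true Q S) :
    LNR (RR T Q S) 1 := by
  intro t z hz _ B X hB hX hBs hXs
  have e1 := (true_le hG hq h z X hX hXs).2 hz
  cases t with
  | false =>
    have := h.1 B hB hBs
    linarith
  | true =>
    have := (h.2 B hB hBs).1
    linarith

theorem LNR_false {Q S : Sh} {q : ℝ} (hq : 0 < q) (h : condG T q false Q S) :
    LNR (RR T Q S) 1 := by
  intro t z hz hm B X hB hX hBs hXs
  have e1 := (false_le hG hq h z hm X hX hXs).2 hz
  cases t with
  | false =>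
    have := h.1 B hB hBs
    linarith
  | true =>
    have := (h.2 B hB hBs).1
    linarith

theorem LNR_zero {Q : Sh} {q : ℝ} (hq : 0 < q) (h : isq T Q q) :
    LNR (RR T Q Q) 0 := by
  intro t z hz hm B X hB hX hBs hXs
  have e1 := (unmarked_le hG hq h z (by omega) X hX hXs).2 hz
  have : B.u = q := by
    cases t with
    | false => exact h B hB hBs
    | true => exact h B hB hBs
  linarith

theorem cherryG {Q S : Sh} {q : ℝ} (hq : 0 < q) (h : condG T q false Q S) {C : Mk}
    (hC : Cherry C) (hm : C.mk = 1) : ∀ X, Occ T X → X.sh = C.ex Q S → q / 2 < X.u := by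
  obtain ⟨b, b', rfl⟩ := hC
  intro X hX hs
  obtain ⟨a, A, c, B, rfl, g1, g2⟩ := sh_node hs
  obtain ⟨n1, n2, n3, n4, -⟩ := node_bounds hG hX
  cases b <;> cases b' <;> simp [Mk.mk] at hm
  · have e1 := h.1 A hX.left g1
    have e2 := (h.2 B hX.right g2).1
    rw [e1] at n3
    nlinarith
  · have e1 := h.1 B hX.right g2
    have e2 := (h.2 A hX.left g1).1
    rw [e1] at n3
    nlinarith

theorem cherry0G {Q : Sh} {q : ℝ} (h : isq T Q q) {C : Mk}
    (hC : Cherry C) (hm : C.mk = 0) : ∀ X, Occ T X → X.sh = C.ex Q Q → X.u = q / 2 := by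
  obtain ⟨b, b', rfl⟩ := hC
  intro X hX hs
  cases b <;> cases b' <;> simp [Mk.mk] at hm
  exact isq_node hG h X hX hs

theorem claimMG (m : ℕ) : ∀ (b : Bool) (Q S : Sh) (A B : Mk) (q : ℝ), 0 < q → A.sz + B.sz = m →
    A.mk + B.mk = 1 → UIso (shU T) (A.ex Q S, B.ex Q S) → condG T q b Q S →
    UIso (A.ex Q S, B.ex Q S) (unroot (Gb m b Q S)) := by
  induction m using Nat.strong_induction_on with
  | _ m ih =>
  intro b Q S A B q hq hsz hmk hopt hc
  have hSt := hG.st hopt
  have hA1 := A.sz_pos
  have hB1 := B.sz_pos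
  have hLN : LNR (RR T Q S) 1 := by
    cases b with
    | true => exact LNR_true hG hq hc
    | false => exact LNR_false hG hq hc
  rcases (by omega : m = 2 ∨ m = 3 ∨ 4 ≤ m) with rfl | rfl | h4
  · obtain ⟨a, a', rfl, rfl⟩ := small_two hsz
    rw [Gb_two]
    cases a <;> cases a' <;> simp [Mk.mk] at hmk
    · exact UIso.refl _
    · exact UIso.swap _ _
  · have hu := (small_three_marked hsz hmk).ex Q S
    cases b with
    | true =>
      rw [show (3 : ℕ) = 2 * 1 + 1 from rfl, Gb_odd_true le_rfl, Gb_two]
      exact hu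
    | false =>
      rw [show (3 : ℕ) = 2 * 1 + 1 from rfl, Gb_odd_false le_rfl, Gb_one]
      exact hu.trans (UIso.move _ _ _)
  · rcases hSt.struct hLN hmk.le (by simp only; omega) with
      ⟨A1, B1, hT, hA, hB, bA, bB⟩ | ⟨t, x, c, hT, hx, hcl, bx, bc⟩
    · have hm := hT.mk
      have hs := hT.sz
      simp only at hm hs
      obtain ⟨A', a1, a2, a3⟩ := bal_double Q S bA hA (by omega)
      obtain ⟨B', b1, b2, b3⟩ := bal_double Q S bB hB (by omega)
      have hu : UIso (A.ex Q S, B.ex Q S)
          (A'.ex (Sh.node Q Q) (Sh.node Q S), B'.ex (Sh.node Q Q) (Sh.node Q S)) :=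
        (hT.ex Q S).trans (UIso.congr a1 b1)
      have hp := A'.sz_pos
      have hi := ih (A'.sz + B'.sz) (by omega) b _ _ A' B' (q / 2) (by positivity) rfl
        (by omega) (hopt.trans hu) (condG.even hG hq hc)
      have hme : m = 2 * (A'.sz + B'.sz) := by omega
      rw [hme, Gb_even (by omega)]
      exact hu.trans hi
    · have hm := hT.mk
      have hs := hT.sz
      simp only [Mk.mk, Mk.sz] at hm hs
      have hTs : MU (A, B) (lf t, nd c x) := hT.trans (MU.congr (MR.refl _) (MR.swap _ _))
      have hTx : MU (A, B) (nd x (lf t), c) :=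
        (hT.trans (MU.move _ _ _).symm).trans (MU.congr (MR.swap _ _) (MR.refl _))
      have hTc : MU (A, B) (nd c (lf t), x) :=
        (hTs.trans (MU.move _ _ _).symm).trans (MU.congr (MR.swap _ _) (MR.refl _))
      cases b with
      | true =>
        have hqs : RR T Q S (lf false) (lf true) := by
          intro B X hB hX hBs hXs
          have e1 := hc.1 B hB hBs
          have e2 := (hc.2 X hX hXs).2
          linarith
        have ht : t = true := by
          by_contra ht
          have ht' : t = false := by simpa using ht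
          subst ht'
          simp only [Bool.false_eq_true, if_false, zero_add] at hm
          rcases (by omega : x.mk = 1 ∨ c.mk = 1) with h | h
          · exact hSt.use hTc (InV_marked bx hx h).swap
              ⟨hLN false c hcl (by omega), hqs⟩
          · exact hSt.use hTx (InV_marked bc hcl h).swap
              ⟨hLN false x hx (by omega), hqs⟩
        subst ht
        simp only [if_true] at hm
        obtain ⟨x', a1, a2, a3⟩ := bal_double Q S bx hx (by omega)
        obtain ⟨c', b1, b2, b3⟩ := bal_double Q S bc hcl (by omega)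
        rw [ex_unmarked (Sh.node Q Q) (Sh.node Q S) S (c := x') (by omega)] at a1
        rw [ex_unmarked (Sh.node Q Q) (Sh.node Q S) S (c := c') (by omega)] at b1
        have hu : UIso (A.ex Q S, B.ex Q S)
            ((lf true).ex (Sh.node Q Q) S, (nd x' c').ex (Sh.node Q Q) S) :=
          (hT.ex Q S).trans (UIso.congr (RIso.refl _) (RIso.congr a1 b1))
        have hp := x'.sz_pos
        have hi := ih (x'.sz + c'.sz + 1) (by omega) false _ _ (lf true) (nd x' c') (q / 2)
          (by positivity) (by simp only [Mk.sz]; omega) (by simp only [Mk.mk, if_true]; omega)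
          (hopt.trans hu) (condG.odd_true hG hc)
        have hme : m = 2 * (x'.sz + c'.sz) + 1 := by omega
        rw [hme, Gb_odd_true (by omega)]
        exact hu.trans hi
      | false =>
        have hsq : RR T Q S (lf true) (lf false) := by
          intro B X hB hX hBs hXs
          have e1 := hc.1 X hX hXs
          have e2 := (hc.2 B hB hBs).1
          linarith
        have ht : t = false := by
          by_contra ht
          have ht' : t = true := by simpa using ht
          subst ht'
          simp only [if_true] at hm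
          exact hSt.use hTx (InV_leaves bc hcl (by omega))
            ⟨hLN false x hx (by omega), hsq⟩
        subst ht
        simp only [Bool.false_eq_true, if_false, zero_add] at hm
        have key : ∀ x c : Mk, MU (A, B) (lf false, nd x c) → MU (A, B) (nd c (lf false), x) →
            ¬ x.isLf → ¬ c.isLf → x.Bal → c.Bal → x.mk = 1 → c.mk = 0 →
            1 + (x.sz + c.sz) = m →
            UIso (A.ex Q S, B.ex Q S) (unroot (Gb m false Q S)) := by
          intro x c hT hTc hx hcl bx bc hmx hmc hs
          rcases exists_cherry bx hx (by omega) with h | ⟨C, z, c1, c2, c3, c4⟩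
          · obtain ⟨c', b1, b2, b3⟩ := bal_double Q S bc hcl (by omega)
            rw [ex_unmarked (Sh.node Q Q) (Sh.node Q S) (Sh.node Q (Sh.node Q S)) (c := c')
              (by omega)] at b1
            have hxs : x.sz = 2 := by
              obtain ⟨u, v, rfl⟩ := h
              rfl
            have hxe : RIso (x.ex Q S) (Sh.node Q S) := by
              obtain ⟨u, v, rfl⟩ := h
              cases u <;> cases v <;> simp [Mk.mk] at hmx
              · exact RIso.refl _
              · exact RIso.swap _ _
            have hu : UIso (A.ex Q S, B.ex Q S)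
                ((lf true).ex (Sh.node Q Q) (Sh.node Q (Sh.node Q S)),
                  c'.ex (Sh.node Q Q) (Sh.node Q (Sh.node Q S))) :=
              ((hT.trans (MU.move _ _ _).symm).ex Q S).trans
                (UIso.congr (RIso.congr (RIso.refl _) hxe) b1)
            have hp := c'.sz_pos
            have hi := ih (c'.sz + 1) (by omega) true _ _ (lf true) c' (q / 2) (by positivity)
              (by simp only [Mk.sz]; omega) (by simp only [Mk.mk, if_true]; omega)
              (hopt.trans hu) (condG.odd_false hG hq hc)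
            have hme : m = 2 * (c'.sz + 1) + 1 := by omega
            rw [hme, Gb_odd_false (by omega)]
            exact hu.trans hi
          · exfalso
            have hle := c4.mk_le
            refine hSt.use hTc c4.swap ⟨?_, hLN false z c2 (by omega)⟩
            intro B X hB hX hBs hXs
            have e1 := cherryG hG hq hc c1 (by omega) B hB hBs
            have e2 := (unmarked_le hG hq hc.1 c hmc X hX hXs).2 hcl
            linarith
        rcases (by omega : x.mk = 1 ∧ c.mk = 0 ∨ x.mk = 0 ∧ c.mk = 1) with h | h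
        · exact key x c hT hTc hx hcl bx bc h.1 h.2 (by omega)
        · exact key c x hTs hTx hcl hx bc bx h.2 h.1 (by omega)

theorem claimEG (m : ℕ) : ∀ (Q : Sh) (A B : Mk) (q : ℝ), 0 < q → A.sz + B.sz = m →
    A.mk + B.mk = 0 → UIso (shU T) (A.ex Q Q, B.ex Q Q) → isq T Q q →
    UIso (A.ex Q Q, B.ex Q Q) (unroot (Gb m false Q Q)) := by
  induction m using Nat.strong_induction_on with
  | _ m ih =>
  intro Q A B q hq hsz hmk hopt hc
  have hSt := hG.st hopt
  have hA1 := A.sz_pos
  have hB1 := B.sz_pos
  have hLN : LNR (RR T Q Q) 0 := LNR_zero hG hq hc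
  rcases (by omega : m = 2 ∨ m = 3 ∨ 4 ≤ m) with rfl | rfl | h4
  · obtain ⟨a, a', rfl, rfl⟩ := small_two hsz
    rw [Gb_two]
    cases a <;> cases a' <;> simp [Mk.mk] at hmk
    exact UIso.refl _
  · obtain ⟨a, b, c, h1⟩ := small_three hsz
    have hu := h1.ex Q Q
    rw [show (3 : ℕ) = 2 * 1 + 1 from rfl, Gb_odd_false le_rfl, Gb_one]
    have he : ∀ b : Bool, (lf b).ex Q Q = Q := by intro b; cases b <;> rfl
    simp only [Mk.ex] at hu
    have h2 := hu.trans (UIso.move _ _ _)
    simp only [ite_self] at h2
    exact h2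
  · rcases hSt.struct hLN hmk.le (by simp only; omega) with
      ⟨A1, B1, hT, hA, hB, bA, bB⟩ | ⟨t, x, c, hT, hx, hcl, bx, bc⟩
    · have hm := hT.mk
      have hs := hT.sz
      simp only at hm hs
      obtain ⟨A', a1, a2, a3⟩ := bal_double Q Q bA hA (by omega)
      obtain ⟨B', b1, b2, b3⟩ := bal_double Q Q bB hB (by omega)
      have hu : UIso (A.ex Q Q, B.ex Q Q)
          (A'.ex (Sh.node Q Q) (Sh.node Q Q), B'.ex (Sh.node Q Q) (Sh.node Q Q)) :=
        (hT.ex Q Q).trans (UIso.congr a1 b1)
      have hp := A'.sz_pos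
      have hi := ih (A'.sz + B'.sz) (by omega) _ A' B' (q / 2) (by positivity) rfl (by omega)
        (hopt.trans hu) (isq_node hG hc)
      have hme : m = 2 * (A'.sz + B'.sz) := by omega
      rw [hme, Gb_even (by omega)]
      exact hu.trans hi
    · have hm := hT.mk
      have hs := hT.sz
      simp only [Mk.mk, Mk.sz] at hm hs
      have hTs : MU (A, B) (lf t, nd c x) := hT.trans (MU.congr (MR.refl _) (MR.swap _ _))
      have hTx : MU (A, B) (nd x (lf t), c) :=
        (hT.trans (MU.move _ _ _).symm).trans (MU.congr (MR.swap _ _) (MR.refl _))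
      have hTc : MU (A, B) (nd c (lf t), x) :=
        (hTs.trans (MU.move _ _ _).symm).trans (MU.congr (MR.swap _ _) (MR.refl _))
      have ht : t = false := by
        by_contra ht
        have ht' : t = true := by simpa using ht
        subst ht'
        simp only [if_true] at hm
        omega
      subst ht
      simp only [Bool.false_eq_true, if_false, zero_add] at hm
      have key : ∀ x c : Mk, MU (A, B) (lf false, nd x c) → ¬ c.isLf → c.Bal → Cherry x →
          c.mk = 0 → 1 + (x.sz + c.sz) = m →
          UIso (A.ex Q Q, B.ex Q Q) (unroot (Gb m false Q Q)) := by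
        intro x c hT hcl bc h hmc hs
        obtain ⟨c', b1, b2, b3⟩ := bal_double Q Q bc hcl (by omega)
        rw [ex_unmarked (Sh.node Q Q) (Sh.node Q Q) (Sh.node Q (Sh.node Q Q)) (c := c')
          (by omega)] at b1
        have hxs : x.sz = 2 := by
          obtain ⟨u, v, rfl⟩ := h
          rfl
        have hxe : x.ex Q Q = Sh.node Q Q := by
          obtain ⟨u, v, rfl⟩ := h
          cases u <;> cases v <;> rfl
        have hu : UIso (A.ex Q Q, B.ex Q Q)
            ((lf true).ex (Sh.node Q Q) (Sh.node Q (Sh.node Q Q)),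
              c'.ex (Sh.node Q Q) (Sh.node Q (Sh.node Q Q))) :=
          ((hT.trans (MU.move _ _ _).symm).ex Q Q).trans
            (UIso.congr (RIso.congr (RIso.refl _) (hxe ▸ RIso.refl _)) b1)
        have hp := c'.sz_pos
        have hi := claimMG hG (c'.sz + 1) true _ _ (lf true) c' (q / 2) (by positivity)
          (by simp only [Mk.sz]; omega) (by simp only [Mk.mk, if_true]; omega)
          (hopt.trans hu) (odd_eqG hG hq hc)
        have hme : m = 2 * (c'.sz + 1) + 1 := by omega
        rw [hme, Gb_odd_false (by omega)]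
        exact hu.trans hi
      rcases exists_cherry bx hx (by omega) with h | ⟨C, z, c1, c2, c3, c4⟩
      · exact key x c hT hcl bc h (by omega) (by omega)
      · have hch : Cherry c := by
          by_contra hch
          have hle := c4.mk_le
          refine hSt.use hTc c4.swap ⟨?_, hLN false z c2 (by omega)⟩
          intro B X hB hX hBs hXs
          have e1 := cherry0G hG hc c1 (by omega) B hB hBs
          cases c with
          | lf _ => exact absurd trivial hcl
          | nd l r =>
            simp only [Mk.mk] at hm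
            obtain ⟨g1, -, -⟩ := bc
            have hl : ¬ l.isLf := by
              intro hl
              have hr := g1.1 hl
              cases l with
              | nd _ _ => exact hl
              | lf u =>
                cases r with
                | nd _ _ => exact hr
                | lf v => exact hch ⟨u, v, rfl⟩
            have hr : ¬ r.isLf := fun h => hl (g1.2 h)
            obtain ⟨a, A', b, B', rfl, s1, s2⟩ := sh_node hXs
            obtain ⟨n1, n2, n3, n4, -⟩ := node_bounds hG hX
            have f1 := (unmarked_le hG hq hc l (by omega) A' hX.left s1).2 hl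
            have f2 := (unmarked_le hG hq hc r (by omega) B' hX.right s2).2 hr
            linarith
        exact key c x hTs hx bx hch (by omega) (by omega)

/-- a minimal tree has the shape of the good tree -/
theorem GM_good : UIso (shU T) (Tgood (szU T)) := by
  have key : ∀ s : Sh, ∃ A : Mk, A.ex Sh.leaf Sh.leaf = s ∧ A.sz = s.size ∧ A.mk = 0 := by
    intro s
    induction s with
    | leaf => exact ⟨lf false, rfl, rfl, rfl⟩
    | node l r hl hr =>
      obtain ⟨A, a1, a2, a3⟩ := hl
      obtain ⟨B, b1, b2, b3⟩ := hr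
      refine ⟨nd A B, ?_, ?_, ?_⟩
      · show Sh.node (A.ex _ _) (B.ex _ _) = _
        rw [a1, b1]
      · simp only [Mk.sz, Sh.size, a2, b2]
      · simp only [Mk.mk, a3, b3]
  obtain ⟨A, a1, a2, a3⟩ := key (shU T).1
  obtain ⟨B, b1, b2, b3⟩ := key (shU T).2
  have hq : isq T Sh.leaf 1 := by
    intro X _ hs
    rw [sh_leaf hs]
    rfl
  have hT : UIso (shU T) (A.ex Sh.leaf Sh.leaf, B.ex Sh.leaf Sh.leaf) := by
    rw [a1, b1]
    exact UIso.refl _
  have h := claimEG hG (A.sz + B.sz) Sh.leaf A B 1 one_pos rfl (by omega) hT hq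
  unfold Tgood szU
  rw [good_eq]
  rw [a2, b2] at h
  exact hT.trans h

end

end Pool.Agent.H64.Sm
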