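import Pool.Agent.H64.SmSMT

/-!
# Shortest networks have no crossings (MP_ebc12b_co, helper64)
-/

set_option autoImplicit false

namespace Pool.Agent.H64.Sm

open Pool.Agent.Helper877_Smith

variable {d : ℕ}

/-- subdividing an edge -/
def sbd {V : Type} (G : SimpleGraph V) (a b : V) : SimpleGraph (Option V) where
  Adj x y := match x, y with
    | some x, some y => G.Adj x y ∧ s(x, y) ≠ s(a, b)
    | none, some y => y = a ∨ y = b
    | some x, none => x = a ∨ x = b
    | none, none => False
  symm := ⟨by
    rintro (_ | x) (_ | y) h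
    · exact h
    · exact h
    · exact h
    · exact ⟨G.adj_symm h.1, fun h' => h.2 (by rw [Sym2.eq_swap]; exact h')⟩⟩
  loopless := ⟨by
    rintro (_ | x) h
    · exact h
    · exact G.loopless.irrefl x h.1⟩

/-- the positions after subdividing an edge -/
def sbp {V : Type} (pos : V → Sp d) (p : Sp d) : Option V → Sp d
  | some x => pos x
  | none => p

section

variable {V : Type} {G : SimpleGraph V} {pos : V → Sp d} {a b : V} {p : Sp d}

theorem sbd_netLen [Fintype V] (hab : G.Adj a b)
    (hp : dist (pos a) p + dist p (pos b) = dist (pos a) (pos b)) :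
    netLen (sbd G a b) (sbp pos p) = netLen G pos := by
  classical
  obtain ⟨f, hf⟩ : ∃ f : V → V → ℝ, f = fun x y => if G.Adj x y then dist (pos x) (pos y) else 0 :=
    ⟨_, rfl⟩
  obtain ⟨g, hg⟩ : ∃ g : V → V → ℝ, g = fun x y => (if x = a ∧ y = b then dist (pos a) (pos b)
    else 0) + (if x = b ∧ y = a then dist (pos a) (pos b) else 0) := ⟨_, rfl⟩
  have hne : a ≠ b := hab.ne
  have h1 : ∀ x y, (if (sbd G a b).Adj (some x) (some y) then
      dist (sbp pos p (some x)) (sbp pos p (some y)) else 0) = f x y - g x y := by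
    intro x y
    have e1 : (sbd G a b).Adj (some x) (some y) ↔ G.Adj x y ∧ ¬ (x = a ∧ y = b) ∧
        ¬ (x = b ∧ y = a) := by
      show G.Adj x y ∧ s(x, y) ≠ s(a, b) ↔ _
      rw [Ne, Sym2.eq_iff, not_or]
    rw [hf, hg]
    simp only [e1, sbp]
    by_cases h2 : x = a ∧ y = b
    · obtain ⟨rfl, rfl⟩ := h2
      simp [hab, hne]
    · by_cases h3 : x = b ∧ y = a
      · obtain ⟨rfl, rfl⟩ := h3
        simp [hab.symm, hne.symm, dist_comm]
      · simp [h2, h3]
  have h2 : ∀ x, (if (sbd G a b).Adj (some x) none then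
      dist (sbp pos p (some x)) (sbp pos p none) else 0) =
      (if x = a then dist (pos a) p else 0) + (if x = b then dist p (pos b) else 0) := by
    intro x
    have e1 : (sbd G a b).Adj (some x) none ↔ x = a ∨ x = b := Iff.rfl
    simp only [e1, sbp]
    by_cases h2 : x = a
    · rw [h2]; simp [hne]
    · by_cases h3 : x = b
      · rw [h3]; simp [hne.symm, dist_comm]
      · simp [h2, h3]
  have h3 : ∀ x, (if (sbd G a b).Adj none (some x) then
      dist (sbp pos p none) (sbp pos p (some x)) else 0) =
      (if x = a then dist (pos a) p else 0) + (if x = b then dist p (pos b) else 0) := by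
    intro x
    rw [← h2 x, dist_comm (sbp pos p none)]
    refine if_congr ?_ rfl rfl
    exact (sbd G a b).adj_comm _ _
  have h4 : ¬ (sbd G a b).Adj none none := fun h => h
  have h5 : ∑ x, ∑ y, g x y = 2 * dist (pos a) (pos b) := by
    rw [hg]
    simp only [Finset.sum_add_distrib, ite_and, Finset.sum_ite_irrel, Finset.sum_ite_eq',
      Finset.sum_const_zero, Finset.mem_univ, if_true]
    ring
  have h6 : ∑ x : V, ((if x = a then dist (pos a) p else 0) +
      (if x = b then dist p (pos b) else 0)) = dist (pos a) (pos b) := by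
    rw [Finset.sum_add_distrib, Finset.sum_ite_eq', Finset.sum_ite_eq', if_pos (Finset.mem_univ _),
      if_pos (Finset.mem_univ _), hp]
  unfold netLen
  congr 1
  rw [Fintype.sum_option, Fintype.sum_option, if_neg h4, zero_add, Finset.sum_congr rfl
    (fun x _ => h3 x), h6]
  have h7 : ∀ x : V, (∑ y, if (sbd G a b).Adj (some x) y then
      dist (sbp pos p (some x)) (sbp pos p y) else 0) =
      ((if x = a then dist (pos a) p else 0) + (if x = b then dist p (pos b) else 0)) +
      (∑ y, f x y - ∑ y, g x y) := by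
    intro x
    rw [Fintype.sum_option, h2, Finset.sum_congr rfl (fun y _ => h1 x y), Finset.sum_sub_distrib]
  rw [Finset.sum_congr rfl (fun x _ => h7 x), Finset.sum_add_distrib, h6, Finset.sum_sub_distrib,
    h5, hf]
  ring

theorem sbd_connected (hG : G.Connected) (hab : G.Adj a b) : (sbd G a b).Connected := by
  have hnone : ∀ x, x = a ∨ x = b → (sbd G a b).Reachable (some x) none := by
    intro x hx
    exact SimpleGraph.Adj.reachable hx
  have hadj : ∀ x y, G.Adj x y → (sbd G a b).Reachable (some x) (some y) := by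
    intro x y hxy
    by_cases h : s(x, y) = s(a, b)
    · rw [Sym2.eq_iff] at h
      rcases h with ⟨rfl, rfl⟩ | ⟨rfl, rfl⟩
      · exact (hnone x (Or.inl rfl)).trans (hnone y (Or.inr rfl)).symm
      · exact (hnone x (Or.inr rfl)).trans (hnone y (Or.inl rfl)).symm
    · exact SimpleGraph.Adj.reachable ⟨hxy, h⟩
  have hwalk : ∀ x y, G.Walk x y → (sbd G a b).Reachable (some x) (some y) := by
    intro x y p
    induction p with
    | nil => exact SimpleGraph.Reachable.refl _
    | cons h p ih => exact (hadj _ _ h).trans ih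
  have hall : ∀ x, (sbd G a b).Reachable x (some a) := by
    rintro (_ | x)
    · exact (hnone a (Or.inl rfl)).symm
    · obtain ⟨p⟩ := hG.preconnected x a
      exact hwalk x a p
  have : Nonempty (Option V) := ⟨none⟩
  exact ⟨fun x y => (hall x).trans (hall y).symm⟩

theorem sbd_pos (hpos : ∀ x y, G.Adj x y → pos x ≠ pos y) (ha : p ≠ pos a) (hb : p ≠ pos b) :
    ∀ x y, (sbd G a b).Adj x y → sbp pos p x ≠ sbp pos p y := by
  rintro (_ | x) (_ | y) h
  · exact absurd h (fun h => h)
  · rcases h with rfl | rfl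
    · exact ha
    · exact hb
  · rcases h with rfl | rfl
    · exact ha.symm
    · exact hb.symm
  · exact hpos x y h.1

end

/-- a shortest connected network containing the terminals, with edges of positive length -/
def Shortest {V : Type} [Fintype V] (G : SimpleGraph V) (pos : V → Sp d) : Prop :=
  G.Connected ∧ (∀ x y, G.Adj x y → pos x ≠ pos y) ∧ (∀ i : Fin d, ∃ v, pos v = tm i) ∧
    ∀ (W : Type) [Fintype W] (H : SimpleGraph W) (q : W → Sp d), H.Connected →
      (∀ i : Fin d, ∃ w, q w = tm i) → netLen G pos ≤ netLen H q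

theorem Shortest.inj {V : Type} [Fintype V] {G : SimpleGraph V} {pos : V → Sp d}
    (h : Shortest G pos) : Function.Injective pos :=
  inj_of_min h.1 h.2.1 fun H hH => h.2.2.2 V H pos hH h.2.2.1

theorem Shortest.sbd {V : Type} [Fintype V] {G : SimpleGraph V} {pos : V → Sp d}
    (h : Shortest G pos) {a b : V} {p : Sp d} (hab : G.Adj a b)
    (hp : dist (pos a) p + dist p (pos b) = dist (pos a) (pos b)) (ha : p ≠ pos a)
    (hb : p ≠ pos b) : Shortest (sbd G a b) (sbp pos p) := by
  obtain ⟨h1, h2, h3, h4⟩ := h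
  refine ⟨sbd_connected h1 hab, sbd_pos h2 ha hb, fun i => ?_, fun W _ H q hH hq => ?_⟩
  · obtain ⟨v, hv⟩ := h3 i
    exact ⟨some v, hv⟩
  · rw [sbd_netLen hab hp]
    exact h4 W H q hH hq

/-- no vertex lies in the interior of an edge -/
theorem Shortest.no_vertex {V : Type} [Fintype V] {G : SimpleGraph V} {pos : V → Sp d}
    (h : Shortest G pos) {a b c : V} (hab : G.Adj a b)
    (hp : dist (pos a) (pos c) + dist (pos c) (pos b) = dist (pos a) (pos b)) :
    c = a ∨ c = b := by
  by_contra hc
  rw [not_or] at hc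
  have h2 := (h.sbd hab hp (fun hh => hc.1 (h.inj hh)) (fun hh => hc.2 (h.inj hh))).inj
  have h3 : sbp pos (pos c) (some c) = sbp pos (pos c) none := rfl
  exact absurd (h2 h3) (by simp)

/-- two different edges of a shortest network have at most a common end in common -/
theorem Shortest.cross {V : Type} [Fintype V] {G : SimpleGraph V} {pos : V → Sp d}
    (h : Shortest G pos) {a b c e : V} (hab : G.Adj a b) (hce : G.Adj c e)
    (hne : s(a, b) ≠ s(c, e)) {p : Sp d}
    (hp : dist (pos a) p + dist p (pos b) = dist (pos a) (pos b))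
    (hq : dist (pos c) p + dist p (pos e) = dist (pos c) (pos e)) :
    ∃ v, (v = a ∨ v = b) ∧ (v = c ∨ v = e) ∧ p = pos v := by
  by_cases ha : p = pos a
  · rw [ha] at hq
    exact ⟨a, Or.inl rfl, h.no_vertex hce hq, ha⟩
  by_cases hb : p = pos b
  · rw [hb] at hq
    exact ⟨b, Or.inr rfl, h.no_vertex hce hq, hb⟩
  by_cases hc : p = pos c
  · rw [hc] at hp
    exact ⟨c, h.no_vertex hab hp, Or.inl rfl, hc⟩
  by_cases he : p = pos e
  · rw [he] at hp
    exact ⟨e, h.no_vertex hab hp, Or.inr rfl, he⟩
  exfalso
  have h1 := h.sbd hab hp ha hb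
  have hce' : (Sm.sbd G a b).Adj (some c) (some e) := ⟨hce, hne.symm⟩
  have h2 := (h1.sbd (p := p) hce' hq hc he).inj
  have h3 : sbp (sbp pos p) p (some none) = sbp (sbp pos p) p none := rfl
  exact absurd (h2 h3) (by simp)

end Pool.Agent.H64.Sm
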