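import Mathlib

/-!
# Smith's conjecture on the Steiner minimal trees of a regular simplex: definitions
(MP_ebc12b_co, seat helper64)
-/

set_option autoImplicit false

namespace Pool.Agent.H64.Smith

/-! ### The tree `T_d` -/

/-- Rooted binary trees: a single node, or a root with two child subtrees. -/
inductive BT : Type
  | leaf : BT
  | node (l r : BT) : BT

/-- The full binary tree `F_h` of height `h`: all `2 ^ h` leaves at depth `h`. -/
def full : ℕ → BT
  | 0 => BT.leaf
  | h + 1 => BT.node (full h) (full h)

/-- The good binary tree `G_d` with `d` leaves: `G_2 = F_1`, and for `d > 2`, with `k` such that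
`2 ^ k < d ≤ 2 ^ (k + 1)`, that is `k = Nat.log 2 (d - 1)`, the root of `G_d` has the child
subtrees `F_{k-1}` and `G_{d - 2 ^ (k-1)}` if `d ≤ 3 * 2 ^ (k-1)`, and `F_k` and `G_{d - 2 ^ k}`
otherwise. -/
def good (d : ℕ) : BT :=
  if d ≤ 1 then BT.leaf
  else if d = 2 then full 1
  else if d ≤ 3 * 2 ^ (Nat.log 2 (d - 1) - 1) then
    BT.node (full (Nat.log 2 (d - 1) - 1)) (good (d - 2 ^ (Nat.log 2 (d - 1) - 1)))
  else BT.node (full (Nat.log 2 (d - 1))) (good (d - 2 ^ Nat.log 2 (d - 1)))
termination_by d
decreasing_by
  · have : 0 < 2 ^ (Nat.log 2 (d - 1) - 1) := by positivity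
    omega
  · have : 0 < 2 ^ (Nat.log 2 (d - 1)) := by positivity
    omega

/-- The graph obtained from two disjoint graphs by adding an edge between the vertex `v` of the
first and the vertex `w` of the second. -/
def join {V W : Type} (G : SimpleGraph V) (v : V) (H : SimpleGraph W) (w : W) :
    SimpleGraph (V ⊕ W) where
  Adj x y := match x, y with
    | Sum.inl a, Sum.inl b => G.Adj a b
    | Sum.inr a, Sum.inr b => H.Adj a b
    | Sum.inl a, Sum.inr b => a = v ∧ b = w
    | Sum.inr b, Sum.inl a => a = v ∧ b = w
  symm := ⟨by
    rintro (a | a) (b | b) h
    · exact G.adj_symm h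
    · exact h
    · exact h
    · exact H.adj_symm h⟩
  loopless := ⟨by
    rintro (a | a) h
    · exact G.loopless.irrefl a h
    · exact H.loopless.irrefl a h⟩

/-- The vertices of a rooted binary tree: the root, and the vertices of the two subtrees. -/
def Vt : BT → Type
  | BT.leaf => Unit
  | BT.node l r => (Unit ⊕ Vt l) ⊕ Vt r

/-- The root of a rooted binary tree. -/
def root : (t : BT) → Vt t
  | BT.leaf => ()
  | BT.node _ _ => Sum.inl (Sum.inl ())

/-- The graph of a rooted binary tree: the root is joined with the roots of the two subtrees. -/
def graph : (t : BT) → SimpleGraph (Vt t)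
  | BT.leaf => (⊥ : SimpleGraph Unit)
  | BT.node l r =>
    join (join (⊥ : SimpleGraph Unit) () (graph l) (root l)) (Sum.inl ()) (graph r) (root r)

/-- The vertices that are left when the root is deleted. -/
def Vu : BT → Type
  | BT.leaf => Unit
  | BT.node l r => Vt l ⊕ Vt r

/-- The unrooted tree obtained from a rooted binary tree (with more than one node) by deleting the
root and joining its two former children by an edge. -/
def unrooted : (t : BT) → SimpleGraph (Vu t)
  | BT.leaf => (⊥ : SimpleGraph Unit)
  | BT.node l r => join (graph l) (root l) (graph r) (root r)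

/-- The tree `T_d`, obtained from `G_d` by deleting the root and joining its two former children
by an edge. -/
def smithTree (d : ℕ) : SimpleGraph (Vu (good d)) := unrooted (good d)

/-! ### Steiner minimal trees -/

/-- The terminal `e_i` in `ℝ^d`. -/
noncomputable def terminal {d : ℕ} (i : Fin d) : EuclideanSpace ℝ (Fin d) :=
  EuclideanSpace.single i 1

/-- `G`, with its vertices placed in `ℝ^d` by `pos` and with straight edges, is a tree embedded in
`ℝ^d` that contains the terminals `e_1, ..., e_d` (it may have additional vertices). -/
structure ContainsTerminals {d : ℕ} {V : Type} (G : SimpleGraph V)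
    (pos : V → EuclideanSpace ℝ (Fin d)) : Prop where
  /-- the graph is a tree -/
  tree : G.IsTree
  /-- distinct vertices have distinct positions -/
  inj : Function.Injective pos
  /-- two distinct edges meet at most in the position of a common end -/
  emb : ∀ a b c e : V, G.Adj a b → G.Adj c e → s(a, b) ≠ s(c, e) →
    ∀ p ∈ segment ℝ (pos a) (pos b), p ∈ segment ℝ (pos c) (pos e) →
      ∃ v, (v = a ∨ v = b) ∧ (v = c ∨ v = e) ∧ p = pos v
  /-- each terminal is the position of a vertex -/
  cov : ∀ i : Fin d, ∃ v, pos v = terminal i

open Classical in
/-- The total Euclidean length of the edges (every edge occurs twice in the double sum). -/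
noncomputable def treeLength {d : ℕ} {V : Type} [Fintype V] (G : SimpleGraph V)
    (pos : V → EuclideanSpace ℝ (Fin d)) : ℝ :=
  (∑ x, ∑ y, if G.Adj x y then dist (pos x) (pos y) else 0) / 2

/-- A Steiner minimal tree for the terminals `e_1, ..., e_d`: a finite tree embedded in `ℝ^d` with
straight edges that contains the terminals and has the minimum total Euclidean length among all
such trees. As usual, a Steiner point (a vertex that is not at a terminal) with exactly two
neighbours, which would only subdivide an edge, is not allowed. -/
structure IsSteinerMinimal {d : ℕ} {V : Type} [Fintype V] (G : SimpleGraph V)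
    (pos : V → EuclideanSpace ℝ (Fin d)) : Prop where
  /-- it is an embedded tree that contains the terminals -/
  isTree : ContainsTerminals G pos
  /-- it is not longer than any other such tree -/
  minimal : ∀ (W : Type) [Fintype W] (H : SimpleGraph W) (q : W → EuclideanSpace ℝ (Fin d)),
    ContainsTerminals H q → treeLength G pos ≤ treeLength H q
  /-- no Steiner point has exactly two neighbours -/
  steiner : ∀ v, (∀ i : Fin d, pos v ≠ terminal i) → (G.neighborSet v).ncard ≠ 2

end Pool.Agent.H64.Smith
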