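import Pool.Agent.H64.SmTree

/-!
# Stationary trees minimise the form among all labels of their shape (MP_ebc12b_co, helper64)
-/

set_option autoImplicit false

namespace Pool.Agent.H64.Sm

open Pool.Agent.Helper877_Smith

open RT

/-- the stationarity equation of the distinguished edge -/
def E1 (T : UT) : Prop := T.1.u + T.2.2.u = (T.1.p + T.2.1 + T.2.2.p) ^ 2

/-- the stationarity equations of all edges -/
def EE (T : UT) : Prop := ∀ T', UL T T' → E1 T'

theorem EE.of_ul {S T : UT} (h : EE S) (hT : UL S T) : EE T := fun T' hT' => h T' (hT.trans hT')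

theorem NNU_of_ul {S T : UT} (h : NNU S) (hT : UL S T) : NNU T :=
  (hT.al (fun _ h => le_of_lt h)).1 h

theorem PsU_of_ul {S T : UT} (h : PsU S) (hT : UL S T) : PsU T :=
  (hT.al (fun _ h => h)).1 h

/-- the two rerootings at a vertex -/
theorem UL.toA (a : ℝ) (A : RT) (b : ℝ) (B : RT) (r : ℝ) (C : RT) :
    UL (node a A b B, r, C) (A, a, node b B r C) := UL.move _ _ _ _ _ _

theorem UL.toB (a : ℝ) (A : RT) (b : ℝ) (B : RT) (r : ℝ) (C : RT) :
    UL (node a A b B, r, C) (B, b, node a A r C) :=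
  (UL.congr r (RL.swap _ _ _ _) (RL.refl _)).trans (UL.move _ _ _ _ _ _)

/-- solving the three equations at a vertex -/
theorem vert_aux {a b c x y z : ℝ} (ha : 0 < a) (hb : 0 < b) (hc : 0 < c)
    (h1 : x * (b + c) ^ 2 + c ^ 2 * y + b ^ 2 * z = (a * b + b * c + c * a) ^ 2)
    (h2 : c ^ 2 * x + y * (a + c) ^ 2 + a ^ 2 * z = (a * b + b * c + c * a) ^ 2)
    (h3 : b ^ 2 * x + a ^ 2 * y + z * (a + b) ^ 2 = (a * b + b * c + c * a) ^ 2) :
    x = (a * (2 * a + b + c) - b * c) / 2 := by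
  have hE : 0 < a * b + b * c + c * a := by positivity
  have key : 2 * (a * b + b * c + c * a) ^ 3 * (x - (a * (2 * a + b + c) - b * c) / 2) = 0 := by
    linear_combination
      (2*a*b*c^2 + 2*a*b^2*c + 4*a^2*b*c + a^2*b^2 + a^2*c^2 + 2*a^3*b + 2*a^3*c + b^2*c^2) * h1 +
      (-2*a*b*c^2 + a^2*b^2 + -a^2*c^2 + -b^2*c^2) * h2 +
      (-2*a*b^2*c + -a^2*b^2 + a^2*c^2 + -b^2*c^2) * h3
  have h4 : (2 * (a * b + b * c + c * a) ^ 3 : ℝ) ≠ 0 := by positivity
  rcases mul_eq_zero.1 key with h | h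
  · exact absurd h h4
  · linarith

/-- the vertex equations -/
structure Vert (α β γ x y z : ℝ) : Prop where
  hα : 0 < α
  hβ : 0 < β
  hγ : 0 < γ
  x : x = (α * (2 * α + β + γ) - β * γ) / 2
  y : y = (β * (2 * β + α + γ) - α * γ) / 2
  z : z = (γ * (2 * γ + α + β) - α * β) / 2

theorem vert_of {a : ℝ} {A : RT} {b : ℝ} {B : RT} {r : ℝ} {C : RT}
    (hn : NNU (node a A b B, r, C)) (he : EE (node a A b B, r, C)) :
    Vert (A.p + a) (B.p + b) (C.p + r) A.u B.u C.u := by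
  obtain ⟨h1, h2, ⟨h3, h4, h5, h6⟩, h7⟩ := hn
  have hA := NN_tot h5 h3
  have hB := NN_tot h6 h4
  have hC := NN_tot h7 h2
  have e1 := he _ (UL.toA _ _ _ _ _ _)
  have e2 := he _ (UL.toB _ _ _ _ _ _)
  have e3 := he _ (UL.refl _)
  unfold E1 at e1 e2 e3
  simp only [RT.p, RT.u] at e1 e2 e3
  obtain ⟨α, hα⟩ : ∃ α, α = A.p + a := ⟨_, rfl⟩
  obtain ⟨β, hβ⟩ : ∃ β, β = B.p + b := ⟨_, rfl⟩
  obtain ⟨γ, hγ⟩ : ∃ γ, γ = C.p + r := ⟨_, rfl⟩
  rw [← hα] at hA e1 e2 e3 ⊢
  rw [← hβ] at hB e1 e2 e3 ⊢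
  rw [← hγ] at hC e1 e2 ⊢
  rw [show α * β / (α + β) + r + C.p = α * β / (α + β) + γ by rw [hγ]; ring] at e3
  have g1 : A.u * (β + γ) ^ 2 + γ ^ 2 * B.u + β ^ 2 * C.u = (α * β + β * γ + γ * α) ^ 2 := by
    field_simp at e1
    linear_combination e1
  have g2 : γ ^ 2 * A.u + B.u * (α + γ) ^ 2 + α ^ 2 * C.u = (α * β + β * γ + γ * α) ^ 2 := by
    field_simp at e2
    linear_combination e2
  have g3 : β ^ 2 * A.u + α ^ 2 * B.u + C.u * (α + β) ^ 2 = (α * β + β * γ + γ * α) ^ 2 := by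
    field_simp at e3
    linear_combination e3
  refine ⟨hA, hB, hC, vert_aux hA hB hC g1 g2 g3, ?_, ?_⟩
  · have := vert_aux (a := β) (b := α) (c := γ) (x := B.u) (y := A.u) (z := C.u) hB hA hC
      (by linear_combination g2) (by linear_combination g1) (by linear_combination g3)
    exact this
  · have := vert_aux (a := γ) (b := α) (c := β) (x := C.u) (y := A.u) (z := B.u) hC hA hB
      (by linear_combination g3) (by linear_combination g1) (by linear_combination g2)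
    exact this

/-- admissible labels: the totals at each vertex have a positive sum -/
def DD : RT → Prop
  | leaf => True
  | node a A b B => 0 < (A.p + a) + (B.p + b) ∧ DD A ∧ DD B

/-- admissible labels -/
def DU (T : UT) : Prop := 0 < T.1.p + T.2.1 + T.2.2.p ∧ DD T.1 ∧ DD T.2.2

theorem NN_DD {A : RT} (h : NN A) : DD A := by
  induction A with
  | leaf => trivial
  | node a A b B iA iB =>
    obtain ⟨h1, h2, h3, h4⟩ := h
    have g1 := NN_tot h3 h1
    have g2 := NN_tot h4 h2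
    exact ⟨by linarith, iA h3, iB h4⟩

theorem NNU_DU {T : UT} (h : NNU T) : DU T := by
  obtain ⟨h1, h2, h3, h4⟩ := h
  have g1 := NN_tot h3 h1
  have g2 := (NN_p_nonneg h4).1
  exact ⟨by linarith, NN_DD h3, NN_DD h4⟩

/-- the product of the effective terminals for two labellings of the same shape -/
noncomputable def kk : RT → RT → ℝ
  | leaf, _ => 1
  | node _ _ _ _, leaf => 0
  | node a A b B, node a' A' b' B' =>
    ((B.p + b) * (B'.p + b') * kk A A' + (A.p + a) * (A'.p + a') * kk B B') /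
      (((A.p + a) + (B.p + b)) * ((A'.p + a') + (B'.p + b')))

theorem cs_aux {k1 k2 u1 u2 v1 v2 : ℝ} (hu1 : 0 ≤ u1) (hu2 : 0 ≤ u2) (hv1 : 0 ≤ v1)
    (hv2 : 0 ≤ v2) (h1 : k1 ^ 2 ≤ u1 * v1) (h2 : k2 ^ 2 ≤ u2 * v2) :
    (k1 + k2) ^ 2 ≤ (u1 + u2) * (v1 + v2) := by
  have h3 : 2 * (k1 * k2) ≤ u1 * v2 + u2 * v1 := by
    by_contra hc
    push Not at hc
    have h4 : 0 ≤ u1 * v2 + u2 * v1 := by positivity
    have h5 : (u1 * v2 + u2 * v1) ^ 2 < (2 * (k1 * k2)) ^ 2 := by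
      exact pow_lt_pow_left₀ hc h4 two_ne_zero
    have h6 : k1 ^ 2 * k2 ^ 2 ≤ (u1 * v1) * (u2 * v2) :=
      mul_le_mul h1 h2 (sq_nonneg _) (by positivity)
    nlinarith [sq_nonneg (u1 * v2 - u2 * v1)]
  nlinarith

theorem kk_cs (A : RT) : ∀ A' : RT, kk A A' ^ 2 ≤ A.u * A'.u ∨ A'.sh ≠ A.sh := by
  induction A with
  | leaf =>
    intro A'
    cases A' with
    | leaf => left; simp [kk, RT.u]
    | node => right; simp [RT.sh]
  | node a A b B iA iB =>
    intro A'
    cases A' with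
    | leaf => right; simp [RT.sh]
    | node a' A' b' B' =>
      by_cases hs : (node a' A' b' B').sh = (node a A b B).sh
      · left
        simp only [RT.sh, Sh.node.injEq] at hs
        have h1 := (iA A').resolve_right (fun h => h hs.1)
        have h2 := (iB B').resolve_right (fun h => h hs.2)
        simp only [kk, RT.u]
        obtain ⟨α, hα⟩ : ∃ α, α = A.p + a := ⟨_, rfl⟩
        obtain ⟨β, hβ⟩ : ∃ β, β = B.p + b := ⟨_, rfl⟩
        obtain ⟨α', hα'⟩ : ∃ α, α = A'.p + a' := ⟨_, rfl⟩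
        obtain ⟨β', hβ'⟩ : ∃ β, β = B'.p + b' := ⟨_, rfl⟩
        rw [← hα, ← hβ, ← hα', ← hβ']
        rw [div_pow, mul_pow, div_mul_div_comm]
        refine div_le_div_of_nonneg_right ?_ (by positivity)
        refine cs_aux (by have := u_nonneg A; positivity) (by have := u_nonneg B; positivity)
          (by have := u_nonneg A'; positivity) (by have := u_nonneg B'; positivity) ?_ ?_
        · have := mul_le_mul_of_nonneg_left h1 (sq_nonneg (β * β'))
          nlinarith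
        · have := mul_le_mul_of_nonneg_left h2 (sq_nonneg (α * α'))
          nlinarith
      · right; exact hs

theorem sq_aux {u k v M : ℝ} (hv : 0 < v) (h : k ^ 2 ≤ v * u) : -(v * M ^ 2) ≤ u - 2 * k * M := by
  have h1 : 0 ≤ v * (u - 2 * k * M + v * M ^ 2) := by nlinarith [sq_nonneg (k - v * M)]
  have h2 := nonneg_of_mul_nonneg_right h1 hv
  linarith

/-- the inequality for a branch -/
theorem dual_branch (X0 : RT) : ∀ (r : ℝ) (Y : RT), NNU (X0, r, Y) → EE (X0, r, Y) →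
    ∀ X : RT, X.sh = X0.sh → DD X →
      X0.k - X0.p + 2 * X0.u / (X0.p + r + Y.p) ≤ X.k - X.p + 2 * kk X0 X / (X0.p + r + Y.p) := by
  induction X0 with
  | leaf =>
    intro r Y _ _ X hX _
    have := sh_leaf hX
    subst this
    simp [kk, RT.u, RT.k, RT.p]
  | node a A b B iA iB =>
    intro r Y hn he X hX hD
    obtain ⟨a', A', b', B', rfl, sA, sB⟩ := sh_node hX
    obtain ⟨hD1, hD2, hD3⟩ := hD
    have hv := vert_of hn he
    have hA := iA a (node b B r Y) (NNU_of_ul hn (UL.toA _ _ _ _ _ _))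
      (he.of_ul (UL.toA _ _ _ _ _ _)) A' sA hD2
    have hB := iB b (node a A r Y) (NNU_of_ul hn (UL.toB _ _ _ _ _ _))
      (he.of_ul (UL.toB _ _ _ _ _ _)) B' sB hD3
    have cA := (kk_cs A A').resolve_right (fun h => h sA)
    have cB := (kk_cs B B').resolve_right (fun h => h sB)
    obtain ⟨h1, h2, ⟨h3, h4, h5, h6⟩, h7⟩ := hn
    have uA := NN_u_pos h5
    have uB := NN_u_pos h6
    have uY := NN_u_pos h7
    obtain ⟨v1, v2, v3, v4, v5, v6⟩ := hv
    simp only [kk, RT.u, RT.k, RT.p] at hA hB ⊢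
    obtain ⟨α, hα⟩ : ∃ α, α = A.p + a := ⟨_, rfl⟩
    obtain ⟨β, hβ⟩ : ∃ β, β = B.p + b := ⟨_, rfl⟩
    obtain ⟨γ, hγ⟩ : ∃ γ, γ = Y.p + r := ⟨_, rfl⟩
    obtain ⟨x, hx⟩ : ∃ x, x = A'.p + a' := ⟨_, rfl⟩
    obtain ⟨y, hy⟩ : ∃ y, y = B'.p + b' := ⟨_, rfl⟩
    rw [← hα] at v1 v4 v5 v6 hA hB ⊢
    rw [← hβ] at v2 v4 v5 v6 hA hB ⊢
    rw [← hγ] at v3 v4 v5 v6 hA hB
    rw [← hx] at hD1 ⊢
    rw [← hy] at hD1 ⊢
    have hE : 0 < α * β + β * γ + γ * α := by positivity
    obtain ⟨E, hEd⟩ : ∃ E, E = α * β + β * γ + γ * α := ⟨_, rfl⟩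
    rw [← hEd] at hE
    have l1 : α + β * γ / (β + γ) = E / (β + γ) := by rw [hEd]; field_simp <;> ring
    have l2 : β + α * γ / (α + γ) = E / (α + γ) := by rw [hEd]; field_simp <;> ring
    have l3 : α * β / (α + β) + r + Y.p = E / (α + β) := by
      rw [hEd, show α * β / (α + β) + r + Y.p = α * β / (α + β) + γ by rw [hγ]; ring]
      field_simp; ring
    rw [l1] at hA
    rw [l2] at hB
    rw [l3]
    set MA := ((β + γ) * x + γ * y) / E with hMA
    set MB := ((α + γ) * y + γ * x) / E with hMB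
    have qA := sq_aux (M := MA) uA cA
    have qB := sq_aux (M := MB) uB cB
    have hQ : x ^ 2 + x * y + y ^ 2 - A.u * MA ^ 2 - B.u * MB ^ 2 =
        Y.u * (β * x - α * y) ^ 2 / E ^ 2 := by
      rw [hMA, hMB, v4, v5, v6, eq_div_iff (by positivity)]
      have : (x ^ 2 + x * y + y ^ 2 - (α * (2 * α + β + γ) - β * γ) / 2 *
          (((β + γ) * x + γ * y) / E) ^ 2 - (β * (2 * β + α + γ) - α * γ) / 2 *
          (((α + γ) * y + γ * x) / E) ^ 2) * E ^ 2 =
          (x ^ 2 + x * y + y ^ 2) * E ^ 2 - (α * (2 * α + β + γ) - β * γ) / 2 *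
          ((β + γ) * x + γ * y) ^ 2 - (β * (2 * β + α + γ) - α * γ) / 2 *
          ((α + γ) * y + γ * x) ^ 2 := by
        field_simp
      rw [this, hEd]
      ring
    have hQ0 : 0 ≤ Y.u * (β * x - α * y) ^ 2 / E ^ 2 := by positivity
    have hP : 0 ≤ (x ^ 2 + x * y + y ^ 2 + A'.u - 2 * kk A A' * MA + B'.u - 2 * kk B B' * MB) /
        (x + y) := div_nonneg (by linarith) hD1.le
    have e1 : A'.k + B'.k + a' + b' + (A'.u + B'.u) / (x + y) - x * y / (x + y) +
        2 * ((β * y * kk A A' + α * x * kk B B') / ((α + β) * (x + y))) / (E / (α + β)) =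
        (A'.k - A'.p + 2 * kk A A' / (E / (β + γ))) + (B'.k - B'.p + 2 * kk B B' / (E / (α + γ))) +
        (x ^ 2 + x * y + y ^ 2 + A'.u - 2 * kk A A' * MA + B'.u - 2 * kk B B' * MB) /
        (x + y) := by
      rw [hMA, hMB, show a' = x - A'.p by rw [hx]; ring, show b' = y - B'.p by rw [hy]; ring]
      have hxy : x + y ≠ 0 := hD1.ne'
      field_simp
      ring
    have e2 : A.k + B.k + a + b + (A.u + B.u) / (α + β) - α * β / (α + β) +
        2 * ((β ^ 2 * A.u + α ^ 2 * B.u) / (α + β) ^ 2) / (E / (α + β)) =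
        (A.k - A.p + 2 * A.u / (E / (β + γ))) + (B.k - B.p + 2 * B.u / (E / (α + γ))) := by
      have h9 : α ^ 2 + α * β + β ^ 2 = A.u + B.u := by rw [v4, v5]; ring
      rw [show a = α - A.p by rw [hα]; ring, show b = β - B.p by rw [hβ]; ring]
      field_simp
      rw [hEd]
      linear_combination (α * β + β * γ + γ * α) * h9
    rw [e1, e2]
    linarith

/-- A tree which satisfies all stationarity equations minimises the form among all trees with
admissible labels and the same shape. -/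
theorem dual_main {T0 T : UT} (hn : NNU T0) (he : EE T0) (hs : shU T = shU T0) (hD : DU T) :
    F T0 ≤ F T := by
  obtain ⟨A0, r0, B0⟩ := T0
  obtain ⟨A, r, B⟩ := T
  simp only [shU, Prod.mk.injEq] at hs
  obtain ⟨d1, d2, d3⟩ := hD
  simp only at d1 d2 d3
  have hA := dual_branch A0 r0 B0 hn he A hs.1 d2
  have hB := dual_branch B0 r0 A0 (NNU_of_ul hn (UL.swap _ _ _)) (he.of_ul (UL.swap _ _ _)) B
    hs.2 d3
  have e1 := he _ (UL.refl _)
  have cA := (kk_cs A0 A).resolve_right (fun h => h hs.1)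
  have cB := (kk_cs B0 B).resolve_right (fun h => h hs.2)
  have cs := cs_aux (u_nonneg A0) (u_nonneg B0) (u_nonneg A) (u_nonneg B) cA cB
  have hl := (NNU_DU hn).1
  unfold E1 at e1
  unfold F
  simp only at hl e1 ⊢
  rw [show B0.p + r0 + A0.p = A0.p + r0 + B0.p by ring] at hB
  obtain ⟨l0, hl0⟩ : ∃ l, l = A0.p + r0 + B0.p := ⟨_, rfl⟩
  obtain ⟨l, hl1⟩ : ∃ l, l = A.p + r + B.p := ⟨_, rfl⟩
  rw [← hl0] at hA hB e1 hl ⊢
  rw [← hl1] at d1 ⊢
  rw [e1] at cs ⊢
  set K := (kk A0 A + kk B0 B) / l0 with hK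
  have hK2 : K ^ 2 ≤ A.u + B.u := by
    rw [hK, div_pow, div_le_iff₀ (by positivity)]
    linarith
  have h3 : 2 * K ≤ l + (A.u + B.u) / l := by
    have h4 : 0 ≤ (l - K) ^ 2 / l + (A.u + B.u - K ^ 2) / l :=
      add_nonneg (div_nonneg (sq_nonneg _) d1.le) (div_nonneg (by linarith) d1.le)
    have h5 : (l - K) ^ 2 / l + (A.u + B.u - K ^ 2) / l = l - 2 * K + (A.u + B.u) / l := by
      field_simp
      ring
    linarith
  have h6 : 2 * A0.u / l0 + 2 * B0.u / l0 = 2 * l0 := by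
    rw [← add_div, ← mul_add, e1]
    field_simp
  have h7 : 2 * kk A0 A / l0 + 2 * kk B0 B / l0 = 2 * K := by
    rw [hK]
    ring
  have h8 : l0 ^ 2 / l0 = l0 := by field_simp
  rw [h8]
  linarith

end Pool.Agent.H64.Sm
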