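import Pool.Agent.H64.SmNet

/-!
# The graph of a full Steiner tree (MP_ebc12b_co, helper64)
-/

set_option autoImplicit false

namespace Pool.Agent.H64.Sm

open Pool.Agent.Helper877_Smith

variable {d : ℕ}

instance instFintypeVT : (s : Sh) → Fintype (VT s)
  | Sh.leaf => inferInstanceAs (Fintype Unit)
  | Sh.node l r => by
    have := instFintypeVT l
    have := instFintypeVT r
    exact inferInstanceAs (Fintype ((Unit ⊕ VT l) ⊕ VT r))

/-- the positions of the vertices of a branch -/
noncomputable def pv : (b : Br d) → VT b.shape → Sp d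
  | Br.term i => fun _ => tm i
  | Br.pt x l r => Sum.elim (Sum.elim (fun _ => x) (pv l)) (pv r)

theorem pv_rtv (b : Br d) : pv b (rtv b.shape) = b.pos := by
  cases b <;> rfl

theorem netLen_inst {V : Type} (i1 i2 : Fintype V) (G : SimpleGraph V) (pos : V → Sp d) :
    @netLen d V i1 G pos = @netLen d V i2 G pos := by
  rw [Subsingleton.elim i1 i2]

theorem netLen_RG (b : Br d) : netLen (RG b.shape) (pv b) = b.len := by
  induction b with
  | term i =>
    unfold netLen
    show (∑ x : Unit, ∑ y : Unit, _) / 2 = (0 : ℝ)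
    simp [RG, Br.shape]
  | pt x l r hl hr =>
    have h1 := netLen_jn (jn (⊥ : SimpleGraph Unit) () (RG l.shape) (rtv l.shape)) (Sum.inl ())
      (RG r.shape) (rtv r.shape) (Sum.elim (Sum.elim (fun _ => x) (pv l)) (pv r))
    have h2 := netLen_jn (⊥ : SimpleGraph Unit) () (RG l.shape) (rtv l.shape)
      (Sum.elim (fun _ => x) (pv l))
    have h3 : netLen (⊥ : SimpleGraph Unit) (fun _ => x) = 0 := by
      unfold netLen
      simp
    simp only [Sum.elim_inl, Sum.elim_inr] at h1 h2
    rw [h2, h3, hl, hr, pv_rtv, pv_rtv] at h1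
    have h4 : netLen (RG (Br.pt x l r).shape) (pv (Br.pt x l r)) =
      netLen (jn (jn (⊥ : SimpleGraph Unit) () (RG l.shape) (rtv l.shape)) (Sum.inl ())
      (RG r.shape) (rtv r.shape)) (Sum.elim (Sum.elim (fun _ => x) (pv l)) (pv r)) :=
      netLen_inst (V := (Unit ⊕ VT l.shape) ⊕ VT r.shape) _ _ _ _
    rw [h4, h1]
    show _ = dist x l.pos + dist x r.pos + l.len + r.len
    ring

/-- the positions of the vertices of a full Steiner tree -/
noncomputable def pw (W : FST d) : VT W.top.1 ⊕ VT W.top.2 → Sp d :=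
  Sum.elim (pv W.left) (pv W.right)

theorem netLen_TGr (W : FST d) : netLen (TGr W.top) (pw W) = W.length := by
  have h1 := netLen_jn (RG W.left.shape) (rtv W.left.shape) (RG W.right.shape)
    (rtv W.right.shape) (Sum.elim (pv W.left) (pv W.right))
  simp only [Sum.elim_inl, Sum.elim_inr] at h1
  rw [netLen_RG, netLen_RG, pv_rtv, pv_rtv] at h1
  show netLen (jn (RG W.left.shape) (rtv W.left.shape) (RG W.right.shape)
    (rtv W.right.shape)) (Sum.elim (pv W.left) (pv W.right)) = _
  rw [h1]
  show _ = dist W.left.pos W.right.pos + W.left.len + W.right.len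
  ring

theorem jn_connected {V W : Type} {G : SimpleGraph V} {H : SimpleGraph W} (hG : G.Connected)
    (hH : H.Connected) (v : V) (w : W) : (jn G v H w).Connected := by
  have f : G →g jn G v H w := ⟨Sum.inl, fun h => h⟩
  have hl : ∀ a : V, (jn G v H w).Reachable (Sum.inl a) (Sum.inl v) := by
    intro a
    exact (hG.preconnected a v).map (⟨Sum.inl, fun h => h⟩ : G →g jn G v H w)
  have hr : ∀ b : W, (jn G v H w).Reachable (Sum.inr b) (Sum.inr w) := by
    intro b
    exact (hH.preconnected b w).map (⟨Sum.inr, fun h => h⟩ : H →g jn G v H w)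
  have hvw : (jn G v H w).Reachable (Sum.inr w) (Sum.inl v) := by
    refine SimpleGraph.Adj.reachable ?_
    exact ⟨rfl, rfl⟩
  have hall : ∀ x, (jn G v H w).Reachable x (Sum.inl v) := by
    rintro (a | b)
    · exact hl a
    · exact (hr b).trans hvw
  have : Nonempty (V ⊕ W) := ⟨Sum.inl v⟩
  exact ⟨fun x y => (hall x).trans (hall y).symm⟩

theorem bot_unit_connected : (⊥ : SimpleGraph Unit).Connected :=
  ⟨fun x y => by cases x; cases y; exact SimpleGraph.Reachable.refl _⟩

theorem RG_connected (s : Sh) : (RG s).Connected := by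
  induction s with
  | leaf => exact bot_unit_connected
  | node l r hl hr => exact jn_connected (jn_connected bot_unit_connected hl _ _) hr _ _

theorem TGr_connected (S : Sh × Sh) : (TGr S).Connected :=
  jn_connected (RG_connected _) (RG_connected _) _ _

theorem pv_cov (b : Br d) : ∀ i ∈ b.terms, ∃ x, pv b x = tm i := by
  induction b with
  | term j =>
    intro i hi
    rw [Br.terms, Multiset.mem_singleton] at hi
    rw [hi]
    exact ⟨(), rfl⟩
  | pt x l r hl hr =>
    intro i hi
    rw [Br.terms, Multiset.mem_add] at hi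
    rcases hi with hi | hi
    · obtain ⟨y, hy⟩ := hl i hi
      exact ⟨Sum.inl (Sum.inr y), hy⟩
    · obtain ⟨y, hy⟩ := hr i hi
      exact ⟨Sum.inr y, hy⟩

theorem pw_cov (W : FST d) (i : Fin d) : ∃ x, pw W x = tm i := by
  have h : i ∈ W.left.terms + W.right.terms := by
    rw [W.once]
    exact Finset.mem_univ i
  rw [Multiset.mem_add] at h
  rcases h with h | h
  · obtain ⟨x, hx⟩ := pv_cov _ i h
    exact ⟨Sum.inl x, hx⟩
  · obtain ⟨x, hx⟩ := pv_cov _ i h
    exact ⟨Sum.inr x, hx⟩

theorem pv_adj (b : Br d) (h : b.ndg) : ∀ x y, (RG b.shape).Adj x y → pv b x ≠ pv b y := by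
  induction b with
  | term j => intro x y hxy; exact absurd hxy (by simp [RG, Br.shape])
  | pt x l r hl hr =>
    obtain ⟨h1, h2, h3, h4⟩ := h
    rintro ((a | a) | a) ((b | b) | b) hab
    · exact absurd hab (by simp [RG, Br.shape, jn])
    · obtain ⟨-, rfl⟩ := hab
      show x ≠ pv l (rtv _)
      rw [pv_rtv]
      exact h1
    · obtain ⟨-, rfl⟩ := hab
      show x ≠ pv r (rtv _)
      rw [pv_rtv]
      exact h2
    · obtain ⟨-, rfl⟩ := hab
      show pv l (rtv _) ≠ x
      rw [pv_rtv]
      exact h1.symm
    · exact hl h3 a b hab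
    · exact absurd hab.1 (by simp)
    · obtain ⟨-, rfl⟩ := hab
      show pv r (rtv _) ≠ x
      rw [pv_rtv]
      exact h2.symm
    · exact absurd hab.1 (by simp)
    · exact hr h4 a b hab

theorem pw_adj (W : FST d) (h : W.ndg) : ∀ x y, (TGr W.top).Adj x y → pw W x ≠ pw W y := by
  obtain ⟨h1, h2, h3⟩ := h
  rintro (a | a) (b | b) hab
  · exact pv_adj _ h2 a b hab
  · obtain ⟨rfl, rfl⟩ := hab
    show pv W.left (rtv W.left.shape) ≠ pv W.right (rtv W.right.shape)
    rw [pv_rtv, pv_rtv]
    exact h1
  · obtain ⟨rfl, rfl⟩ := hab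
    show pv W.right (rtv W.right.shape) ≠ pv W.left (rtv W.left.shape)
    rw [pv_rtv, pv_rtv]
    exact h1.symm
  · exact pv_adj _ h3 a b hab

/-- deleting an edge of positive length -/
theorem netLen_lt {V : Type} [Fintype V] {G H : SimpleGraph V} {pos : V → Sp d}
    (hle : ∀ x y, H.Adj x y → G.Adj x y ∨ pos x = pos y) {x y : V} (hG : G.Adj x y)
    (hH : ¬ H.Adj x y) (hxy : pos x ≠ pos y) : netLen H pos < netLen G pos := by
  classical
  have h1 : ∀ a b, (if H.Adj a b then dist (pos a) (pos b) else 0) ≤
      (if G.Adj a b then dist (pos a) (pos b) else 0) := by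
    intro a b
    by_cases h : H.Adj a b
    · rw [if_pos h]
      rcases hle a b h with h' | h'
      · rw [if_pos h']
      · rw [h', dist_self]
        split_ifs <;> exact le_rfl
    · rw [if_neg h]
      split_ifs <;> positivity
  unfold netLen
  refine div_lt_div_of_pos_right ?_ zero_lt_two
  refine Finset.sum_lt_sum (fun a _ => Finset.sum_le_sum fun b _ => ?_)
    ⟨x, Finset.mem_univ x, Finset.sum_lt_sum (fun b _ => ?_) ⟨y, Finset.mem_univ y, ?_⟩⟩
  · have := h1 a b
    convert this
  · have := h1 x b
    convert this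
  · rw [if_neg hH, if_pos hG]
    exact dist_pos.2 hxy

/-- the vertices of a shortest connected network with edges of positive length are placed at
distinct points -/
theorem inj_of_min {V : Type} [Fintype V] {G : SimpleGraph V} {pos : V → Sp d}
    (hG : G.Connected) (hpos : ∀ x y, G.Adj x y → pos x ≠ pos y)
    (hmin : ∀ H : SimpleGraph V, H.Connected → netLen G pos ≤ netLen H pos) :
    Function.Injective pos := by
  classical
  intro x y hxy
  by_contra hne
  obtain ⟨p, hp⟩ := (hG.preconnected x y).exists_isPath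
  cases p with
  | nil => exact hne rfl
  | @cons _ z _ hxz p =>
    rw [SimpleGraph.Walk.cons_isPath_iff] at hp
    obtain ⟨hp, hxp⟩ := hp
    have hzy : z ≠ y := by
      intro h
      apply hpos x z hxz
      rw [h]
      exact hxy
    obtain ⟨K0, hK0⟩ : ∃ K0, K0 = G ⊔ SimpleGraph.edge x y := ⟨_, rfl⟩
    have hK0c : K0.Connected := by rw [hK0]; exact hG.mono le_sup_left
    have hK0a : ∀ a b, K0.Adj a b ↔ G.Adj a b ∨ (s(a, b) = s(x, y) ∧ a ≠ b) := by
      intro a b
      rw [hK0, SimpleGraph.sup_adj, SimpleGraph.edge_adj, Sym2.eq_iff]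
    have hKa : ∀ a b, (K0.deleteEdges {s(x, z)}).Adj a b ↔ K0.Adj a b ∧ s(a, b) ≠ s(x, z) := by
      intro a b
      rw [SimpleGraph.deleteEdges_adj]
      simp
    have hreach : (K0.deleteEdges {s(x, z)}).Reachable x z := by
      have h1 : (K0.deleteEdges {s(x, z)}).Reachable x y := by
        refine SimpleGraph.Adj.reachable ?_
        rw [hKa, hK0a]
        refine ⟨Or.inr ⟨rfl, hne⟩, ?_⟩
        intro h
        rw [Sym2.eq_iff] at h
        rcases h with h | h
        · exact hzy h.2.symm
        · exact hxz.ne h.1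
      have h2 : ∀ a b : V, ∀ q : G.Walk a b, x ∉ q.support →
          (K0.deleteEdges {s(x, z)}).Reachable a b := by
        intro a b q
        induction q with
        | nil => intro _; exact SimpleGraph.Reachable.refl _
        | @cons a b c hab q ih =>
          intro hq
          rw [SimpleGraph.Walk.support_cons, List.mem_cons, not_or] at hq
          refine SimpleGraph.Reachable.trans (SimpleGraph.Adj.reachable ?_) (ih hq.2)
          rw [hKa, hK0a]
          refine ⟨Or.inl hab, ?_⟩
          intro h
          rw [Sym2.eq_iff] at h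
          rcases h with h | h
          · exact hq.1 h.1.symm
          · apply hq.2
            rw [← h.2]
            exact SimpleGraph.Walk.start_mem_support q
      exact h1.trans (h2 z y p hxp).symm
    have hbr : ¬ K0.IsBridge s(x, z) := by
      rw [SimpleGraph.isBridge_iff]
      exact fun h => h hreach
    have hKc : (K0.deleteEdges {s(x, z)}).Connected := hK0c.connected_delete_edge_of_not_isBridge hbr
    have hlt := netLen_lt (G := G) (H := K0.deleteEdges {s(x, z)}) (pos := pos)
      (fun a b h => ?_) hxz ?_ (hpos x z hxz)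
    · exact absurd (hmin _ hKc) (not_le.2 hlt)
    · rw [hKa, hK0a] at h
      rcases h.1 with h' | ⟨h', -⟩
      · exact Or.inl h'
      · right
        rw [Sym2.eq_iff] at h'
        rcases h' with ⟨rfl, rfl⟩ | ⟨rfl, rfl⟩
        · exact hxy
        · exact hxy.symm
    · rw [hKa]
      exact fun h => h.2 rfl

/-- a shortest connected network with edges of positive length is a tree -/
theorem tree_of_min {V : Type} [Fintype V] {G : SimpleGraph V} {pos : V → Sp d}
    (hG : G.Connected) (hpos : ∀ x y, G.Adj x y → pos x ≠ pos y)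
    (hmin : ∀ H : SimpleGraph V, H.Connected → netLen G pos ≤ netLen H pos) : G.IsTree := by
  obtain ⟨T, hT, hT'⟩ := hG.exists_isTree_le
  have hGT : G ≤ T := by
    intro x y hxy
    by_contra hc
    exact absurd (hmin T hT'.connected) (not_le.2 (netLen_lt (fun a b h => Or.inl (hT h)) hxy hc
      (hpos x y hxy)))
  rw [le_antisymm hGT hT]
  exact hT'

end Pool.Agent.H64.Sm
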