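import Pool.Agent.H64.SmSwap

/-!
# Minimal trees have no crossed pairs of branches (MP_ebc12b_co, helper64)
-/

set_option autoImplicit false

namespace Pool.Agent.H64.Sm

open Pool.Agent.Helper877_Smith

open RT

/-- the larger branch at a vertex has a large weighted norm -/
theorem Vert.one_le {α β γ x y z : ℝ} (h : Vert α β γ x y z) (hle : β ≤ α) : 1 ≤ x / α ^ 2 := by
  obtain ⟨h1, h2, h3, rfl, -, -⟩ := h
  rw [le_div_iff₀ (by positivity)]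
  nlinarith [mul_pos h1 h2, mul_nonneg h3.le (sub_nonneg.2 hle)]

theorem Vert.sum_le {ξ α τ x a z : ℝ} (h : Vert ξ α τ x a z) (hle : ξ ≤ α) :
    x / ξ ^ 2 + z / τ ^ 2 ≤ 3 := by
  obtain ⟨h1, h2, h3, rfl, -, rfl⟩ := h
  have e1 : 3 - ((ξ * (2 * ξ + α + τ) - α * τ) / 2 / ξ ^ 2 +
      (τ * (2 * τ + ξ + α) - ξ * α) / 2 / τ ^ 2) =
      (τ - ξ) ^ 2 * (α * (τ + ξ) - τ * ξ) / (2 * ξ ^ 2 * τ ^ 2) := by
    field_simp
    ring
  have h4 : 0 ≤ α * (τ + ξ) - τ * ξ := by nlinarith [mul_pos h1 h2, mul_pos h2 h3]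
  have h5 : 0 ≤ (τ - ξ) ^ 2 * (α * (τ + ξ) - τ * ξ) / (2 * ξ ^ 2 * τ ^ 2) := by positivity
  linarith

/-- the key inequality, normalised -/
theorem M0_pos {s P c lam : ℝ} (hs : 0 < s) (hP : 0 < P) (c0 : 0 < c) (l0 : 0 < lam)
    (l1 : lam < 1) (hcp : c ≤ 1 + c * lam) (hb : lam ^ 2 ≤ (2 + s - P) / 2) :
    0 < 1 + s + (1 + c * lam) * (s + P) +
      ((1 + c * lam) ^ 2 - c ^ 2) / 2 * (s ^ 2 - 2 * P - P * s) := by
  obtain ⟨μ, hμ⟩ : ∃ μ, μ = 1 - lam ^ 2 := ⟨_, rfl⟩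
  have hlam : lam ^ 2 = 1 - μ := by rw [hμ]; ring
  have μ0 : 0 < μ := by rw [hμ]; nlinarith
  have μ1 : μ < 1 := by rw [hμ]; nlinarith
  obtain ⟨b, hbd⟩ : ∃ b, b = (2 + s - P) / 2 := ⟨_, rfl⟩
  obtain ⟨p, hp⟩ : ∃ p, p = 1 + c * lam := ⟨_, rfl⟩
  obtain ⟨π, hπ⟩ : ∃ π, π = p ^ 2 - c ^ 2 := ⟨_, rfl⟩
  have p0 : 0 < p := by rw [hp]; positivity
  have hPb : P = 2 + s - 2 * b := by rw [hbd]; ring
  rw [← hbd] at hb
  have e0 : 1 + s + (1 + c * lam) * (s + P) +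
      ((1 + c * lam) ^ 2 - c ^ 2) / 2 * (s ^ 2 - 2 * P - P * s) =
      (s + 1) * (1 + 2 * p - 2 * π) + b * (π * (2 + s) - 2 * p) := by
    rw [← hp, ← hπ, hPb]
    ring
  rw [e0]
  -- the value at the left end
  have f1 : 0 < (s + 1) * (1 + 2 * p - 2 * π) + lam ^ 2 * (π * (2 + s) - 2 * p) := by
    have g1 : (s + 1) * (1 + 2 * p - 2 * π) + lam ^ 2 * (π * (2 + s) - 2 * p) =
        (1 + 2 * s - μ * s) - 2 * c * lam * μ * (1 + s) + c ^ 2 * μ * (s + 2 * μ + μ * s) := by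
      rw [hπ, hp, hμ]
      ring
    rw [g1]
    have a0 : 0 < 1 + 2 * s - μ * s := by nlinarith
    have g2 : (1 + 2 * s - μ * s) * ((1 + 2 * s - μ * s) - 2 * c * lam * μ * (1 + s) +
        c ^ 2 * μ * (s + 2 * μ + μ * s)) = ((1 + 2 * s - μ * s) - c * lam * μ * (1 + s)) ^ 2 +
        c ^ 2 * μ * (s + 2 * s ^ 2 + μ + 3 * μ * s + μ ^ 2) := by
      have : (c * lam * μ * (1 + s)) ^ 2 = c ^ 2 * (1 - μ) * μ ^ 2 * (1 + s) ^ 2 := by
        rw [← hlam]; ring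
      linear_combination (-1) * this
    have g3 : 0 < ((1 + 2 * s - μ * s) - c * lam * μ * (1 + s)) ^ 2 +
        c ^ 2 * μ * (s + 2 * s ^ 2 + μ + 3 * μ * s + μ ^ 2) := by positivity
    rw [← g2] at g3
    exact (mul_pos_iff_of_pos_left a0).1 g3
  -- the value at the right end
  have f2 : 0 < (s + 1) * (1 + 2 * p - 2 * π) + (1 + s / 2) * (π * (2 + s) - 2 * p) := by
    have g1 : (s + 1) * (1 + 2 * p - 2 * π) + (1 + s / 2) * (π * (2 + s) - 2 * p) =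
        s + 1 + p * s + π * s ^ 2 / 2 := by ring
    rw [g1]
    have : 0 ≤ π := by rw [hπ, hp]; nlinarith
    positivity
  have h1 : lam ^ 2 < 1 + s / 2 := by nlinarith
  have h2 : b < 1 + s / 2 := by rw [hbd]; linarith
  have key : ((s + 1) * (1 + 2 * p - 2 * π) + b * (π * (2 + s) - 2 * p)) *
      (1 + s / 2 - lam ^ 2) =
      ((s + 1) * (1 + 2 * p - 2 * π) + lam ^ 2 * (π * (2 + s) - 2 * p)) * (1 + s / 2 - b) +
      ((s + 1) * (1 + 2 * p - 2 * π) + (1 + s / 2) * (π * (2 + s) - 2 * p)) * (b - lam ^ 2) := by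
    ring
  have h3 : 0 < ((s + 1) * (1 + 2 * p - 2 * π) + b * (π * (2 + s) - 2 * p)) *
      (1 + s / 2 - lam ^ 2) := by
    rw [key]
    have := mul_pos f1 (sub_pos.2 h2)
    have := mul_nonneg f2.le (sub_nonneg.2 hb)
    linarith
  exact (mul_pos_iff_of_pos_right (sub_pos.2 h1)).1 h3

/-- the key inequality -/
theorem Mv_pos {p c lam α ξ τ e : ℝ} (c0 : 0 < c) (l0 : 0 < lam) (l1 : lam < 1) (hcp : c ≤ p)
    (hα : 0 < α) (hξ : 0 < ξ) (hτ : 0 < τ) (h1 : 1 / τ = p - c * lam) (e0 : 0 ≤ e)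
    (hb : e + lam ^ 2 ≤ (τ * (2 * τ + ξ + α) - ξ * α) / 2 / τ ^ 2) :
    0 < (ξ + α + τ) + p * (ξ * α + α * τ + τ * ξ) +
      (p ^ 2 - c ^ 2) / 2 * (τ * (α ^ 2 + ξ ^ 2) - α * ξ * (α + ξ)) +
      e * (α + ξ + 2 * p * α * ξ) := by
  obtain ⟨α', hα'⟩ : ∃ α', α' = α / τ := ⟨_, rfl⟩
  obtain ⟨ξ', hξ'⟩ : ∃ ξ', ξ' = ξ / τ := ⟨_, rfl⟩
  obtain ⟨c', hc'⟩ : ∃ c', c' = c * τ := ⟨_, rfl⟩
  have α0 : 0 < α' := by rw [hα']; positivity
  have ξ0 : 0 < ξ' := by rw [hξ']; positivity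
  have c'0 : 0 < c' := by rw [hc']; positivity
  have a1 : α = τ * α' := by rw [hα']; field_simp
  have a2 : ξ = τ * ξ' := by rw [hξ']; field_simp
  have a3 : c = c' / τ := by rw [hc']; field_simp
  have a4 : p = (1 + c' * lam) / τ := by
    have : p = 1 / τ + c * lam := by linarith
    rw [this, hc']
    field_simp
  have hcp' : c' ≤ 1 + c' * lam := by
    rw [a3, a4] at hcp
    exact (div_le_div_iff_of_pos_right hτ).1 hcp
  have hb' : lam ^ 2 ≤ (2 + (α' + ξ') - α' * ξ') / 2 := by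
    have : (τ * (2 * τ + ξ + α) - ξ * α) / 2 / τ ^ 2 = (2 + (α' + ξ') - α' * ξ') / 2 := by
      rw [a1, a2]
      field_simp
      ring
    linarith
  have h2 := M0_pos (s := α' + ξ') (P := α' * ξ') (by positivity) (by positivity) c'0 l0 l1 hcp' hb'
  have h3 : (ξ + α + τ) + p * (ξ * α + α * τ + τ * ξ) +
      (p ^ 2 - c ^ 2) / 2 * (τ * (α ^ 2 + ξ ^ 2) - α * ξ * (α + ξ)) =
      τ * (1 + (α' + ξ') + (1 + c' * lam) * ((α' + ξ') + α' * ξ') +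
      ((1 + c' * lam) ^ 2 - c' ^ 2) / 2 *
        ((α' + ξ') ^ 2 - 2 * (α' * ξ') - (α' * ξ') * (α' + ξ'))) := by
    rw [a1, a2, a3, a4]
    field_simp
    ring
  rw [h3]
  have hp : 0 < p := c0.trans_le hcp
  positivity

/-- improving the branch at the first vertex -/
theorem vstep {P : PD} (hP : P.WF) {ξ α τ x a z g b G : ℝ} (V : Vert ξ α τ x a z) (hg : 0 < g)
    (hG : 0 < G) (h1 : 1 / τ = P.p - P.c ^ 2 / (P.q + G))
    (h3 : P.e + (P.c / (P.q + G)) ^ 2 ≤ z / τ ^ 2) (hb : 1 ≤ b) (hle : ξ ≤ α)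
    (hD : 0 ≤ Dl P (1 / ξ) (x / ξ ^ 2) g b) :
    0 ≤ Dl P (1 / α) (a / α ^ 2) g b ∧ (ξ < α → 0 < Dl P (1 / α) (a / α ^ 2) g b) := by
  have hsum := V.sum_le hle
  obtain ⟨c0, cp, cq, e0, f0, h0⟩ := hP
  obtain ⟨hξ, hα, hτ, vx, va, vz⟩ := V
  obtain ⟨p, q, c, e, f, h, m⟩ := P
  simp only at *
  have hq : 0 < q := c0.trans_le cq
  have hp : 0 < p := c0.trans_le cp
  obtain ⟨lam, hlam⟩ : ∃ lam, lam = c / (q + G) := ⟨_, rfl⟩
  have l0 : 0 < lam := by rw [hlam]; positivity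
  have l1 : lam < 1 := by rw [hlam, div_lt_one (by positivity)]; linarith
  have h1' : 1 / τ = p - c * lam := by rw [h1, hlam]; ring
  rw [← hlam] at h3
  have hM := Mv_pos c0 l0 l1 cp hα hξ hτ h1' e0 (by rw [← vz]; exact h3)
  obtain ⟨X, hX⟩ : ∃ X, X = p + 1 / ξ := ⟨_, rfl⟩
  obtain ⟨A, hA⟩ : ∃ A, A = p + 1 / α := ⟨_, rfl⟩
  obtain ⟨C, hC⟩ : ∃ C, C = q + g := ⟨_, rfl⟩
  obtain ⟨N, hN⟩ : ∃ N, N = f + b := ⟨_, rfl⟩
  have hAX : A ≤ X := by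
    rw [hA, hX]
    have := one_div_le_one_div_of_le hξ hle
    linarith
  have hcA : c < A := by rw [hA]; have : 0 < 1 / α := by positivity
                         linarith
  have hcX : c < X := hcA.trans_le hAX
  have hcC : c < C := by rw [hC]; linarith
  have hN1 : 1 ≤ N := by rw [hN]; linarith
  have hJ : (e + a / α ^ 2) * (X ^ 2 - c ^ 2) - (e + x / ξ ^ 2) * (A ^ 2 - c ^ 2) =
      (α - ξ) * ((ξ + α + τ) + p * (ξ * α + α * τ + τ * ξ) +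
      (p ^ 2 - c ^ 2) / 2 * (τ * (α ^ 2 + ξ ^ 2) - α * ξ * (α + ξ)) +
      e * (α + ξ + 2 * p * α * ξ)) / (α ^ 2 * ξ ^ 2) := by
    rw [hX, hA, vx, va]
    field_simp
    ring
  obtain ⟨M, hMd⟩ : ∃ M, M = (ξ + α + τ) + p * (ξ * α + α * τ + τ * ξ) +
      (p ^ 2 - c ^ 2) / 2 * (τ * (α ^ 2 + ξ ^ 2) - α * ξ * (α + ξ)) +
      e * (α + ξ + 2 * p * α * ξ) := ⟨_, rfl⟩
  rw [← hMd] at hJ hM
  unfold Dl at hD ⊢
  simp only at hD ⊢
  rw [← hX, ← hC, ← hN] at hD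
  rw [← hA, ← hC, ← hN]
  obtain ⟨bx, hbx⟩ : ∃ bx, bx = x / ξ ^ 2 := ⟨_, rfl⟩
  obtain ⟨ba, hba⟩ : ∃ ba, ba = a / α ^ 2 := ⟨_, rfl⟩
  rw [← hbx] at hD hJ hsum
  rw [← hba] at hJ ⊢
  have hPx : 0 < X ^ 2 - c ^ 2 := by nlinarith
  have hPa : 0 < A ^ 2 - c ^ 2 := by nlinarith
  have hK : 0 < C ^ 2 - c ^ 2 := by nlinarith
  have hid : (X ^ 2 - c ^ 2) * ((C ^ 2 - c ^ 2) * (e + ba) - (A ^ 2 - c ^ 2) * N +
      2 * c * h * (C - A)) = (A ^ 2 - c ^ 2) * ((C ^ 2 - c ^ 2) * (e + bx) - (X ^ 2 - c ^ 2) * N +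
      2 * c * h * (C - X)) + (C ^ 2 - c ^ 2) * ((e + ba) * (X ^ 2 - c ^ 2) -
      (e + bx) * (A ^ 2 - c ^ 2)) + 2 * c * h * ((X - A) * (C * (X + A) - X * A - c ^ 2)) := by
    ring
  rcases le_or_gt 0 (C * (X + A) - X * A - c ^ 2) with hc | hc
  · have t1 : 0 ≤ 2 * c * h * ((X - A) * (C * (X + A) - X * A - c ^ 2)) :=
      mul_nonneg (by positivity) (mul_nonneg (sub_nonneg.2 hAX) hc)
    have t2 := mul_nonneg hPa.le hD
    rw [hJ] at hid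
    constructor
    · have t3 : 0 ≤ (C ^ 2 - c ^ 2) * ((α - ξ) * M / (α ^ 2 * ξ ^ 2)) :=
        mul_nonneg hK.le (div_nonneg (mul_nonneg (sub_nonneg.2 hle) hM.le) (by positivity))
      have t4 : 0 ≤ (X ^ 2 - c ^ 2) * ((C ^ 2 - c ^ 2) * (e + ba) - (A ^ 2 - c ^ 2) * N +
        2 * c * h * (C - A)) := by rw [hid]; positivity
      exact nonneg_of_mul_nonneg_right t4 hPx
    · intro hlt
      have t3 : 0 < (C ^ 2 - c ^ 2) * ((α - ξ) * M / (α ^ 2 * ξ ^ 2)) :=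
        mul_pos hK (div_pos (mul_pos (sub_pos.2 hlt) hM) (by positivity))
      have t4 : 0 < (X ^ 2 - c ^ 2) * ((C ^ 2 - c ^ 2) * (e + ba) - (A ^ 2 - c ^ 2) * N +
        2 * c * h * (C - A)) := by rw [hid]; positivity
      exact (mul_pos_iff_of_pos_left hPx).1 t4
  · exfalso
    have k1 : C < X := by
      by_contra hcon
      push Not at hcon
      have : (C - X) * (C - A) ≤ (C - c) * (C - c) :=
        mul_le_mul (by linarith) (by linarith) (by linarith) (by linarith)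
      nlinarith
    have k2 : C < A := by
      by_contra hcon
      push Not at hcon
      nlinarith [mul_nonneg (sub_nonneg.2 k1.le) (sub_nonneg.2 hcon)]
    have k3 : C ^ 2 - c ^ 2 < (X - C) ^ 2 := by
      have : (X - C) * (A - C) ≤ (X - C) * (X - C) :=
        mul_le_mul_of_nonneg_left (by linarith) (by linarith)
      nlinarith
    have hzb : e ≤ z / τ ^ 2 := by nlinarith [sq_nonneg lam]
    have k4 : e + bx ≤ 3 := by linarith
    have k5 : X ^ 2 - c ^ 2 ≤ (C ^ 2 - c ^ 2) * 3 := by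
      have s1 : (C ^ 2 - c ^ 2) * (e + bx) ≤ (C ^ 2 - c ^ 2) * 3 :=
        mul_le_mul_of_nonneg_left k4 hK.le
      have s2 : (X ^ 2 - c ^ 2) * 1 ≤ (X ^ 2 - c ^ 2) * N :=
        mul_le_mul_of_nonneg_left hN1 hPx.le
      have s3 : 0 ≤ 2 * c * h * (X - C) := mul_nonneg (by positivity) (by linarith)
      linarith
    obtain ⟨d, hd⟩ : ∃ d, d = X - C := ⟨_, rfl⟩
    have d0 : 0 < d := by rw [hd]; linarith
    have hXd : X = C + d := by rw [hd]; ring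
    rw [← hd] at k3
    rw [hXd] at k5
    have C0 : 0 < C := c0.trans hcC
    have k6 : 2 * C < d := by
      by_contra hcon
      push Not at hcon
      nlinarith
    nlinarith

end Pool.Agent.H64.Sm
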