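import Pool.Agent.H64.SmExch

/-!
# Minimal trees have no crossed pairs of branches (MP_ebc12b_co, helper64)
-/

set_option autoImplicit false

namespace Pool.Agent.H64.Sm

open Pool.Agent.Helper877_Smith

open RT

theorem Dl_rev (P : PD) (gi bi gj bj : ℝ) : Dl P.rev gj bj gi bi = - Dl P gi bi gj bj := by
  unfold Dl PD.rev
  ring

theorem RL_cmbL (L : List (ℝ × RT × ℝ)) {W W' : RT} (h : RL W W') :
    RL (cmbL L W) (cmbL L W') := by
  induction L with
  | nil => exact h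
  | cons e L ih => exact RL.congr _ _ (RL.refl _) ih

/-- the step at one end, in a tree -/
theorem vstep_tree {r : ℝ} {L : List (ℝ × RT × ℝ)} {P : PD} (hP : Port r L P)
    {ax aa ay ab : ℝ} {x a y b : RT}
    (hG : GM (node ax x aa a, r, cmbL L (node ay y ab b))) (hle : x.p + ax ≤ a.p + aa)
    (hb : 1 ≤ bb ab b)
    (hD : 0 ≤ Dl P (gg ax x) (bb ax x) (gg ab b) (bb ab b)) :
    0 ≤ Dl P (gg aa a) (bb aa a) (gg ab b) (bb ab b) ∧
      (x.p + ax < a.p + aa → 0 < Dl P (gg aa a) (bb aa a) (gg ab b) (bb ab b)) := by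
  obtain ⟨hps, hee, -⟩ := hG
  have V := vert_of (PsU_nn hps) hee
  obtain ⟨p1, -, p2, p3⟩ := hps
  have hr : 0 < r := el_pos p1
  simp only at p2 p3
  obtain ⟨-, p8, p9, p10, p11⟩ := Ps_cmbL L p3
  have hay : 0 < ay := el_pos p8
  have hab : 0 < ab := el_pos p9
  have ty := Ps_tot hay p10
  have tb := Ps_tot hab p11
  have gy : 0 < gg ay y := by unfold gg; positivity
  have gb : 0 < gg ab b := by unfold gg; positivity
  obtain ⟨s1, s2⟩ := hP.sem _ (p_node_pos ty tb)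
  rw [tri_node ty tb] at s2
  simp only [tri, PD.act, Prod.mk_add_mk, Prod.mk.injEq] at s2
  obtain ⟨s3, s4, -⟩ := s2
  unfold gg at s3
  unfold bb at s4
  have by0 : 0 ≤ bb ay y := bb_nonneg
  refine vstep hP.wf V gb (G := gg ay y + gg ab b) (by positivity) s3 ?_ hb hle hD
  rw [s4]
  obtain ⟨c0, cp, cq, e0, f0, h0⟩ := hP.wf
  have q0 : 0 < P.q := c0.trans_le cq
  have t1 : 0 ≤ 2 * (P.c / (P.q + (gg ay y + gg ab b))) * P.h := by positivity
  have t2 : 1 ≤ P.f + (bb ay y + bb ab b) := by linarith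
  have t3 : (P.c / (P.q + (gg ay y + gg ab b))) ^ 2 * 1 ≤
      (P.c / (P.q + (gg ay y + gg ab b))) ^ 2 * (P.f + (bb ay y + bb ab b)) :=
    mul_le_mul_of_nonneg_left t2 (sq_nonneg _)
  unfold gg at t1 t3 ⊢
  unfold bb at t3
  linarith

theorem exch_core {r : ℝ} {L : List (ℝ × RT × ℝ)} {ax aa ay ab : ℝ} {x a y b : RT}
    (hG : GM (node ax x aa a, r, cmbL L (node ay y ab b))) (h1 : x.p + ax ≤ a.p + aa)
    (h2 : y.p + ay ≤ b.p + ab) : ¬ (x.u < b.u ∧ y.u < a.u) := by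
  rintro ⟨hxb, hya⟩
  have hps := hG.1
  obtain ⟨p1, -, p2, p3⟩ := hps
  have hr : 0 < r := el_pos p1
  simp only at p2 p3
  obtain ⟨p7, -⟩ := Ps_cmbL L p3
  have hP := exists_port L r hr p7
  obtain ⟨r', L', hr', hL', hU, hP'⟩ := reversal L r hr p7
  obtain ⟨P, hPd⟩ : ∃ P, P = ofL r L := ⟨_, rfl⟩
  rw [← hPd] at hP hP'
  have hG' := hG.of_ul (hU _ _)
  have V := vert_of (PsU_nn hG.1) hG.2.1
  have V' := vert_of (PsU_nn hG'.1) hG'.2.1
  have A1 : 1 ≤ bb aa a := by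
    have V2 : Vert (a.p + aa) (x.p + ax) ((cmbL L (node ay y ab b)).p + r) a.u x.u
        (cmbL L (node ay y ab b)).u :=
      ⟨V.hβ, V.hα, V.hγ, V.y, V.x, by rw [V.z]; ring⟩
    exact V2.one_le h1
  have B1 : 1 ≤ bb ab b := by
    have V2 : Vert (b.p + ab) (y.p + ay) ((cmbL L' (node ax x aa a)).p + r') b.u y.u
        (cmbL L' (node ax x aa a)).u :=
      ⟨V'.hβ, V'.hα, V'.hγ, V'.y, V'.x, by rw [V'.z]; ring⟩
    exact V2.one_le h2
  have D1 := swap_main hP hG hya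
  have D2 := swap_main hP' hG' hxb
  obtain ⟨E1, E2⟩ := vstep_tree hP hG h1 B1 D1
  obtain ⟨F1, F2⟩ := vstep_tree hP' hG' h2 A1 D2
  rw [Dl_rev] at F1 F2
  have e1 : x.p + ax = a.p + aa := by
    by_contra hne
    have := E2 (lt_of_le_of_ne h1 hne)
    linarith
  have e2 : y.p + ay = b.p + ab := by
    by_contra hne
    have := F2 (lt_of_le_of_ne h2 hne)
    linarith
  have f1 : x.u = a.u := by
    rw [V.x, V.y, e1]
  have f2 : y.u = b.u := by
    rw [V'.x, V'.y, e2]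
  linarith

/-- in a minimal tree there are no two vertices with crossed pairs of branches -/
theorem exch {r : ℝ} {L : List (ℝ × RT × ℝ)} {ax aa ay ab : ℝ} {x a y b : RT}
    (hG : GM (node ax x aa a, r, cmbL L (node ay y ab b))) :
    ¬ (x.u < b.u ∧ y.u < a.u) := by
  rintro ⟨hxb, hya⟩
  have mono : ∀ {α β γ x y z : ℝ}, Vert α β γ x y z → α ≤ β → x ≤ y := by
    intro α β γ x y z V h
    obtain ⟨h1, h2, h3, rfl, rfl, -⟩ := V
    nlinarith
  have key : ∀ {ax aa ay ab : ℝ} {x a y b : RT},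
      GM (node ax x aa a, r, cmbL L (node ay y ab b)) → x.p + ax ≤ a.p + aa →
      x.u < b.u → y.u < a.u → False := by
    intro ax aa ay ab x a y b hG h1 hxb hya
    rcases le_total (y.p + ay) (b.p + ab) with h2 | h2
    · exact exch_core hG h1 h2 ⟨hxb, hya⟩
    · have hps := hG.1
      obtain ⟨p1, -, p2, p3⟩ := hps
      have hr : 0 < r := el_pos p1
      simp only at p2 p3
      obtain ⟨p7, -⟩ := Ps_cmbL L p3
      obtain ⟨r', L', hr', hL', hU, hP'⟩ := reversal L r hr p7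
      have hG' := hG.of_ul (hU _ _)
      have V' := vert_of (PsU_nn hG'.1) hG'.2.1
      have V2 : Vert (b.p + ab) (y.p + ay) ((cmbL L' (node ax x aa a)).p + r') b.u y.u
          (cmbL L' (node ax x aa a)).u :=
        ⟨V'.hβ, V'.hα, V'.hγ, V'.y, V'.x, by rw [V'.z]; ring⟩
      have hle := mono V2 h2
      have hG2 := hG.of_ul (UL.congr r (RL.refl _) (RL_cmbL L (RL.swap ay y ab b)))
      exact exch_core hG2 h1 h2 ⟨by linarith, by linarith⟩
  rcases le_total (x.p + ax) (a.p + aa) with h1 | h1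
  · exact key hG h1 hxb hya
  · have V := vert_of (PsU_nn hG.1) hG.2.1
    have V2 : Vert (a.p + aa) (x.p + ax) ((cmbL L (node ay y ab b)).p + r) a.u x.u
        (cmbL L (node ay y ab b)).u :=
      ⟨V.hβ, V.hα, V.hγ, V.y, V.x, by rw [V.z]; ring⟩
    have hle := mono V2 h1
    have hG2 := hG.of_ul (UL.congr r (RL.swap ax x aa a) (RL.refl _))
    exact key hG2 h1 (by linarith) (by linarith)

end Pool.Agent.H64.Sm
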