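import Pool.Agent.H64.SmNondeg

/-!
# Every shape has a stationary tree with positive labels (MP_ebc12b_co, helper64)
-/

set_option autoImplicit false

namespace Pool.Agent.H64.Sm

open Pool.Agent.Helper877_Smith

open RT

/-- lower bound for a label -/
def lb (δ : ℝ) : Sh → ℝ
  | Sh.leaf => δ
  | Sh.node _ _ => 0

theorem lb_nonneg {δ : ℝ} (hδ : 0 < δ) (s : Sh) : 0 ≤ lb δ s := by
  cases s with
  | leaf => exact hδ.le
  | node => exact le_rfl

/-- the tree with given shape and labels -/
def mkT (δ : ℝ) : Sh → (List Bool → ℝ) → RT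
  | Sh.leaf, _ => leaf
  | Sh.node l r, f => node (lb δ l + f [false]) (mkT δ l fun w => f (false :: true :: w))
      (lb δ r + f [true]) (mkT δ r fun w => f (true :: true :: w))

theorem sh_mkT (δ : ℝ) (s : Sh) : ∀ f, (mkT δ s f).sh = s := by
  induction s with
  | leaf => intro f; rfl
  | node l r hl hr => intro f; simp only [mkT, RT.sh, hl, hr]

/-- nonnegative functions -/
def KK : Set (List Bool → ℝ) := {f | ∀ w, 0 ≤ f w}

theorem el_mkT {δ : ℝ} (s : Sh) (f : List Bool → ℝ) {x : ℝ} (hx : lb δ s ≤ x) :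
    el (fun a => δ ≤ a) (fun a => 0 ≤ a) (mkT δ s f) x := by
  cases s with
  | leaf => exact hx
  | node => exact hx

theorem Bx_mkT {δ : ℝ} (s : Sh) : ∀ f ∈ KK,
    Al (fun a => δ ≤ a) (fun a => 0 ≤ a) (mkT δ s f) := by
  induction s with
  | leaf => intro f _; trivial
  | node l r hl hr =>
    intro f hf
    exact ⟨el_mkT _ _ (by have := hf [false]; linarith), el_mkT _ _ (by have := hf [true]; linarith),
      hl _ (fun w => hf _), hr _ (fun w => hf _)⟩

theorem NN_mkT {δ : ℝ} (hδ : 0 < δ) {s : Sh} {f : List Bool → ℝ} (hf : f ∈ KK) :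
    NN (mkT δ s f) :=
  Al_mono (fun _ h => hδ.trans_le h) (fun _ h => h) (Bx_mkT s f hf)

theorem tot_mkT {δ : ℝ} (hδ : 0 < δ) {s : Sh} {f : List Bool → ℝ} (hf : f ∈ KK) {x : ℝ}
    (hx : lb δ s ≤ x) : 0 < (mkT δ s f).p + x :=
  NN_tot (NN_mkT hδ hf) (el_mono (fun _ h => hδ.trans_le h) (fun _ h => h) (el_mkT s f hx))

theorem cont_mkT {δ : ℝ} (hδ : 0 < δ) (s : Sh) :
    ContinuousOn (fun f => (mkT δ s f).p) KK ∧ ContinuousOn (fun f => (mkT δ s f).u) KK ∧
      ContinuousOn (fun f => (mkT δ s f).k) KK := by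
  induction s with
  | leaf => exact ⟨continuousOn_const, continuousOn_const, continuousOn_const⟩
  | node l r hl hr =>
    obtain ⟨l1, l2, l3⟩ := hl
    obtain ⟨r1, r2, r3⟩ := hr
    have cl : Continuous (fun f : List Bool → ℝ => fun w => f (false :: true :: w)) :=
      continuous_pi fun w => continuous_apply _
    have cr : Continuous (fun f : List Bool → ℝ => fun w => f (true :: true :: w)) :=
      continuous_pi fun w => continuous_apply _
    have ml : Set.MapsTo (fun f : List Bool → ℝ => fun w => f (false :: true :: w)) KK KK :=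
      fun f hf w => hf _
    have mr : Set.MapsTo (fun f : List Bool → ℝ => fun w => f (true :: true :: w)) KK KK :=
      fun f hf w => hf _
    have a1 := l1.comp cl.continuousOn ml
    have a2 := l2.comp cl.continuousOn ml
    have a3 := l3.comp cl.continuousOn ml
    have b1 := r1.comp cr.continuousOn mr
    have b2 := r2.comp cr.continuousOn mr
    have b3 := r3.comp cr.continuousOn mr
    have x1 : ContinuousOn (fun f : List Bool → ℝ => lb δ l + f [false]) KK :=
      (continuous_const.add (continuous_apply _)).continuousOn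
    have x2 : ContinuousOn (fun f : List Bool → ℝ => lb δ r + f [true]) KK :=
      (continuous_const.add (continuous_apply _)).continuousOn
    have t1 := a1.add x1
    have t2 := b1.add x2
    have pos : ∀ f ∈ KK, (((mkT δ l fun w => f (false :: true :: w)).p + (lb δ l + f [false])) +
        ((mkT δ r fun w => f (true :: true :: w)).p + (lb δ r + f [true]))) ≠ 0 := by
      intro f hf
      have p1 := tot_mkT hδ (s := l) (ml hf) (x := lb δ l + f [false])
        (by have := hf [false]; linarith)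
      have p2 := tot_mkT hδ (s := r) (mr hf) (x := lb δ r + f [true])
        (by have := hf [true]; linarith)
      simp only at p1 p2
      positivity
    refine ⟨?_, ?_, ?_⟩
    · simp only [mkT, RT.p]
      exact (t1.mul t2).div (t1.add t2) pos
    · simp only [mkT, RT.u]
      exact (((t2.pow 2).mul a2).add ((t1.pow 2).mul b2)).div ((t1.add t2).pow 2)
        (fun f hf => pow_ne_zero _ (pos f hf))
    · simp only [mkT, RT.k]
      exact (((a3.add b3).add x1).add x2).add ((a2.add b2).div (t1.add t2) pos)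

/-- the unrooted tree with given shape and labels -/
def mkU (δ : ℝ) (S : Sh × Sh) (f : List Bool → ℝ) : UT :=
  (mkT δ S.1 (fun w => f (false :: true :: w)), max (lb δ S.1) (lb δ S.2) + f [],
    mkT δ S.2 (fun w => f (true :: true :: w)))

theorem sh_mkU (δ : ℝ) (S : Sh × Sh) (f : List Bool → ℝ) : shU (mkU δ S f) = S := by
  simp only [shU, mkU, sh_mkT]

theorem Bx_mkU {δ : ℝ} {S : Sh × Sh} {f : List Bool → ℝ} (hf : f ∈ KK) : BxU δ (mkU δ S f) := by
  have h0 := hf []
  refine ⟨el_mkT _ _ ?_, el_mkT _ _ ?_, Bx_mkT _ _ (fun w => hf _), Bx_mkT _ _ (fun w => hf _)⟩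
  · have := le_max_left (lb δ S.1) (lb δ S.2)
    show lb δ S.1 ≤ max (lb δ S.1) (lb δ S.2) + f []
    linarith
  · have := le_max_right (lb δ S.1) (lb δ S.2)
    show lb δ S.2 ≤ max (lb δ S.1) (lb δ S.2) + f []
    linarith

theorem cont_mkU {δ : ℝ} (hδ : 0 < δ) (S : Sh × Sh) :
    ContinuousOn (fun f => F (mkU δ S f)) KK := by
  obtain ⟨l1, l2, l3⟩ := cont_mkT hδ S.1
  obtain ⟨r1, r2, r3⟩ := cont_mkT hδ S.2
  have cl : Continuous (fun f : List Bool → ℝ => fun w => f (false :: true :: w)) :=
    continuous_pi fun w => continuous_apply _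
  have cr : Continuous (fun f : List Bool → ℝ => fun w => f (true :: true :: w)) :=
    continuous_pi fun w => continuous_apply _
  have ml : Set.MapsTo (fun f : List Bool → ℝ => fun w => f (false :: true :: w)) KK KK :=
    fun f hf w => hf _
  have mr : Set.MapsTo (fun f : List Bool → ℝ => fun w => f (true :: true :: w)) KK KK :=
    fun f hf w => hf _
  have a1 := l1.comp cl.continuousOn ml
  have a2 := l2.comp cl.continuousOn ml
  have a3 := l3.comp cl.continuousOn ml
  have b1 := r1.comp cr.continuousOn mr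
  have b2 := r2.comp cr.continuousOn mr
  have b3 := r3.comp cr.continuousOn mr
  have x1 : ContinuousOn (fun f : List Bool → ℝ => max (lb δ S.1) (lb δ S.2) + f []) KK :=
    (continuous_const.add (continuous_apply _)).continuousOn
  unfold F mkU
  simp only
  refine ((a3.add b3).add x1).add ((a2.add b2).div ((a1.add x1).add b1) ?_)
  intro f hf
  have := (NNU_DU (BxU.nn hδ (Bx_mkU (δ := δ) (S := S) hf))).1
  exact this.ne'

theorem k_nonneg {A : RT} (h : NN A) : 0 ≤ A.k := by
  induction A with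
  | leaf => exact le_rfl
  | node a A b B iA iB =>
    obtain ⟨h1, h2, h3, h4⟩ := h
    have g1 := NN_tot h3 h1
    have g2 := NN_tot h4 h2
    have g3 := iA h3
    have g4 := iB h4
    have g5 := el_nn h1
    have g6 := el_nn h2
    have g7 := NN_u_pos h3
    have g8 := NN_u_pos h4
    rw [RT.k]; positivity

theorem trunc_mkT {δ : ℝ} (hδ : 0 < δ) {M : ℝ} (s : Sh) : ∀ f ∈ KK, (mkT δ s f).k ≤ M →
    mkT δ s (fun w => min (f w) M) = mkT δ s f := by
  induction s with
  | leaf => intro f _ _; rfl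
  | node l r hl hr =>
    intro f hf hk
    have ml : (fun w => f (false :: true :: w)) ∈ KK := fun w => hf _
    have mr : (fun w => f (true :: true :: w)) ∈ KK := fun w => hf _
    have n1 := NN_mkT hδ (s := l) ml
    have n2 := NN_mkT hδ (s := r) mr
    have k1 := k_nonneg n1
    have k2 := k_nonneg n2
    have u1 := NN_u_pos n1
    have u2 := NN_u_pos n2
    have p1 := tot_mkT hδ (s := l) ml (x := lb δ l + f [false]) (by have := hf [false]; linarith)
    have p2 := tot_mkT hδ (s := r) mr (x := lb δ r + f [true]) (by have := hf [true]; linarith)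
    have l1 := lb_nonneg hδ l
    have l2 := lb_nonneg hδ r
    have f1 := hf [false]
    have f2 := hf [true]
    simp only [mkT, RT.k] at hk
    have e : 0 ≤ ((mkT δ l fun w => f (false :: true :: w)).u +
        (mkT δ r fun w => f (true :: true :: w)).u) /
        ((mkT δ l fun w => f (false :: true :: w)).p + (lb δ l + f [false]) +
        ((mkT δ r fun w => f (true :: true :: w)).p + (lb δ r + f [true]))) := by positivity
    have g1 := hl _ ml (by linarith)
    have g2 := hr _ mr (by linarith)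
    simp only [mkT]
    rw [min_eq_left (show f [false] ≤ M by linarith), min_eq_left (show f [true] ≤ M by linarith),
      g1, g2]

theorem trunc_mkU {δ : ℝ} (hδ : 0 < δ) {M : ℝ} {S : Sh × Sh} {f : List Bool → ℝ} (hf : f ∈ KK)
    (hF : F (mkU δ S f) ≤ M) : mkU δ S (fun w => min (f w) M) = mkU δ S f := by
  have ml : (fun w => f (false :: true :: w)) ∈ KK := fun w => hf _
  have mr : (fun w => f (true :: true :: w)) ∈ KK := fun w => hf _
  have hN := BxU.nn hδ (Bx_mkU (δ := δ) (S := S) hf)
  have hD := (NNU_DU hN).1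
  have k1 := k_nonneg hN.2.2.1
  have k2 := k_nonneg hN.2.2.2
  have u1 := NN_u_pos hN.2.2.1
  have u2 := NN_u_pos hN.2.2.2
  have l1 : 0 ≤ max (lb δ S.1) (lb δ S.2) := (lb_nonneg hδ _).trans (le_max_left _ _)
  have f1 := hf []
  unfold F at hF
  have e : 0 ≤ ((mkU δ S f).1.u + (mkU δ S f).2.2.u) /
    ((mkU δ S f).1.p + (mkU δ S f).2.1 + (mkU δ S f).2.2.p) := by positivity
  have hr : (mkU δ S f).2.1 = max (lb δ S.1) (lb δ S.2) + f [] := rfl
  have g1 := trunc_mkT hδ (M := M) S.1 _ ml (by
    have : (mkT δ S.1 fun w => f (false :: true :: w)).k = (mkU δ S f).1.k := rfl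
    rw [this]; linarith)
  have g2 := trunc_mkT hδ (M := M) S.2 _ mr (by
    have : (mkT δ S.2 fun w => f (true :: true :: w)).k = (mkU δ S f).2.2.k := rfl
    rw [this]; linarith)
  unfold mkU
  simp only
  rw [min_eq_left (show f [] ≤ M by linarith), g1, g2]

theorem exists_lab {δ : ℝ} (X : RT) : Al (fun a => δ ≤ a) (fun a => 0 ≤ a) X →
    ∃ f ∈ KK, mkT δ X.sh f = X := by
  have hlb : ∀ (A : RT) (a : ℝ), el (fun a => δ ≤ a) (fun a => 0 ≤ a) A a → lb δ A.sh ≤ a := by
    intro A a h
    cases A with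
    | leaf => exact h
    | node => exact h
  induction X with
  | leaf => intro _; exact ⟨fun _ => 0, fun _ => le_rfl, rfl⟩
  | node a A b B iA iB =>
    rintro ⟨h1, h2, h3, h4⟩
    obtain ⟨f, hf, ef⟩ := iA h3
    obtain ⟨g, hg, eg⟩ := iB h4
    have l1 := hlb A a h1
    have l2 := hlb B b h2
    refine ⟨fun w => match w with
      | [false] => a - lb δ A.sh
      | [true] => b - lb δ B.sh
      | false :: true :: w => f w
      | true :: true :: w => g w
      | _ => 0, ?_, ?_⟩
    · intro w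
      show 0 ≤ (match w with
      | [false] => a - lb δ A.sh
      | [true] => b - lb δ B.sh
      | false :: true :: w => f w
      | true :: true :: w => g w
      | _ => 0)
      split
      · linarith
      · linarith
      · exact hf _
      · exact hg _
      · exact le_rfl
    · simp only [RT.sh, mkT, RT.node.injEq]
      exact ⟨by ring, ef, by ring, eg⟩

theorem exists_labU {δ : ℝ} {T : UT} (h : BxU δ T) : ∃ f ∈ KK, mkU δ (shU T) f = T := by
  have hlb : ∀ (A : RT) (a : ℝ), el (fun a => δ ≤ a) (fun a => 0 ≤ a) A a → lb δ A.sh ≤ a := by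
    intro A a h
    cases A with
    | leaf => exact h
    | node => exact h
  obtain ⟨A, r, B⟩ := T
  obtain ⟨h1, h2, h3, h4⟩ := h
  obtain ⟨f, hf, ef⟩ := exists_lab A h3
  obtain ⟨g, hg, eg⟩ := exists_lab B h4
  have l1 : max (lb δ A.sh) (lb δ B.sh) ≤ r := max_le (hlb A r h1) (hlb B r h2)
  refine ⟨fun w => match w with
    | [] => r - max (lb δ A.sh) (lb δ B.sh)
    | false :: true :: w => f w
    | true :: true :: w => g w
    | _ => 0, ?_, ?_⟩
  · intro w
    show 0 ≤ (match w with
    | [] => r - max (lb δ A.sh) (lb δ B.sh)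
    | false :: true :: w => f w
    | true :: true :: w => g w
    | _ => 0)
    split
    · linarith
    · exact hf _
    · exact hg _
    · exact le_rfl
  · simp only [shU, mkU, Prod.mk.injEq]
    exact ⟨ef, by ring, eg⟩

/-- a minimal tree in the box -/
theorem exists_min {δ : ℝ} (hδ : 0 < δ) (S : Sh × Sh) :
    ∃ T : UT, shU T = S ∧ BxU δ T ∧ ∀ T', BxU δ T' → shU T' = S → F T ≤ F T' := by
  obtain ⟨M, hM⟩ : ∃ M, M = F (mkU δ S fun _ => 0) := ⟨_, rfl⟩
  have h0 : (fun _ => 0 : List Bool → ℝ) ∈ KK := fun _ => le_rfl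
  have hM0 : 0 ≤ M := by
    have hN := BxU.nn hδ (Bx_mkU (δ := δ) (S := S) h0)
    have hD := (NNU_DU hN).1
    have k1 := k_nonneg hN.2.2.1
    have k2 := k_nonneg hN.2.2.2
    have u1 := NN_u_pos hN.2.2.1
    have u2 := NN_u_pos hN.2.2.2
    have r1 := el_nn hN.1
    rw [hM]
    unfold F
    positivity
  have hc : IsCompact (Set.univ.pi fun _ : List Bool => Set.Icc (0 : ℝ) M) :=
    isCompact_univ_pi fun _ => isCompact_Icc
  have hsub : (Set.univ.pi fun _ : List Bool => Set.Icc (0 : ℝ) M) ⊆ KK :=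
    fun f hf w => (hf w (Set.mem_univ _)).1
  obtain ⟨f, hf, hmin⟩ := hc.exists_isMinOn
    ⟨fun _ => 0, fun w _ => ⟨le_rfl, hM0⟩⟩ ((cont_mkU hδ S).mono hsub)
  refine ⟨mkU δ S f, sh_mkU _ _ _, Bx_mkU (hsub hf), fun T' hT' hs => ?_⟩
  obtain ⟨g, hg, eg⟩ := exists_labU hT'
  rw [hs] at eg
  rw [← eg]
  rcases le_total (F (mkU δ S g)) M with h | h
  · rw [← trunc_mkU hδ hg h]
    exact hmin (fun w _ => ⟨le_min (hg w) hM0, min_le_right _ _⟩)
  · refine le_trans ?_ h
    rw [hM]
    exact hmin (fun w _ => ⟨le_rfl, hM0⟩)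

theorem am_strict {l U : ℝ} (hl : 0 < l) (hU : 0 < U) (h : U ≠ l ^ 2) :
    Real.sqrt U + U / Real.sqrt U < l + U / l := by
  have hs : 0 < Real.sqrt U := Real.sqrt_pos.2 hU
  have hs2 : Real.sqrt U ^ 2 = U := Real.sq_sqrt hU.le
  obtain ⟨s, hs'⟩ : ∃ s, s = Real.sqrt U := ⟨_, rfl⟩
  rw [← hs'] at hs hs2 ⊢
  rw [← hs2] at h ⊢
  have hne : s ≠ l := fun h' => h (by rw [h'])
  have h1 : l + s ^ 2 / l - (s + s ^ 2 / s) = (l - s) ^ 2 / l := by
    field_simp
    ring
  have h2 : 0 < (l - s) ^ 2 / l := by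
    have : l - s ≠ 0 := sub_ne_zero.2 (Ne.symm hne)
    positivity
  linarith

theorem am_mono {l t U : ℝ} (ht : 0 < t) (htl : t < l) (hU : U ≤ t ^ 2) :
    t + U / t < l + U / l := by
  have hl : 0 < l := ht.trans htl
  have h1 : l + U / l - (t + U / t) = (l - t) * (l * t - U) / (l * t) := by
    field_simp
    ring
  have h2 : 0 < (l - t) * (l * t - U) / (l * t) := by
    have h3 : 0 < l - t := by linarith
    have h4 : 0 < l * t - U := by nlinarith
    positivity
  linarith

/-- every shape with at least three leaves has a stationary tree with positive labels -/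
theorem exists_stat (S : Sh × Sh) (hs : 3 ≤ S.1.size + S.2.size) :
    ∃ T : UT, shU T = S ∧ PsU T ∧ EE T := by
  have hδ : (0 : ℝ) < 1 / 8 := by norm_num
  obtain ⟨T, h1, h2, h3⟩ := exists_min hδ S
  have hCC : CC (1 / 8) T := by
    refine ⟨h2, ?_⟩
    rintro ⟨A, r, B⟩ hT
    have hbx : BxU (1 / 8) (A, r, B) := (hT.al (fun _ h => hδ.le.trans h)).1 h2
    have hnn := BxU.nn hδ hbx
    have hmin : ∀ r', el (fun a => (1 / 8 : ℝ) ≤ a) (fun a => 0 ≤ a) A r' →
        el (fun a => (1 / 8 : ℝ) ≤ a) (fun a => 0 ≤ a) B r' → F (A, r, B) ≤ F (A, r', B) := by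
      intro r' e1 e2
      have hb' : BxU (1 / 8) (A, r', B) := ⟨e1, e2, hbx.2.2.1, hbx.2.2.2⟩
      have hiso : UIso (shU (A, r', B)) S := by
        rw [← h1]
        exact hT.sh.symm
      obtain ⟨W, w1, w2⟩ := (lift_uiso hiso).1 _ rfl
      have h5 := h3 W ((w1.al (fun _ h => hδ.le.trans h)).1 hb') w2
      rw [← w1.F_eq (BxU.nn hδ hb'), hT.F_eq (BxU.nn hδ h2)] at h5
      exact h5
    have hl := (NNU_DU hnn).1
    have uA := NN_u_pos hnn.2.2.1
    have uB := NN_u_pos hnn.2.2.2
    simp only at hl uA uB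
    unfold F at hmin
    simp only at hmin
    obtain ⟨U, hU⟩ : ∃ U, U = A.u + B.u := ⟨_, rfl⟩
    have hU0 : 0 < U := by rw [hU]; positivity
    have hsq : Real.sqrt U ^ 2 = U := Real.sq_sqrt hU0.le
    have hs0 : 0 < Real.sqrt U := Real.sqrt_pos.2 hU0
    refine ⟨?_, fun g1 g2 => ?_⟩
    · show A.u + B.u ≤ (A.p + r + B.p) ^ 2
      rw [← hU] at hmin ⊢
      by_contra hc
      push Not at hc
      have hlt : A.p + r + B.p < Real.sqrt U := Real.lt_sqrt_of_sq_lt hc
      have hup : ∀ (C : RT) (x y : ℝ), x ≤ y →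
          el (fun a => (1 / 8 : ℝ) ≤ a) (fun a => 0 ≤ a) C x →
          el (fun a => (1 / 8 : ℝ) ≤ a) (fun a => 0 ≤ a) C y := by
        intro C x y hxy hx
        cases C with
        | leaf => exact le_trans hx hxy
        | node => exact le_trans hx hxy
      have hr : r ≤ Real.sqrt U - A.p - B.p := by linarith
      have h6 := hmin (Real.sqrt U - A.p - B.p) (hup _ _ _ hr hbx.1) (hup _ _ _ hr hbx.2.1)
      rw [show A.p + (Real.sqrt U - A.p - B.p) + B.p = Real.sqrt U by ring] at h6
      have h7 := am_strict hl hU0 (ne_of_gt hc)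
      linarith
    · show A.u + B.u = (A.p + r + B.p) ^ 2
      rw [← hU] at hmin ⊢
      have hlow : ∃ m < r, 0 < A.p + m + B.p ∧
          ∀ x, m ≤ x → el (fun a => (1 / 8 : ℝ) ≤ a) (fun a => 0 ≤ a) A x ∧
            el (fun a => (1 / 8 : ℝ) ≤ a) (fun a => 0 ≤ a) B x := by
        have pA := (NN_p_nonneg hnn.2.2.1).1
        have pB := (NN_p_nonneg hnn.2.2.2).1
        simp only at pA pB
        cases A with
        | leaf =>
          cases B with
          | leaf => exact ⟨1 / 8, g1, by linarith, fun x hx => ⟨hx, hx⟩⟩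
          | node b B c C => exact ⟨1 / 8, g1, by linarith, fun x hx => ⟨hx, hδ.le.trans hx⟩⟩
        | node a A a' A' =>
          cases B with
          | leaf => exact ⟨1 / 8, g2, by linarith, fun x hx => ⟨hδ.le.trans hx, hx⟩⟩
          | node b B c C =>
            have := NN_p_pos hnn.2.2.1
            exact ⟨0, g1, by linarith, fun x hx => ⟨hx, hx⟩⟩
      obtain ⟨m, m1, m2, m3⟩ := hlow
      have hle : U ≤ (A.p + r + B.p) ^ 2 := by
        by_contra hc
        push Not at hc
        have hlt : A.p + r + B.p < Real.sqrt U := Real.lt_sqrt_of_sq_lt hc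
        have h5 := m3 (Real.sqrt U - A.p - B.p) (by linarith)
        have h6 := hmin (Real.sqrt U - A.p - B.p) h5.1 h5.2
        rw [show A.p + (Real.sqrt U - A.p - B.p) + B.p = Real.sqrt U by ring] at h6
        have h7 := am_strict hl hU0 (ne_of_gt hc)
        linarith
      by_contra hne
      have hlt : U < (A.p + r + B.p) ^ 2 := lt_of_le_of_ne hle hne
      have hlt' : Real.sqrt U < A.p + r + B.p := (Real.sqrt_lt' hl).2 hlt
      obtain ⟨t, ht⟩ : ∃ t, t = max (Real.sqrt U) (A.p + m + B.p) := ⟨_, rfl⟩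
      have t1 : Real.sqrt U ≤ t := ht ▸ le_max_left _ _
      have t2 : A.p + m + B.p ≤ t := ht ▸ le_max_right _ _
      have t3 : t < A.p + r + B.p := by rw [ht]; exact max_lt hlt' (by linarith)
      have h5 := m3 (t - A.p - B.p) (by linarith)
      have h6 := hmin (t - A.p - B.p) h5.1 h5.2
      rw [show A.p + (t - A.p - B.p) + B.p = t by ring] at h6
      have h7 := am_mono (U := U) (hs0.trans_le t1) t3 (by nlinarith)
      linarith
  obtain ⟨g1, g2⟩ := CC_main hδ (by norm_num) hCC (by rw [h1]; exact hs)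
  exact ⟨T, h1, g1, g2⟩

end Pool.Agent.H64.Sm
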