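import Pool.Agent.H64.SmExist

/-!
# Trees which are minimal among all trees with the same number of leaves (MP_ebc12b_co, helper64)
-/

set_option autoImplicit false

namespace Pool.Agent.H64.Sm

open Pool.Agent.Helper877_Smith

open RT

/-- the number of leaves -/
def szU (T : UT) : ℕ := (shU T).1.size + (shU T).2.size

theorem UL.sz {S T : UT} (h : UL S T) : szU S = szU T := h.sh.size

/-- stationary trees with positive labels which are minimal among all trees with the same number
of leaves -/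
def GM (T : UT) : Prop := PsU T ∧ EE T ∧ ∀ T' : UT, DU T' → szU T' = szU T → F T ≤ F T'

theorem GM.of_ul {S T : UT} (h : GM S) (hT : UL S T) : GM T := by
  obtain ⟨h1, h2, h3⟩ := h
  refine ⟨PsU_of_ul h1 hT, h2.of_ul hT, fun T' hD hs => ?_⟩
  rw [← hT.F_eq (PsU_nn h1)]
  exact h3 T' hD (hs.trans hT.sz.symm)

theorem exists_GM (n : ℕ) (hn : 3 ≤ n) : ∃ T : UT, GM T ∧ szU T = n := by
  have key : ∀ S : Sh × Sh, ∃ T : UT, S.1.size + S.2.size = n → shU T = S ∧ PsU T ∧ EE T := by
    intro S
    by_cases hS : S.1.size + S.2.size = n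
    · obtain ⟨T, h1, h2, h3⟩ := exists_stat S (by omega)
      exact ⟨T, fun _ => ⟨h1, h2, h3⟩⟩
    · exact ⟨(leaf, 0, leaf), fun h => absurd h hS⟩
  choose f hf using key
  have hne : ({S : Sh × Sh | S.1.size + S.2.size = n}).Nonempty := by
    have : ∀ m : ℕ, 1 ≤ m → ∃ s : Sh, s.size = m := by
      intro m hm
      induction m, hm using Nat.le_induction with
      | base => exact ⟨Sh.leaf, rfl⟩
      | succ m _ ih =>
        obtain ⟨s, hs⟩ := ih
        exact ⟨Sh.node s Sh.leaf, by simp only [Sh.size, hs]⟩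
    obtain ⟨s, hs⟩ := this (n - 1) (by omega)
    exact ⟨(s, Sh.leaf), by simp only [Set.mem_ofPred_eq, Sh.size, hs]; omega⟩
  obtain ⟨S, hS, hmin⟩ := Set.exists_min_image _ (fun S => F (f S)) (finite_size n) hne
  obtain ⟨h1, h2, h3⟩ := hf S hS
  have hsz : szU (f S) = n := by
    unfold szU
    rw [h1]
    exact hS
  refine ⟨f S, ⟨h2, h3, fun T' hD hs => ?_⟩, hsz⟩
  rw [hsz] at hs
  obtain ⟨g1, g2, g3⟩ := hf (shU T') hs
  exact (hmin (shU T') hs).trans (dual_main (PsU_nn g2) g3 g1.symm hD)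

end Pool.Agent.H64.Sm
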