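import Pool.Agent.H64.SmClaim

/-!
# Labelled trees and full Steiner trees (MP_ebc12b_co, helper64)
-/

set_option autoImplicit false

namespace Pool.Agent.H64.Sm

open Pool.Agent.Helper877_Smith

open RT

variable {d : ℕ}

/-- the vector is supported in `S` -/
def Sup (S : Multiset (Fin d)) (c : Sp d) : Prop := ∀ i, i ∉ S → c i = 0

theorem inner_sup {S T : Multiset (Fin d)} (h : Disjoint S T) {c c' : Sp d} (hc : Sup S c)
    (hc' : Sup T c') : inner ℝ c c' = 0 := by
  rw [PiLp.inner_apply]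
  refine Finset.sum_eq_zero fun i _ => ?_
  by_cases hi : i ∈ S
  · rw [hc' i (Multiset.disjoint_left.1 h hi)]
    simp
  · rw [hc i hi]
    simp

theorem norm_sub_sup {S T : Multiset (Fin d)} (h : Disjoint S T) {c c' : Sp d} (hc : Sup S c)
    (hc' : Sup T c') : ‖c - c'‖ ^ 2 = ‖c‖ ^ 2 + ‖c'‖ ^ 2 := by
  rw [norm_sub_sq_real, inner_sup h hc hc']
  ring

/-- the effective terminal of a vertex -/
noncomputable def eff (α β : ℝ) (c c' : Sp d) : Sp d := (1 / (α + β)) • (β • c + α • c')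

theorem Sup.eff {S T : Multiset (Fin d)} {c c' : Sp d} (hc : Sup S c) (hc' : Sup T c')
    (α β : ℝ) : Sup (S + T) (eff α β c c') := by
  intro i hi
  rw [Multiset.mem_add, not_or] at hi
  unfold Sm.eff
  rw [PiLp.smul_apply, PiLp.add_apply, PiLp.smul_apply, PiLp.smul_apply, hc i hi.1, hc' i hi.2]
  simp

theorem norm_eff {S T : Multiset (Fin d)} (h : Disjoint S T) {c c' : Sp d} (hc : Sup S c)
    (hc' : Sup T c') (α β : ℝ) :
    ‖eff α β c c'‖ ^ 2 = (β ^ 2 * ‖c‖ ^ 2 + α ^ 2 * ‖c'‖ ^ 2) / (α + β) ^ 2 := by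
  unfold eff
  rw [norm_smul, mul_pow, norm_add_sq_real, real_inner_smul_left, real_inner_smul_right,
    inner_sup h hc hc', norm_smul, norm_smul, mul_pow, mul_pow, Real.norm_eq_abs, Real.norm_eq_abs,
    Real.norm_eq_abs, sq_abs, sq_abs, sq_abs, div_pow, one_pow]
  ring

/-- the parallel axis identity -/
theorem par_axis {α β : ℝ} (hα : 0 < α) (hβ : 0 < β) (x c c' : Sp d) :
    ‖x - c‖ ^ 2 / α + ‖x - c'‖ ^ 2 / β =
      ‖c - c'‖ ^ 2 / (α + β) + ‖x - eff α β c c'‖ ^ 2 / (α * β / (α + β)) := by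
  have e1 : x - eff α β c c' = (β / (α + β)) • (x - c) + (α / (α + β)) • (x - c') := by
    unfold eff
    have h1 : x = (β / (α + β) + α / (α + β)) • x := by
      have : β / (α + β) + α / (α + β) = 1 := by field_simp; ring
      rw [this, one_smul]
    nth_rewrite 1 [h1]
    rw [show β / (α + β) = 1 / (α + β) * β by ring, show α / (α + β) = 1 / (α + β) * α by ring]
    module
  have e2 : c - c' = (x - c') - (x - c) := by abel
  rw [e1, e2]
  obtain ⟨X, hX⟩ : ∃ X, X = x - c := ⟨_, rfl⟩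
  obtain ⟨Y, hY⟩ : ∃ Y, Y = x - c' := ⟨_, rfl⟩
  rw [← hX, ← hY, norm_sub_sq_real, norm_add_sq_real, real_inner_smul_left, real_inner_smul_right,
    norm_smul, norm_smul, mul_pow, mul_pow, Real.norm_eq_abs, Real.norm_eq_abs, sq_abs, sq_abs,
    real_inner_comm]
  field_simp
  ring

/-- the length of an edge in terms of its label -/
theorem am_edge {a x : ℝ} (ha : 0 < a) : 2 * x ≤ a + x ^ 2 / a ∧ (2 * x = a + x ^ 2 / a → x = a) := by
  have h : a + x ^ 2 / a - 2 * x = (a - x) ^ 2 / a := by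
    field_simp
    ring
  have h2 : 0 ≤ (a - x) ^ 2 / a := by positivity
  refine ⟨by linarith, fun he => ?_⟩
  have h3 : (a - x) ^ 2 / a = 0 := by linarith
  rw [div_eq_zero_iff] at h3
  rcases h3 with h3 | h3
  · have := pow_eq_zero_iff (two_ne_zero) |>.1 h3
    linarith
  · exact absurd h3 ha.ne'

/-- position of the root of a branch -/
theorem pos_split {p a : ℝ} (hp : 0 ≤ p) (ha : 0 < a) (x c : Sp d) :
    ∃ y : Sp d, (p = 0 → y = c) ∧
      ‖y - c‖ ^ 2 / p + dist x y ^ 2 / a = ‖x - c‖ ^ 2 / (p + a) := by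
  refine ⟨c + (p / (p + a)) • (x - c), fun h => by rw [h]; simp, ?_⟩
  have e1 : c + (p / (p + a)) • (x - c) - c = (p / (p + a)) • (x - c) := by abel
  have hpa : 0 < p + a := by linarith
  have e2 : x - (c + (p / (p + a)) • (x - c)) = (a / (p + a)) • (x - c) := by
    have h1 : x - (c + (p / (p + a)) • (x - c)) = (1 - p / (p + a)) • (x - c) := by module
    rw [h1]
    congr 1
    field_simp
    ring
  rw [dist_eq_norm, e1, e2, norm_smul, norm_smul, mul_pow, mul_pow, Real.norm_eq_abs,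
    Real.norm_eq_abs, sq_abs, sq_abs]
  rcases hp.eq_or_lt with h0 | h0
  · rw [← h0]
    simp
    field_simp
  · field_simp

/-- from a labelled tree to a branch -/
theorem to_branch (A : RT) : NN A → Ps A → ∀ S : Finset (Fin d), S.card = A.sh.size →
    ∃ c : Sp d, ‖c‖ ^ 2 = A.u ∧ Sup S.val c ∧ ∀ x : Sp d, (A.p = 0 → x = c) →
      ∃ b : Br d, b.pos = x ∧ b.shape = A.sh ∧ b.terms = S.val ∧
        2 * b.len ≤ A.k + ‖x - c‖ ^ 2 / A.p ∧
        (2 * b.len = A.k + ‖x - c‖ ^ 2 / A.p → b.ndg) := by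
  induction A with
  | leaf =>
    intro _ _ S hS
    obtain ⟨i, rfl⟩ := Finset.card_eq_one.1 hS
    refine ⟨tm i, ?_, ?_, ?_⟩
    · have := (tm_orthonormal (d := d)).1 i
      rw [this]
      simp [RT.u]
    · intro j hj
      have hj' : j ≠ i := by
        intro h
        apply hj
        rw [h]
        simp
      unfold tm
      simp [hj']
    · intro x hx
      refine ⟨Br.term i, (hx rfl).symm, rfl, rfl, ?_, fun _ => trivial⟩
      simp [Br.len, RT.k, RT.p]
  | node a A b B iA iB =>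
    rintro hN ⟨h1, h2, h3, h4⟩ S hS
    have ha : 0 < a := el_pos h1
    have hb : 0 < b := el_pos h2
    have hA := Ps_tot ha h3
    have hB := Ps_tot hb h4
    have pA := (NN_p_nonneg (Ps_nn h3)).1
    have pB := (NN_p_nonneg (Ps_nn h4)).1
    obtain ⟨S1, hS1, hS1c⟩ := Finset.exists_subset_card_eq
      (show A.sh.size ≤ S.card by rw [hS]; simp only [RT.sh, Sh.size]; omega)
    have hS2c : (S \ S1).card = B.sh.size := by
      rw [Finset.card_sdiff_of_subset hS1, hS, hS1c]
      simp only [RT.sh, Sh.size]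
      omega
    have hdis : Disjoint S1 (S \ S1) := Finset.disjoint_sdiff
    have hval : S1.val + (S \ S1).val = S.val := by
      have hu : S1.disjUnion (S \ S1) hdis = S := by
        rw [Finset.disjUnion_eq_union, Finset.union_sdiff_of_subset hS1]
      conv_rhs => rw [← hu]
      rfl
    have hdis' : Disjoint S1.val (S \ S1).val := Finset.disjoint_val.2 hdis
    obtain ⟨c1, n1, s1, g1⟩ := iA (Ps_nn h3) h3 S1 hS1c
    obtain ⟨c2, n2, s2, g2⟩ := iB (Ps_nn h4) h4 (S \ S1) hS2c
    refine ⟨eff (A.p + a) (B.p + b) c1 c2, ?_, ?_, ?_⟩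
    · rw [norm_eff hdis' s1 s2, n1, n2, RT.u]
    · rw [← hval]
      exact s1.eff s2 _ _
    · intro x _
      obtain ⟨y1, y1a, y1b⟩ := pos_split pA ha x c1
      obtain ⟨y2, y2a, y2b⟩ := pos_split pB hb x c2
      obtain ⟨b1, k1, k2, k3, k4, k5⟩ := g1 y1 y1a
      obtain ⟨b2, l1, l2, l3, l4, l5⟩ := g2 y2 y2a
      have hpar := par_axis hA hB x c1 c2
      rw [norm_sub_sup hdis' s1 s2, n1, n2, ← y1b, ← y2b] at hpar
      have hx1 := am_edge (x := dist x y1) ha
      have hx2 := am_edge (x := dist x y2) hb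
      refine ⟨Br.pt x b1 b2, rfl, ?_, ?_, ?_, fun he => ?_⟩
      · show Sh.node b1.shape b2.shape = _
        rw [k2, l2]
        rfl
      · show b1.terms + b2.terms = _
        rw [k3, l3, hval]
      · show 2 * (dist x b1.pos + dist x b2.pos + b1.len + b2.len) ≤ _
        rw [RT.k, RT.p, k1, l1]
        linarith [hx1.1, hx2.1]
      · change 2 * (dist x b1.pos + dist x b2.pos + b1.len + b2.len) = _ at he
        rw [RT.k, RT.p, k1, l1] at he
        have q1 : 2 * dist x y1 = a + dist x y1 ^ 2 / a := by linarith [hx1.1, hx2.1]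
        have q2 : 2 * dist x y2 = b + dist x y2 ^ 2 / b := by linarith [hx1.1, hx2.1]
        have q3 := hx1.2 q1
        have q4 := hx2.2 q2
        refine ⟨?_, ?_, k5 (by linarith [hx1.1, hx2.1]), l5 (by linarith [hx1.1, hx2.1])⟩
        · rw [k1]
          exact dist_pos.1 (by rw [q3]; exact ha)
        · rw [l1]
          exact dist_pos.1 (by rw [q4]; exact hb)

/-- from a labelled tree to a full Steiner tree -/
theorem to_FST {T : UT} (hT : PsU T) (hd : szU T = d) :
    ∃ W : FST d, W.top = shU T ∧ 2 * W.length ≤ F T ∧ (2 * W.length = F T → W.ndg) := by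
  obtain ⟨A, r, B⟩ := T
  obtain ⟨h1, h2, h3, h4⟩ := hT
  simp only at h3 h4
  have hr : 0 < r := el_pos h1
  have pA := (NN_p_nonneg (Ps_nn h3)).1
  have pB := (NN_p_nonneg (Ps_nn h4)).1
  have hsz : A.sh.size + B.sh.size = d := hd
  obtain ⟨S1, -, hS1c⟩ := Finset.exists_subset_card_eq
    (show A.sh.size ≤ (Finset.univ : Finset (Fin d)).card by
      rw [Finset.card_univ, Fintype.card_fin]; omega)
  have hS1 : S1 ⊆ Finset.univ := Finset.subset_univ _
  have hS2c : (Finset.univ \ S1).card = B.sh.size := by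
    rw [Finset.card_sdiff_of_subset hS1, Finset.card_univ, Fintype.card_fin, hS1c]
    omega
  have hdis : Disjoint S1 (Finset.univ \ S1) := Finset.disjoint_sdiff
  have hval : S1.val + (Finset.univ \ S1).val = Finset.univ.val := by
    have hu : S1.disjUnion (Finset.univ \ S1) hdis = Finset.univ := by
      rw [Finset.disjUnion_eq_union, Finset.union_sdiff_of_subset hS1]
    conv_rhs => rw [← hu]
    rfl
  have hdis' : Disjoint S1.val (Finset.univ \ S1).val := Finset.disjoint_val.2 hdis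
  obtain ⟨c1, n1, s1, g1⟩ := to_branch A (Ps_nn h3) h3 S1 hS1c
  obtain ⟨c2, n2, s2, g2⟩ := to_branch B (Ps_nn h4) h4 (Finset.univ \ S1) hS2c
  -- first the position in `A`, as seen from `c2` at resistance `r + B.p`
  obtain ⟨y1, y1a, y1b⟩ := pos_split (a := r + B.p) pA (by positivity) c2 c1
  -- then the position in `B`, as seen from `y1`
  obtain ⟨y2, y2a, y2b⟩ := pos_split pB hr y1 c2
  obtain ⟨b1, k1, k2, k3, k4, k5⟩ := g1 y1 y1a
  obtain ⟨b2, l1, l2, l3, l4, l5⟩ := g2 y2 y2a
  refine ⟨⟨b1, b2, by rw [k3, l3, hval]⟩, ?_, ?_⟩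
  · show (b1.shape, b2.shape) = (A.sh, B.sh)
    rw [k2, l2]
  · have e1 : ‖c2 - c1‖ ^ 2 = A.u + B.u := by
      rw [norm_sub_rev, norm_sub_sup hdis' s1 s2, n1, n2]
    have e2 : dist c2 y1 ^ 2 / (r + B.p) = ‖y1 - c2‖ ^ 2 / (B.p + r) := by
      rw [dist_eq_norm, norm_sub_rev, add_comm r]
    rw [e1, e2, ← y2b] at y1b
    have hx := am_edge (x := dist y1 y2) hr
    have hF : F (A, r, B) = A.k + B.k + r + (A.u + B.u) / (A.p + (r + B.p)) := by
      unfold F
      simp only
      rw [add_assoc A.p]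
    have hlen : ∀ h, (⟨b1, b2, h⟩ : FST d).length = dist y1 y2 + b1.len + b2.len := by
      intro h
      show dist b1.pos b2.pos + b1.len + b2.len = _
      rw [k1, l1]
    rw [hF, ← y1b]
    refine ⟨?_, fun he => ?_⟩
    · rw [hlen]
      linarith [hx.1]
    · rw [hlen] at he
      have q1 : 2 * dist y1 y2 = r + dist y1 y2 ^ 2 / r := by linarith [hx.1]
      refine ⟨?_, k5 (by linarith [hx.1]), l5 (by linarith [hx.1])⟩
      show b1.pos ≠ b2.pos
      rw [k1, l1]
      exact dist_pos.1 (by rw [hx.2 q1]; exact hr)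

end Pool.Agent.H64.Sm
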