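import Pool.Agent.H64.SmGeo

/-!
# Every full Steiner tree is at least as long as the stationary tree of its shape
(MP_ebc12b_co, helper64)
-/

set_option autoImplicit false

namespace Pool.Agent.H64.Sm

open Pool.Agent.Helper877_Smith

open RT

variable {d : ℕ}

/-- a branch as a labelled tree, the labels are the lengths of the edges -/
noncomputable def lbB : Br d → RT
  | Br.term _ => leaf
  | Br.pt x l r => node (dist x l.pos) (lbB l) (dist x r.pos) (lbB r)

theorem sh_lbB (b : Br d) : (lbB b).sh = b.shape := by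
  induction b with
  | term i => rfl
  | pt x l r hl hr => simp only [lbB, RT.sh, Br.shape, hl, hr]

/-- adding an edge, with possibly vanishing resistances -/
theorem cs_edge {p a s t : ℝ} (hp : 0 ≤ p) (ha : 0 ≤ a) (hs : 0 ≤ s) (ht : 0 ≤ t)
    (hps : p = 0 → s = 0) (hle : t ≤ s + a) :
    (p + a = 0 → t = 0) ∧ t ^ 2 / (p + a) ≤ s ^ 2 / p + a := by
  constructor
  · intro h
    have hp0 : p = 0 := by linarith
    have ha0 : a = 0 := by linarith
    have := hps hp0
    linarith
  · have h1 : t ^ 2 / (p + a) ≤ (s + a) ^ 2 / (p + a) :=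
      div_le_div_of_nonneg_right (pow_le_pow_left₀ ht hle 2) (by linarith)
    refine h1.trans ?_
    rcases hp.eq_or_lt with h0 | h0
    · have hs0 := hps h0.symm
      rw [← h0, hs0]
      rcases ha.eq_or_lt with h2 | h2
      · rw [← h2]
        simp
      · have : a ^ 2 / a = a := by field_simp
        rw [zero_add, this]
        simp
    · rw [div_le_iff₀ (by linarith)]
      have e : (s ^ 2 / p + a) * (p + a) = s ^ 2 + a * p + a ^ 2 + s ^ 2 * a / p := by
        field_simp
        ring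
      rw [e]
      have h2 : 2 * (s * a) ≤ a * p + s ^ 2 * a / p := by
        have h3 : a * p + s ^ 2 * a / p - 2 * (s * a) = a * (p - s) ^ 2 / p := by
          field_simp
          ring
        have h4 : 0 ≤ a * (p - s) ^ 2 / p := by positivity
        linarith
      nlinarith

/-- the parallel axis identity, with possibly vanishing resistances -/
theorem par_axis0 {α β : ℝ} (hα : 0 ≤ α) (hβ : 0 ≤ β) (x c c' : Sp d)
    (h1 : α = 0 → x = c) (h2 : β = 0 → x = c') :
    ‖x - c‖ ^ 2 / α + ‖x - c'‖ ^ 2 / β =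
      ‖c - c'‖ ^ 2 / (α + β) + ‖x - eff α β c c'‖ ^ 2 / (α * β / (α + β)) := by
  rcases hα.eq_or_lt with hα0 | hα0
  · have := h1 hα0.symm
    rw [← hα0, ← this]
    simp
  · rcases hβ.eq_or_lt with hβ0 | hβ0
    · have := h2 hβ0.symm
      rw [← hβ0, ← this]
      simp [norm_sub_rev]
    · exact par_axis hα0 hβ0 x c c'

/-- the bound for a branch -/
theorem low_branch (b : Br d) : b.terms.Nodup → ∃ c : Sp d, ‖c‖ ^ 2 = (lbB b).u ∧
    0 < (lbB b).u ∧ Sup b.terms c ∧ 0 ≤ (lbB b).p ∧ ((lbB b).p = 0 → b.pos = c) ∧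
    DD (lbB b) ∧ (lbB b).k + ‖b.pos - c‖ ^ 2 / (lbB b).p ≤ 2 * b.len := by
  induction b with
  | term i =>
    intro _
    refine ⟨tm i, ?_, zero_lt_one, ?_, le_rfl, fun _ => rfl, trivial, ?_⟩
    · have := (tm_orthonormal (d := d)).1 i
      rw [this]
      simp [RT.u, lbB]
    · intro j hj
      have hj' : j ≠ i := by
        intro h
        apply hj
        rw [h]
        simp [Br.terms]
      unfold tm
      simp [hj']
    · simp [Br.len, RT.k, RT.p, lbB]
  | pt x l r hl hr =>
    intro hnd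
    rw [Br.terms, Multiset.nodup_add] at hnd
    obtain ⟨nd1, nd2, nd3⟩ := hnd
    obtain ⟨c1, n1, u1, s1, p1, q1, D1, e1⟩ := hl nd1
    obtain ⟨c2, n2, u2, s2, p2, q2, D2, e2⟩ := hr nd2
    obtain ⟨a, ha⟩ : ∃ a, a = dist x l.pos := ⟨_, rfl⟩
    obtain ⟨b, hb⟩ : ∃ b, b = dist x r.pos := ⟨_, rfl⟩
    obtain ⟨A, hA⟩ : ∃ A, A = lbB l := ⟨_, rfl⟩
    obtain ⟨B, hB⟩ : ∃ B, B = lbB r := ⟨_, rfl⟩
    rw [← hA] at n1 u1 p1 q1 D1 e1
    rw [← hB] at n2 u2 p2 q2 D2 e2
    have a0 : 0 ≤ a := ha ▸ dist_nonneg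
    have b0 : 0 ≤ b := hb ▸ dist_nonneg
    have hN : lbB (Br.pt x l r) = node a A b B := by rw [ha, hb, hA, hB]; rfl
    rw [hN]
    have t1 : ‖x - c1‖ ≤ ‖l.pos - c1‖ + a := by
      have := norm_add_le (x - l.pos) (l.pos - c1)
      rw [sub_add_sub_cancel, ← dist_eq_norm x l.pos, ← ha] at this
      linarith
    have t2 : ‖x - c2‖ ≤ ‖r.pos - c2‖ + b := by
      have := norm_add_le (x - r.pos) (r.pos - c2)
      rw [sub_add_sub_cancel, ← dist_eq_norm x r.pos, ← hb] at this
      linarith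
    obtain ⟨z1, i1⟩ := cs_edge p1 a0 (norm_nonneg _) (norm_nonneg _)
      (fun h => by rw [q1 h, sub_self, norm_zero]) t1
    obtain ⟨z2, i2⟩ := cs_edge p2 b0 (norm_nonneg _) (norm_nonneg _)
      (fun h => by rw [q2 h, sub_self, norm_zero]) t2
    have x1 : A.p + a = 0 → x = c1 := fun h => sub_eq_zero.1 (norm_eq_zero.1 (z1 h))
    have x2 : B.p + b = 0 → x = c2 := fun h => sub_eq_zero.1 (norm_eq_zero.1 (z2 h))
    have hnn := norm_sub_sup nd3 s1 s2
    rw [n1, n2] at hnn
    have hα : 0 ≤ A.p + a := by positivity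
    have hβ : 0 ≤ B.p + b := by positivity
    have hs : 0 < (A.p + a) + (B.p + b) := by
      rcases hα.eq_or_lt with h | h
      · rcases hβ.eq_or_lt with h' | h'
        · have hc : c1 = c2 := (x1 h.symm).symm.trans (x2 h'.symm)
          rw [hc, sub_self, norm_zero] at hnn
          have : 0 < A.u + B.u := by positivity
          rw [← hnn] at this
          norm_num at this
        · linarith
      · linarith
    have hpar := par_axis0 hα hβ x c1 c2 x1 x2
    rw [hnn] at hpar
    refine ⟨eff (A.p + a) (B.p + b) c1 c2, ?_, ?_, s1.eff s2 _ _, ?_, ?_, ⟨hs, D1, D2⟩, ?_⟩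
    · rw [norm_eff nd3 s1 s2, n1, n2, RT.u]
    · rw [RT.u]
      refine div_pos ?_ (by positivity)
      rcases hα.eq_or_lt with h | h
      · rw [← h] at hs ⊢
        have : 0 < B.p + b := by linarith
        positivity
      · have : 0 ≤ (B.p + b) ^ 2 * A.u := by positivity
        have : 0 < (A.p + a) ^ 2 * B.u := by positivity
        linarith
    · rw [RT.p]
      exact div_nonneg (mul_nonneg hα hβ) hs.le
    · intro h
      rw [RT.p, div_eq_zero_iff] at h
      show x = _
      rcases h with h | h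
      · rcases mul_eq_zero.1 h with h | h
        · rw [x1 h, h]
          have : B.p + b ≠ 0 := by rw [h] at hs; linarith
          unfold eff
          rw [zero_add, zero_smul, add_zero, smul_smul, one_div, inv_mul_cancel₀ this, one_smul]
        · rw [x2 h, h]
          have : A.p + a ≠ 0 := by rw [h] at hs; linarith
          unfold eff
          rw [add_zero, zero_smul, zero_add, smul_smul, one_div, inv_mul_cancel₀ this, one_smul]
      · exact absurd h hs.ne'
    · show (node a A b B).k + ‖x - _‖ ^ 2 / (node a A b B).p ≤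
        2 * (dist x l.pos + dist x r.pos + l.len + r.len)
      rw [RT.k, RT.p, ← ha, ← hb]
      linarith

/-- the labelled tree of a full Steiner tree -/
noncomputable def lbT (W : FST d) : UT := (lbB W.left, dist W.left.pos W.right.pos, lbB W.right)

theorem sh_lbT (W : FST d) : shU (lbT W) = W.top := by
  unfold shU lbT FST.top
  rw [sh_lbB, sh_lbB]

theorem low_FST (W : FST d) : DU (lbT W) ∧ F (lbT W) ≤ 2 * W.length := by
  have hnd : (W.left.terms + W.right.terms).Nodup := by
    rw [W.once]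
    exact Finset.univ.nodup
  rw [Multiset.nodup_add] at hnd
  obtain ⟨nd1, nd2, nd3⟩ := hnd
  obtain ⟨c1, n1, u1, s1, p1, q1, D1, e1⟩ := low_branch W.left nd1
  obtain ⟨c2, n2, u2, s2, p2, q2, D2, e2⟩ := low_branch W.right nd2
  obtain ⟨A, hA⟩ : ∃ A, A = lbB W.left := ⟨_, rfl⟩
  obtain ⟨B, hB⟩ : ∃ B, B = lbB W.right := ⟨_, rfl⟩
  obtain ⟨r, hr⟩ : ∃ r, r = dist W.left.pos W.right.pos := ⟨_, rfl⟩
  have hT : lbT W = (A, r, B) := by rw [hA, hB, hr]; rfl
  rw [← hA] at n1 u1 p1 q1 D1 e1
  rw [← hB] at n2 u2 p2 q2 D2 e2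
  have r0 : 0 ≤ r := hr ▸ dist_nonneg
  have hnn := norm_sub_sup nd3 s1 s2
  rw [n1, n2] at hnn
  have t1 : ‖W.right.pos - c1‖ ≤ ‖W.left.pos - c1‖ + r := by
    have := norm_add_le (W.right.pos - W.left.pos) (W.left.pos - c1)
    rw [sub_add_sub_cancel, ← dist_eq_norm W.right.pos W.left.pos, dist_comm, ← hr] at this
    linarith
  obtain ⟨z1, i1⟩ := cs_edge p1 r0 (norm_nonneg _) (norm_nonneg _)
    (fun h => by rw [q1 h, sub_self, norm_zero]) t1
  have t2 : ‖c1 - c2‖ ≤ ‖W.right.pos - c1‖ + ‖W.right.pos - c2‖ := by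
    have h := norm_add_le (-(W.right.pos - c1)) (W.right.pos - c2)
    have e : -(W.right.pos - c1) + (W.right.pos - c2) = c1 - c2 := by abel
    rw [e, norm_neg] at h
    exact h
  obtain ⟨l, hl⟩ : ∃ l, l = A.p + r + B.p := ⟨_, rfl⟩
  have hl0 : 0 ≤ l := by rw [hl]; positivity
  have key : ‖c1 - c2‖ ^ 2 / l ≤ ‖W.right.pos - c1‖ ^ 2 / (A.p + r) +
      ‖W.right.pos - c2‖ ^ 2 / B.p ∧ (l = 0 → ‖c1 - c2‖ = 0) := by
    obtain ⟨x, hx⟩ : ∃ x, x = ‖W.right.pos - c1‖ := ⟨_, rfl⟩
    obtain ⟨y, hy⟩ : ∃ y, y = ‖W.right.pos - c2‖ := ⟨_, rfl⟩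
    obtain ⟨t, ht⟩ : ∃ t, t = ‖c1 - c2‖ := ⟨_, rfl⟩
    have x0 : 0 ≤ x := hx ▸ norm_nonneg _
    have y0 : 0 ≤ y := hy ▸ norm_nonneg _
    have t0 : 0 ≤ t := ht ▸ norm_nonneg _
    rw [← hx] at z1
    rw [← hx, ← hy, ← ht] at t2
    rw [← hx, ← hy, ← ht]
    have q2' : B.p = 0 → y = 0 := fun h => by rw [hy, q2 h, sub_self, norm_zero]
    rcases p2.eq_or_lt with h | h
    · have hy0 := q2' h.symm
      rw [hy0, add_zero] at t2
      have hl' : l = A.p + r := by rw [hl, ← h, add_zero]
      rw [hy0, ← h, hl']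
      refine ⟨?_, fun h' => ?_⟩
      · have : t ^ 2 / (A.p + r) ≤ x ^ 2 / (A.p + r) :=
          div_le_div_of_nonneg_right (pow_le_pow_left₀ t0 t2 2) (by linarith)
        simpa using this
      · have := z1 h'
        linarith
    · rcases (show 0 ≤ A.p + r by linarith).eq_or_lt with h' | h'
      · have hx0 := z1 h'.symm
        rw [hx0, zero_add] at t2
        have hl' : l = B.p := by rw [hl, ← h', zero_add]
        rw [hx0, ← h', hl']
        refine ⟨?_, fun h'' => absurd h'' h.ne'⟩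
        have : t ^ 2 / B.p ≤ y ^ 2 / B.p :=
          div_le_div_of_nonneg_right (pow_le_pow_left₀ t0 t2 2) h.le
        simpa using this
      · refine ⟨?_, fun h'' => ?_⟩
        · have h1 : t ^ 2 / l ≤ (x + y) ^ 2 / l :=
            div_le_div_of_nonneg_right (pow_le_pow_left₀ t0 t2 2) hl0
          refine h1.trans ?_
          have h2 : x ^ 2 / (A.p + r) + y ^ 2 / B.p - (x + y) ^ 2 / l =
              (x * B.p - y * (A.p + r)) ^ 2 / ((A.p + r) * B.p * l) := by
            have : l ≠ 0 := by rw [hl]; positivity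
            rw [hl] at this ⊢
            field_simp
            ring
          have h3 : 0 ≤ (x * B.p - y * (A.p + r)) ^ 2 / ((A.p + r) * B.p * l) := by positivity
          linarith
        · exfalso
          linarith
  have hlpos : 0 < l := by
    rcases hl0.eq_or_lt with h | h
    · have := key.2 h.symm
      rw [this] at hnn
      have h5 : 0 < A.u + B.u := by positivity
      rw [← hnn] at h5
      norm_num at h5
    · exact h
  rw [hT]
  refine ⟨⟨by rw [← hl]; exact hlpos, D1, D2⟩, ?_⟩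
  unfold F
  simp only
  rw [← hl, ← hnn]
  have hlen : W.length = r + W.left.len + W.right.len := by rw [hr]; rfl
  rw [hlen]
  linarith [key.1]

end Pool.Agent.H64.Sm
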