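import Pool.Agent.H64.SmUniq
import Pool.Graph.R_pool_sql_team_seeded_620a6dc7.Helper877_Smith.Lower

/-!
# Minimal full Steiner trees of a regular simplex (MP_ebc12b_co, helper64)
-/

set_option autoImplicit false

namespace Pool.Agent.H64.Sm

open Pool.Agent.Helper877_Smith

open RT

variable {d : ℕ}

/-- the labels of a branch of positive length -/
theorem ndg_lbB (b : Br d) (h : Ps (lbB b)) : b.ndg := by
  induction b with
  | term i => trivial
  | pt x l r hl hr =>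
    obtain ⟨h1, h2, h3, h4⟩ := h
    exact ⟨dist_pos.1 (el_pos h1), dist_pos.1 (el_pos h2), hl h3, hr h4⟩

theorem szU_of_top {W : FST d} {T : UT} (h : shU T = W.top) : szU T = d := by
  unfold szU
  rw [h]
  exact size_top W

/-- the facts on a minimal full Steiner tree -/
theorem fst_min (hd : 3 ≤ d) (W : FST d) (hW : ∀ W' : FST d, W.length ≤ W'.length) :
    GM (lbT W) ∧ UIso W.top (Tgood d) ∧ W.ndg := by
  obtain ⟨T0, s0, ps0, ee0⟩ := exists_stat W.top (by rw [size_top]; exact hd)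
  obtain ⟨hD, hF⟩ := low_FST W
  have hs : shU (lbT W) = shU T0 := by rw [s0, sh_lbT]
  obtain ⟨G, hG, hGs⟩ := exists_GM d hd
  obtain ⟨W1, -, hW1, -⟩ := to_FST hG.1 hGs
  have hszW : szU (lbT W) = d := szU_of_top (sh_lbT W)
  have hsz0 : szU T0 = d := szU_of_top s0
  have h1 : F (lbT W) ≤ F G := hF.trans (by have := hW W1; linarith)
  have h2 : F G ≤ F T0 := hG.2.2 T0 (NNU_DU (PsU_nn ps0)) (by rw [hGs, hsz0])
  have heq : lbT W = T0 := dual_uniq (PsU_nn ps0) ee0 hs hD (h1.trans h2)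
  have hGM : GM (lbT W) := by
    refine ⟨by rw [heq]; exact ps0, by rw [heq]; exact ee0, fun T' hT' hs' => ?_⟩
    exact h1.trans (hG.2.2 T' hT' (by rw [hs', hszW, hGs]))
  refine ⟨hGM, ?_, ?_⟩
  · have := GM_good hGM
    rw [hszW, sh_lbT] at this
    exact this
  · obtain ⟨p1, p2, p3, p4⟩ := hGM.1
    exact ⟨dist_pos.1 (el_pos p1), ndg_lbB _ p3, ndg_lbB _ p4⟩

/-- a minimal full Steiner tree exists -/
theorem exists_fst_min (hd : 3 ≤ d) : ∃ W : FST d, ∀ W' : FST d, W.length ≤ W'.length := by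
  obtain ⟨G, hG, hGs⟩ := exists_GM d hd
  obtain ⟨W1, -, hW1, -⟩ := to_FST hG.1 hGs
  refine ⟨W1, fun W' => ?_⟩
  obtain ⟨hD, hF⟩ := low_FST W'
  have := hG.2.2 (lbT W') hD (by rw [szU_of_top (sh_lbT W'), hGs])
  linarith

end Pool.Agent.H64.Sm
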