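import Pool.Agent.H64.SmShapeGraph

/-!
# From a tree in space to a full Steiner tree (MP_ebc12b_co, helper64)
-/

set_option autoImplicit false

namespace Pool.Agent.H64.Sm

open Pool.Agent.Helper877_Smith

variable {d : ℕ}

section

variable {V W : Type} [Fintype V] [Fintype W] {G : SimpleGraph V} {H : SimpleGraph W}

theorem netLen_iso (e : G ≃g H) (q : W → Sp d) : netLen G (fun x => q (e x)) = netLen H q := by
  classical
  unfold netLen
  congr 1
  refine Fintype.sum_equiv e.toEquiv _ _ fun x => ?_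
  refine Fintype.sum_equiv e.toEquiv _ _ fun y => ?_
  refine if_congr ?_ rfl rfl
  exact e.map_rel_iff.symm

theorem netLen_jn (G : SimpleGraph V) (v : V) (H : SimpleGraph W) (w : W) (pos : V ⊕ W → Sp d) :
    netLen (jn G v H w) pos = netLen G (fun a => pos (Sum.inl a)) +
      netLen H (fun a => pos (Sum.inr a)) + dist (pos (Sum.inl v)) (pos (Sum.inr w)) := by
  classical
  unfold netLen
  have h1 : ∑ x, ∑ y, (if (jn G v H w).Adj x y then dist (pos x) (pos y) else 0) =
      (∑ a, ∑ b, if G.Adj a b then dist (pos (Sum.inl a)) (pos (Sum.inl b)) else 0) +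
      (∑ a, ∑ b, if H.Adj a b then dist (pos (Sum.inr a)) (pos (Sum.inr b)) else 0) +
      2 * dist (pos (Sum.inl v)) (pos (Sum.inr w)) := by
    rw [Fintype.sum_sum_type]
    have e1 : ∀ a : V, (∑ y, if (jn G v H w).Adj (Sum.inl a) y then
        dist (pos (Sum.inl a)) (pos y) else 0) =
        (∑ b, if G.Adj a b then dist (pos (Sum.inl a)) (pos (Sum.inl b)) else 0) +
        (if a = v then dist (pos (Sum.inl v)) (pos (Sum.inr w)) else 0) := by
      intro a
      rw [Fintype.sum_sum_type]
      congr 1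
      by_cases ha : a = v
      · rw [if_pos ha, ha]
        rw [Finset.sum_eq_single w]
        · rw [if_pos]
          exact ⟨rfl, rfl⟩
        · intro b _ hb
          rw [if_neg]
          exact fun h => hb h.2
        · intro h
          exact absurd (Finset.mem_univ w) h
      · rw [if_neg ha]
        refine Finset.sum_eq_zero fun b _ => if_neg ?_
        exact fun h => ha h.1
    have e2 : ∀ b : W, (∑ y, if (jn G v H w).Adj (Sum.inr b) y then
        dist (pos (Sum.inr b)) (pos y) else 0) =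
        (if b = w then dist (pos (Sum.inl v)) (pos (Sum.inr w)) else 0) +
        (∑ c, if H.Adj b c then dist (pos (Sum.inr b)) (pos (Sum.inr c)) else 0) := by
      intro b
      rw [Fintype.sum_sum_type]
      congr 1
      by_cases hb : b = w
      · rw [if_pos hb, hb]
        rw [Finset.sum_eq_single v]
        · rw [if_pos, dist_comm]
          exact ⟨rfl, rfl⟩
        · intro a _ ha
          rw [if_neg]
          exact fun h => ha h.1
        · intro h
          exact absurd (Finset.mem_univ v) h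
      · rw [if_neg hb]
        refine Finset.sum_eq_zero fun a _ => if_neg ?_
        exact fun h => hb h.2
    rw [Finset.sum_congr rfl fun a _ => e1 a, Finset.sum_congr rfl fun b _ => e2 b,
      Finset.sum_add_distrib, Finset.sum_add_distrib, Finset.sum_ite_eq', Finset.sum_ite_eq',
      if_pos (Finset.mem_univ _), if_pos (Finset.mem_univ _)]
    ring
  rw [h1]
  ring

open Classical in
/-- the terminals at the vertices -/
noncomputable def tms {V : Type} [Fintype V] (pos : V → Sp d) : Multiset (Fin d) :=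
  ∑ x, ∑ i, if pos x = tm i then {i} else 0

theorem tms_sum (pos : V ⊕ W → Sp d) :
    tms pos = tms (fun a => pos (Sum.inl a)) + tms (fun a => pos (Sum.inr a)) := by
  unfold tms
  exact Fintype.sum_sum_type _

theorem tms_equiv (e : V ≃ W) (q : W → Sp d) : tms (fun x => q (e x)) = tms q := by
  unfold tms
  exact Fintype.sum_equiv e _ _ fun x => rfl

theorem tm_inj : Function.Injective (tm : Fin d → Sp d) := by
  intro i j hij
  by_contra hne
  have h2 := congrArg (fun z : Sp d => z i) hij
  unfold tm at h2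
  simp [hne] at h2

theorem tms_unique (pos : V → Sp d) (ρ : V) (h : ∀ x, x = ρ) :
    (∀ i, pos ρ = tm i → tms pos = {i}) ∧ ((∀ i, pos ρ ≠ tm i) → tms pos = 0) := by
  classical
  have hs : tms pos = ∑ i, if pos ρ = tm i then {i} else 0 := by
    unfold tms
    rw [Finset.sum_eq_single ρ]
    · intro x _ hx
      exact absurd (h x) hx
    · intro hx
      exact absurd (Finset.mem_univ ρ) hx
  constructor
  · intro i hi
    rw [hs, Finset.sum_eq_single i]
    · rw [if_pos hi]
    · intro j _ hj
      rw [if_neg]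
      intro hj'
      exact hj (tm_inj (hj'.symm.trans hi))
    · intro hx
      exact absurd (Finset.mem_univ i) hx
  · intro hi
    rw [hs]
    exact Finset.sum_eq_zero fun i _ => if_neg (hi i)

end

/-- the vertex has exactly two neighbours -/
def D2 {V : Type} (G : SimpleGraph V) (x : V) : Prop :=
  ∃ a b, a ≠ b ∧ ∀ y, G.Adj x y ↔ y = a ∨ y = b

theorem D2_iso {V W : Type} {G : SimpleGraph V} {H : SimpleGraph W} (e : G ≃g H) {x : V}
    (h : D2 H (e x)) : D2 G x := by
  obtain ⟨a, b, hab, h⟩ := h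
  refine ⟨e.symm a, e.symm b, fun hh => hab (e.symm.injective hh), fun y => ?_⟩
  rw [← e.map_rel_iff]
  refine (h (e y)).trans ?_
  constructor
  · rintro (h | h)
    · left; rw [← h]; exact (e.symm_apply_apply y).symm
    · right; rw [← h]; exact (e.symm_apply_apply y).symm
  · rintro (h | h)
    · left; rw [h]; exact e.apply_symm_apply a
    · right; rw [h]; exact e.apply_symm_apply b

theorem D2_inl {V W : Type} {G : SimpleGraph V} {v : V} {H : SimpleGraph W} {w : W} {x : V}
    (hx : x ≠ v) (h : D2 G x) : D2 (jn G v H w) (Sum.inl x) := by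
  obtain ⟨a, b, hab, h⟩ := h
  refine ⟨Sum.inl a, Sum.inl b, fun hh => hab (Sum.inl_injective hh), ?_⟩
  rintro (y | y)
  · rw [Sum.inl_injective.eq_iff, Sum.inl_injective.eq_iff]
    exact h y
  · simp only [jn, reduceCtorEq, or_self, iff_false]
    exact fun h => hx h.1

theorem D2_inr {V W : Type} {G : SimpleGraph V} {v : V} {H : SimpleGraph W} {w : W} {x : W}
    (hx : x ≠ w) (h : D2 H x) : D2 (jn G v H w) (Sum.inr x) := by
  obtain ⟨a, b, hab, h⟩ := h
  refine ⟨Sum.inr a, Sum.inr b, fun hh => hab (Sum.inr_injective hh), ?_⟩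
  rintro (y | y)
  · simp only [jn, reduceCtorEq, or_self, iff_false]
    exact fun h => hx h.2
  · rw [Sum.inr_injective.eq_iff, Sum.inr_injective.eq_iff]
    exact h y

/-- a root with one child -/
theorem D2_root {V W X : Type} {G : SimpleGraph V} {v : V} {H : SimpleGraph W} {w : W}
    {K : SimpleGraph X} {r : X}
    (h : RI H w (jn (⊥ : SimpleGraph Unit) () K r) (Sum.inl ())) :
    D2 (jn G v H w) (Sum.inr w) := by
  obtain ⟨e, he⟩ := h
  refine ⟨Sum.inl v, Sum.inr (e.symm (Sum.inr r)), by simp, ?_⟩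
  rintro (y | y)
  · simp [jn]
  · rw [Sum.inr_injective.eq_iff]
    show H.Adj w y ↔ _
    rw [← e.map_rel_iff]
    show (jn (⊥ : SimpleGraph Unit) () K r).Adj (e w) (e y) ↔ _
    rw [he]
    have h1 : y = e.symm (Sum.inr r) ↔ e y = Sum.inr r := by
      constructor
      · intro h; rw [h]; exact e.apply_symm_apply _
      · intro h; rw [← h]; exact (e.symm_apply_apply _).symm
    rw [h1]
    rcases e y with z | z
    · simp [jn]
    · simp [jn]

/-- the outcome for a rooted tree -/
def Res {V : Type} [Fintype V] (G : SimpleGraph V) (ρ : V) (pos : V → Sp d) : Prop :=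
  (tms pos = 0 ∧ (∀ i, pos ρ ≠ tm i) ∧
    (netLen G pos = 0 → RI G ρ (⊥ : SimpleGraph Unit) ())) ∨
  (∃ b : Br d, (∀ i, pos ρ ≠ tm i) ∧ b.terms = tms pos ∧
    b.len + dist (pos ρ) b.pos ≤ netLen G pos ∧
    (b.len + dist (pos ρ) b.pos = netLen G pos → b.ndg →
      RI G ρ (jn (⊥ : SimpleGraph Unit) () (RG b.shape) (rtv b.shape)) (Sum.inl ()))) ∨
  (∃ b : Br d, b.terms = tms pos ∧ b.pos = pos ρ ∧ b.len ≤ netLen G pos ∧
    (b.len = netLen G pos → b.ndg → RI G ρ (RG b.shape) (rtv b.shape)))

theorem Res_iso {V W : Type} [Fintype V] [Fintype W] {G : SimpleGraph V} {H : SimpleGraph W}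
    (e : G ≃g H) {ρ : V} {w : W} (he : e ρ = w) {q : W → Sp d} (h : Res H w q) :
    Res G ρ (fun x => q (e x)) := by
  have h1 : tms (fun x => q (e x)) = tms q := tms_equiv e.toEquiv q
  have h2 := netLen_iso e q
  have h3 : RI G ρ H w := ⟨e, he⟩
  unfold Res
  simp only [h1, h2, he]
  rcases h with ⟨a1, a2, a3⟩ | ⟨b, a1, a2, a3, a4⟩ | ⟨b, a1, a2, a3, a4⟩
  · exact Or.inl ⟨a1, a2, fun h => h3.trans (a3 h)⟩
  · exact Or.inr (Or.inl ⟨b, a1, a2, a3, fun h h' => h3.trans (a4 h h')⟩)
  · exact Or.inr (Or.inr ⟨b, a1, a2, a3, fun h h' => h3.trans (a4 h h')⟩)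

/-- the branch that hangs from an edge -/
theorem Res_hang {V W : Type} [Fintype V] [Fintype W] {G : SimpleGraph V} {v : V}
    {H : SimpleGraph W} {w : W} {pos : V ⊕ W → Sp d}
    (hdeg : (∀ i, pos (Sum.inr w) ≠ tm i) → ¬ D2 (jn G v H w) (Sum.inr w))
    (h : Res H w (fun a => pos (Sum.inr a))) :
    tms (fun a => pos (Sum.inr a)) = 0 ∨
    ∃ b : Br d, b.terms = tms (fun a => pos (Sum.inr a)) ∧
      b.len + dist (pos (Sum.inl v)) b.pos ≤ netLen H (fun a => pos (Sum.inr a)) +
        dist (pos (Sum.inl v)) (pos (Sum.inr w)) ∧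
      (b.len + dist (pos (Sum.inl v)) b.pos = netLen H (fun a => pos (Sum.inr a)) +
        dist (pos (Sum.inl v)) (pos (Sum.inr w)) → b.ndg →
        RI H w (RG b.shape) (rtv b.shape)) := by
  rcases h with ⟨a1, a2, a3⟩ | ⟨b, a1, a2, a3, a4⟩ | ⟨b, a1, a2, a3, a4⟩
  · exact Or.inl a1
  · right
    have htri := dist_triangle (pos (Sum.inl v)) (pos (Sum.inr w)) b.pos
    refine ⟨b, a2, by linarith, fun h h' => ?_⟩
    exact absurd (D2_root (a4 (by linarith) h')) (hdeg a1)
  · right
    refine ⟨b, a1, by rw [a2]; linarith, fun h h' => a4 ?_ h'⟩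
    rw [a2] at h
    linarith

/-- the outcome for a rooted tree in space -/
theorem rooted (n : ℕ) : ∀ (V : Type) [Fintype V] (G : SimpleGraph V) (ρ : V) (pos : V → Sp d),
    Fintype.card V = n → G.IsTree → (∀ x y, G.Adj x y → pos x ≠ pos y) →
    (∀ x, x ≠ ρ → (∀ i, pos x ≠ tm i) → ¬ D2 G x) → Res G ρ pos := by
  induction n using Nat.strong_induction_on with
  | _ n ih =>
  intro V _ G ρ pos hn hG hpos hdeg
  by_cases hu : ∃ u, G.Adj ρ u
  · obtain ⟨u, hu⟩ := hu
    obtain ⟨V1, V2, i1, i2, G1, G2, v1, v2, t1, t2, hc, e, he⟩ := tree_split hG hu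
    obtain ⟨q, hq⟩ : ∃ q : V1 ⊕ V2 → Sp d, q = fun x => pos (e.symm x) := ⟨_, rfl⟩
    have hpq : pos = fun x => q (e x) := by
      rw [hq]
      ext1 x
      simp
    rw [hpq]
    refine Res_iso e he ?_
    have hpos' : ∀ x y, (jn G1 v1 G2 v2).Adj x y → q x ≠ q y := by
      intro x y hxy
      rw [hq]
      exact hpos _ _ (e.symm.map_rel_iff.2 hxy)
    have hdeg' : ∀ x, x ≠ Sum.inl v1 → (∀ i, q x ≠ tm i) → ¬ D2 (jn G1 v1 G2 v2) x := by
      intro x hx hxi h2
      have hx' : e (e.symm x) = x := e.apply_symm_apply x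
      refine hdeg (e.symm x) (fun h => hx ?_) (fun i => ?_) (D2_iso e (by rw [hx']; exact h2))
      · rw [← hx', h, he]
      · have := hxi i
        rw [hq] at this
        exact this
    have c1 : 0 < Fintype.card V1 := Fintype.card_pos_iff.2 ⟨v1⟩
    have c2 : 0 < Fintype.card V2 := Fintype.card_pos_iff.2 ⟨v2⟩
    have R1 : Res G1 v1 (fun a => q (Sum.inl a)) := by
      refine ih (Fintype.card V1) (by omega) V1 G1 v1 _ rfl t1 (fun x y hxy => ?_)
        (fun x hx hxi h2 => ?_)
      · exact hpos' (Sum.inl x) (Sum.inl y) hxy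
      · exact hdeg' (Sum.inl x) (fun h => hx (Sum.inl_injective h)) hxi (D2_inl hx h2)
    have R2 : Res G2 v2 (fun a => q (Sum.inr a)) := by
      refine ih (Fintype.card V2) (by omega) V2 G2 v2 _ rfl t2 (fun x y hxy => ?_)
        (fun x hx hxi h2 => ?_)
      · exact hpos' (Sum.inr x) (Sum.inr y) hxy
      · exact hdeg' (Sum.inr x) (by simp) hxi (D2_inr hx h2)
    have hD : 0 < dist (q (Sum.inl v1)) (q (Sum.inr v2)) :=
      dist_pos.2 (hpos' _ _ ⟨rfl, rfl⟩)
    have hL := netLen_jn G1 v1 G2 v2 q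
    have hT := tms_sum q
    have L1 := netLen_nonneg G1 (fun a => q (Sum.inl a))
    have L2 := netLen_nonneg G2 (fun a => q (Sum.inr a))
    rcases Res_hang (G := G1) (v := v1) (fun h => hdeg' _ (by simp) h) R2 with
      h0 | ⟨b2, k1, k2, k3⟩
    · rw [h0, add_zero] at hT
      unfold Res
      rw [hT, hL]
      rcases R1 with ⟨a1, a2, a3⟩ | ⟨b, a1, a2, a3, a4⟩ | ⟨b, a1, a2, a3, a4⟩
      · exact Or.inl ⟨a1, a2, fun h => by linarith⟩
      · exact Or.inr (Or.inl ⟨b, a1, a2, by linarith, fun h => by linarith⟩)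
      · exact Or.inr (Or.inr ⟨b, a1, a2, by linarith, fun h => by linarith⟩)
    · unfold Res
      rw [hT, hL]
      rcases R1 with ⟨a1, a2, a3⟩ | ⟨b, a1, a2, a3, a4⟩ | ⟨b, a1, a2, a3, a4⟩
      · right; left
        refine ⟨b2, a2, by rw [k1, a1, zero_add], by linarith, fun h h' => ?_⟩
        exact (a3 (by linarith)).jnl (k3 (by linarith) h')
      · right; right
        refine ⟨Br.pt (q (Sum.inl v1)) b b2, ?_, rfl, ?_, fun h h' => ?_⟩
        · show b.terms + b2.terms = _
          rw [a2, k1]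
        · show dist (q (Sum.inl v1)) b.pos + dist (q (Sum.inl v1)) b2.pos + b.len + b2.len ≤ _
          linarith
        · change dist (q (Sum.inl v1)) b.pos + dist (q (Sum.inl v1)) b2.pos + b.len + b2.len = _
            at h
          obtain ⟨-, -, g3, g4⟩ := h'
          exact (a4 (by linarith) g3).jnl (k3 (by linarith) g4)
      · right; right
        refine ⟨Br.pt (q (Sum.inl v1)) b b2, ?_, rfl, ?_, fun h h' => ?_⟩
        · show b.terms + b2.terms = _
          rw [a1, k1]
        · show dist (q (Sum.inl v1)) b.pos + dist (q (Sum.inl v1)) b2.pos + b.len + b2.len ≤ _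
          rw [a2, dist_self]
          linarith
        · exact absurd a2.symm h'.1
  · push Not at hu
    have huniq : ∀ x, x = ρ := by
      intro x
      by_contra hx
      obtain ⟨p⟩ := hG.connected.preconnected ρ x
      cases p with
      | nil => exact hx rfl
      | cons h p => exact hu _ h
    have hRI : RI G ρ (⊥ : SimpleGraph Unit) () := by
      refine ⟨⟨⟨fun _ => (), fun _ => ρ, fun x => (huniq x).symm, fun _ => rfl⟩, ?_⟩, rfl⟩
      intro a b
      constructor
      · intro h
        exact absurd h (by simp)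
      · intro h
        rw [huniq a] at h
        exact absurd h (hu b)
    obtain ⟨h1, h2⟩ := tms_unique pos ρ huniq
    by_cases hi : ∃ i, pos ρ = tm i
    · obtain ⟨i, hi⟩ := hi
      right; right
      exact ⟨Br.term i, (h1 i hi).symm, hi.symm, netLen_nonneg _ _, fun _ _ => hRI⟩
    · push Not at hi
      exact Or.inl ⟨h2 hi, hi, fun _ => hRI⟩

end Pool.Agent.H64.Sm
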