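import Pool.Agent.H64.SmDual

/-!
# Minimal labels are positive (MP_ebc12b_co, helper64)
-/

set_option autoImplicit false

namespace Pool.Agent.H64.Sm

open Pool.Agent.Helper877_Smith

open RT

/-- conductance of a branch -/
noncomputable def gg (a : ℝ) (A : RT) : ℝ := 1 / (A.p + a)

/-- weighted squared norm of a branch -/
noncomputable def bb (a : ℝ) (A : RT) : ℝ := A.u / (A.p + a) ^ 2

theorem gg_node {a : ℝ} {A : RT} {b : ℝ} {B : RT} (hA : 0 < A.p + a) (hB : 0 < B.p + b) :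
    gg 0 (node a A b B) = gg a A + gg b B := by
  unfold gg
  rw [RT.p, add_zero]
  field_simp
  ring

theorem bb_node {a : ℝ} {A : RT} {b : ℝ} {B : RT} (hA : 0 < A.p + a) (hB : 0 < B.p + b) :
    bb 0 (node a A b B) = bb a A + bb b B := by
  unfold bb
  rw [RT.p, RT.u, add_zero]
  field_simp

/-- labels in the box -/
abbrev BxU (δ : ℝ) (T : UT) : Prop := AlU (fun a => δ ≤ a) (fun a => 0 ≤ a) T

/-- a label which is not on the lower boundary -/
abbrev sl (δ : ℝ) (A : RT) (r : ℝ) : Prop := el (fun a => δ < a) (fun a => 0 < a) A r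

/-- the condition of minimality at the distinguished edge -/
def EC (δ : ℝ) (T : UT) : Prop :=
  T.1.u + T.2.2.u ≤ (T.1.p + T.2.1 + T.2.2.p) ^ 2 ∧
    (sl δ T.1 T.2.1 → sl δ T.2.2 T.2.1 → E1 T)

/-- the conditions of minimality at all edges -/
def CC (δ : ℝ) (T : UT) : Prop := BxU δ T ∧ ∀ T', UL T T' → EC δ T'

theorem CC.of_ul {δ : ℝ} (hδ : 0 < δ) {S T : UT} (h : CC δ S) (hT : UL S T) : CC δ T :=
  ⟨(hT.al (fun _ h => hδ.le.trans h)).1 h.1, fun T' hT' => h.2 T' (hT.trans hT')⟩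

theorem BxU.nn {δ : ℝ} (hδ : 0 < δ) {T : UT} (h : BxU δ T) : NNU T :=
  AlU_mono (fun _ h => hδ.trans_le h) (fun _ h => h) h

theorem ec_alg {x y u v : ℝ} (hx : 0 < x) (hy : 0 < y) :
    (u / x ^ 2 * (1 / y) ^ 2 + v / y ^ 2 * (1 / x) ^ 2 ≤ (1 / x + 1 / y) ^ 2 ↔
      u + v ≤ (x + y) ^ 2) ∧
    (u / x ^ 2 * (1 / y) ^ 2 + v / y ^ 2 * (1 / x) ^ 2 = (1 / x + 1 / y) ^ 2 ↔
      u + v = (x + y) ^ 2) := by
  have e1 : u / x ^ 2 * (1 / y) ^ 2 + v / y ^ 2 * (1 / x) ^ 2 = (u + v) / (x * y) ^ 2 := by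
    field_simp
  have e2 : (1 / x + 1 / y) ^ 2 = (x + y) ^ 2 / (x * y) ^ 2 := by
    field_simp
    ring
  have h3 : 0 < (x * y) ^ 2 := by positivity
  rw [e1, e2]
  exact ⟨div_le_div_iff_of_pos_right h3, div_left_inj' h3.ne'⟩

theorem bb_nonneg {a : ℝ} {A : RT} : 0 ≤ bb a A := by
  unfold bb
  have := u_nonneg A
  positivity

/-- data at the root vertex of the second tree -/
theorem ec_use {δ : ℝ} (hδ : 0 < δ) {X : RT} {r : ℝ} {a : ℝ} {A : RT} {b : ℝ} {B : RT}
    (h : CC δ (X, r, node a A b B)) :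
    0 < gg r X ∧ 0 < gg 0 (node a A b B) ∧
    bb r X * gg 0 (node a A b B) ^ 2 + bb 0 (node a A b B) * gg r X ^ 2 ≤
      (gg r X + gg 0 (node a A b B)) ^ 2 ∧
    ((sl δ X r) → 0 < r →
      bb r X * gg 0 (node a A b B) ^ 2 + bb 0 (node a A b B) * gg r X ^ 2 =
      (gg r X + gg 0 (node a A b B)) ^ 2) := by
  obtain ⟨h1, h2⟩ := h
  obtain ⟨n1, n2, n3, n4⟩ := BxU.nn hδ h1
  have hX : 0 < X.p + r := NN_tot n3 n1
  have hY : 0 < (node a A b B).p := NN_p_pos n4
  have hE := h2 _ (UL.refl _)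
  unfold EC E1 at hE
  simp only at hE
  have hg := ec_alg (x := X.p + r) (y := (node a A b B).p) (u := X.u)
    (v := (node a A b B).u) hX hY
  unfold gg bb
  rw [add_zero]
  refine ⟨by positivity, by positivity, hg.1.2 hE.1, fun g1 g2 => hg.2.2 (hE.2 g1 g2)⟩

theorem four_le_inv {δ : ℝ} (hδ : 0 < δ) (hδ2 : δ ≤ 1 / 2) : 4 ≤ 1 / δ ^ 2 := by
  rw [le_div_iff₀ (by positivity)]
  nlinarith

/-- trichotomy for the edge above a branch -/
theorem edge_cases {δ : ℝ} (hδ : 0 < δ) {X : RT} {r : ℝ} {Y : RT} (h : BxU δ (X, r, Y)) :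
    (sl δ X r ∧ 0 < r) ∨ (X = leaf ∧ r = δ) ∨
      (∃ a A b B, X = node a A b B ∧ r = 0) := by
  obtain ⟨h1, -⟩ := h
  cases X with
  | leaf =>
    have h2 : δ ≤ r := h1
    rcases h2.eq_or_lt with h3 | h3
    · exact Or.inr (Or.inl ⟨rfl, h3.symm⟩)
    · exact Or.inl ⟨h3, hδ.trans h3⟩
  | node a A b B =>
    have h2 : 0 ≤ r := h1
    rcases h2.eq_or_lt with h3 | h3
    · exact Or.inr (Or.inr ⟨a, A, b, B, rfl, h3.symm⟩)
    · exact Or.inl ⟨h3, h3⟩

/-- splitting a branch at an edge with label zero -/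
theorem split_zero {δ : ℝ} (hδ : 0 < δ) {c : ℝ} {C : RT} {d : ℝ} {D : RT} {a : ℝ} {A : RT} {b : ℝ}
    {B : RT} (h : CC δ (node c C d D, 0, node a A b B)) :
    CC δ (C, c, node d D 0 (node a A b B)) ∧ CC δ (D, d, node c C 0 (node a A b B)) ∧
    gg 0 (node c C d D) = gg c C + gg d D ∧ bb 0 (node c C d D) = bb c C + bb d D ∧
    gg 0 (node d D 0 (node a A b B)) = gg d D + gg 0 (node a A b B) ∧
    bb 0 (node d D 0 (node a A b B)) = bb d D + bb 0 (node a A b B) ∧
    gg 0 (node c C 0 (node a A b B)) = gg c C + gg 0 (node a A b B) ∧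
    bb 0 (node c C 0 (node a A b B)) = bb c C + bb 0 (node a A b B) ∧
    0 < gg c C ∧ 0 < gg d D ∧ 0 < gg 0 (node a A b B) := by
  obtain ⟨n1, n2, ⟨n3, n4, n5, n6⟩, n7⟩ := BxU.nn hδ h.1
  have hC := NN_tot n5 n3
  have hD := NN_tot n6 n4
  have hY : 0 < (node a A b B).p + 0 := by rw [add_zero]; exact NN_p_pos n7
  refine ⟨h.of_ul hδ (UL.toA _ _ _ _ _ _), h.of_ul hδ (UL.toB _ _ _ _ _ _), gg_node hC hD,
    bb_node hC hD, gg_node hD hY, bb_node hD hY, gg_node hC hY, bb_node hC hY, ?_, ?_, ?_⟩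
  · unfold gg; positivity
  · unfold gg; positivity
  · unfold gg; positivity

/-- bound for light branches, small total -/
theorem grp1 {δ : ℝ} (hδ : 0 < δ) (hδ2 : δ ≤ 1 / 2) (X : RT) : ∀ (r a : ℝ) (A : RT) (b : ℝ)
    (B : RT), CC δ (X, r, node a A b B) → bb r X + bb 0 (node a A b B) ≤ 4 →
    gg r X < gg 0 (node a A b B) →
    (gg r X + gg 0 (node a A b B)) + (bb r X + bb 0 (node a A b B)) / 2 * gg r X ≤
      bb r X * (gg r X + gg 0 (node a A b B)) := by
  have alg : ∀ {g k x y : ℝ}, 0 < g → g < k → x + y ≤ 4 →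
      x * k ^ 2 + y * g ^ 2 = (g + k) ^ 2 → (g + k) + (x + y) / 2 * g ≤ x * (g + k) := by
    intro g k x y h0 hg hχ e
    have h3 : 0 ≤ (k - g) * (x * (g + k) - (g + k) - (x + y) / 2 * g) := by
      have : (k - g) * (x * (g + k) - (g + k) - (x + y) / 2 * g) =
        g / 2 * (g + k) * (4 - (x + y)) := by linear_combination e
      rw [this]
      have h5 : 0 ≤ 4 - (x + y) := by linarith
      have h6 : 0 < k := h0.trans hg
      positivity
    have h4 := nonneg_of_mul_nonneg_right h3 (sub_pos.2 hg)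
    linarith
  induction X with
  | leaf =>
    intro r a A b B h hχ hg
    obtain ⟨g0, h0, -, e2⟩ := ec_use hδ h
    rcases edge_cases hδ h.1 with ⟨h1, h2⟩ | ⟨-, rfl⟩ | ⟨_, _, _, _, h1, _⟩
    · exact alg g0 hg hχ (e2 h1 h2)
    · have h4 : bb r leaf = 1 / r ^ 2 := by simp [bb, RT.u, RT.p]
      have h5 := four_le_inv hδ hδ2
      rw [← h4] at h5
      have h6 : 0 ≤ bb 0 (node a A b B) := bb_nonneg
      have h7 : (bb r leaf + bb 0 (node a A b B)) / 2 * gg r leaf ≤ 2 * gg r leaf :=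
        mul_le_mul_of_nonneg_right (by linarith) g0.le
      have h8 : 4 * (gg r leaf + gg 0 (node a A b B)) ≤
        bb r leaf * (gg r leaf + gg 0 (node a A b B)) :=
        mul_le_mul_of_nonneg_right h5 (by linarith)
      linarith
    · exact absurd h1 (by simp)
  | node c C d D iC iD =>
    intro r a A b B h hχ hg
    obtain ⟨g0, h0, -, e2⟩ := ec_use hδ h
    rcases edge_cases hδ h.1 with ⟨h1, h2⟩ | ⟨h1, _⟩ | ⟨_, _, _, _, -, rfl⟩
    · exact alg g0 hg hχ (e2 h1 h2)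
    · exact absurd h1 (by simp)
    · obtain ⟨s1, s2, s3, s4, s5, s6, s7, s8, s9, s10, s11⟩ := split_zero hδ h
      have i1 := iC _ _ _ _ _ s1 (by rw [s6]; rw [s4] at hχ; linarith)
        (by rw [s5]; rw [s3] at hg; linarith)
      have i2 := iD _ _ _ _ _ s2 (by rw [s8]; rw [s4] at hχ; linarith)
        (by rw [s7]; rw [s3] at hg; linarith)
      rw [s5, s6] at i1
      rw [s7, s8] at i2
      rw [s3, s4]
      nlinarith

/-- bound for light branches, large total -/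
theorem grp2 {δ : ℝ} (hδ : 0 < δ) (hδ2 : δ ≤ 1 / 2) (X : RT) : ∀ (r a : ℝ) (A : RT) (b : ℝ)
    (B : RT), CC δ (X, r, node a A b B) → 4 ≤ bb r X + bb 0 (node a A b B) →
    gg r X ≤ gg 0 (node a A b B) →
    (gg r X + gg 0 (node a A b B)) ^ 2 ≤
      bb r X * gg 0 (node a A b B) ^ 2 + bb 0 (node a A b B) * gg r X ^ 2 := by
  have alg : ∀ {g1 g2 h x1 x2 y : ℝ}, 0 < g1 → 0 < g2 → 0 < h → g1 + g2 ≤ h →
      4 ≤ x1 + x2 + y →
      (g1 + (g2 + h)) ^ 2 ≤ x1 * (g2 + h) ^ 2 + (x2 + y) * g1 ^ 2 →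
      (g2 + (g1 + h)) ^ 2 ≤ x2 * (g1 + h) ^ 2 + (x1 + y) * g2 ^ 2 →
      (g1 + g2 + h) ^ 2 ≤ (x1 + x2) * h ^ 2 + y * (g1 + g2) ^ 2 := by
    intro g1 g2 h x1 x2 y p1 p2 p3 hle hχ h1 h2
    have k1 : 0 < g2 + h - g1 := by linarith
    have k2 : 0 < g1 + h - g2 := by linarith
    -- (h - g1 - g2) x1 ≥ (h - g1 - g2) (G + 2 g1)/G ... in homogeneous form
    have j1 : 0 ≤ (g2 + h - g1) * ((h - g1 - g2) * (x1 * (g1 + g2 + h)) -
        (h - g1 - g2) * (g1 + g2 + h + 2 * g1) + (x1 + x2 + y - 4) * g1 ^ 2) := by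
      have e : (g2 + h - g1) * ((h - g1 - g2) * (x1 * (g1 + g2 + h)) -
        (h - g1 - g2) * (g1 + g2 + h + 2 * g1) + (x1 + x2 + y - 4) * g1 ^ 2) =
        (h - g1 - g2) * (x1 * (g2 + h) ^ 2 + (x2 + y) * g1 ^ 2 - (g1 + (g2 + h)) ^ 2) +
        2 * g2 * g1 ^ 2 * (x1 + x2 + y - 4) := by ring
      rw [e]
      have : 0 ≤ h - g1 - g2 := by linarith
      have := mul_nonneg this (sub_nonneg.2 h1)
      have : 0 ≤ 2 * g2 * g1 ^ 2 * (x1 + x2 + y - 4) := by
        have : 0 ≤ x1 + x2 + y - 4 := by linarith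
        positivity
      linarith
    have j2 : 0 ≤ (g1 + h - g2) * ((h - g1 - g2) * (x2 * (g1 + g2 + h)) -
        (h - g1 - g2) * (g1 + g2 + h + 2 * g2) + (x1 + x2 + y - 4) * g2 ^ 2) := by
      have e : (g1 + h - g2) * ((h - g1 - g2) * (x2 * (g1 + g2 + h)) -
        (h - g1 - g2) * (g1 + g2 + h + 2 * g2) + (x1 + x2 + y - 4) * g2 ^ 2) =
        (h - g1 - g2) * (x2 * (g1 + h) ^ 2 + (x1 + y) * g2 ^ 2 - (g2 + (g1 + h)) ^ 2) +
        2 * g1 * g2 ^ 2 * (x1 + x2 + y - 4) := by ring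
      rw [e]
      have : 0 ≤ h - g1 - g2 := by linarith
      have := mul_nonneg this (sub_nonneg.2 h2)
      have : 0 ≤ 2 * g1 * g2 ^ 2 * (x1 + x2 + y - 4) := by
        have : 0 ≤ x1 + x2 + y - 4 := by linarith
        positivity
      linarith
    have l1 := nonneg_of_mul_nonneg_right j1 k1
    have l2 := nonneg_of_mul_nonneg_right j2 k2
    have l3 : 0 ≤ (x1 + x2 + y - 4) * (g1 * g2) := by
      have : 0 ≤ x1 + x2 + y - 4 := by linarith
      positivity
    have l4 : 0 ≤ (h - g1 - g2) * (g1 + g2 + h) := by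
      have : 0 ≤ h - g1 - g2 := by linarith
      positivity
    nlinarith
  induction X with
  | leaf =>
    intro r a A b B h hχ hg
    obtain ⟨g0, h0, -, e2⟩ := ec_use hδ h
    rcases edge_cases hδ h.1 with ⟨h1, h2⟩ | ⟨-, rfl⟩ | ⟨_, _, _, _, h1, _⟩
    · exact (e2 h1 h2).ge
    · have h4 : bb r leaf = 1 / r ^ 2 := by simp [bb, RT.u, RT.p]
      have h5 := four_le_inv hδ hδ2
      rw [← h4] at h5
      have h6 : 0 ≤ bb 0 (node a A b B) := bb_nonneg
      have h7 : (gg r leaf + gg 0 (node a A b B)) ^ 2 ≤ 4 * gg 0 (node a A b B) ^ 2 := by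
        nlinarith
      have h8 : 4 * gg 0 (node a A b B) ^ 2 ≤ bb r leaf * gg 0 (node a A b B) ^ 2 :=
        mul_le_mul_of_nonneg_right h5 (sq_nonneg _)
      have h9 : 0 ≤ bb 0 (node a A b B) * gg r leaf ^ 2 := by positivity
      linarith
    · exact absurd h1 (by simp)
  | node c C d D iC iD =>
    intro r a A b B h hχ hg
    obtain ⟨g0, h0, -, e2⟩ := ec_use hδ h
    rcases edge_cases hδ h.1 with ⟨h1, h2⟩ | ⟨h1, _⟩ | ⟨_, _, _, _, -, rfl⟩
    · exact (e2 h1 h2).ge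
    · exact absurd h1 (by simp)
    · obtain ⟨s1, s2, s3, s4, s5, s6, s7, s8, s9, s10, s11⟩ := split_zero hδ h
      have i1 := iC _ _ _ _ _ s1 (by rw [s6]; rw [s4] at hχ; linarith)
        (by rw [s5]; rw [s3] at hg; linarith)
      have i2 := iD _ _ _ _ _ s2 (by rw [s8]; rw [s4] at hχ; linarith)
        (by rw [s7]; rw [s3] at hg; linarith)
      rw [s5, s6] at i1
      rw [s7, s8] at i2
      rw [s3] at hg
      rw [s4] at hχ
      rw [s3, s4]
      exact alg s9 s10 s11 hg hχ i1 i2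

/-- weak bound for light branches -/
theorem grp3 {δ : ℝ} (hδ : 0 < δ) (hδ2 : δ ≤ 1 / 2) (X : RT) : ∀ (r a : ℝ) (A : RT) (b : ℝ)
    (B : RT), CC δ (X, r, node a A b B) → gg r X < gg 0 (node a A b B) →
    (gg r X + gg 0 (node a A b B)) ^ 2 ≤ bb r X * (gg r X + gg 0 (node a A b B)) ^ 2 +
      (bb r X + bb 0 (node a A b B)) * gg r X ^ 2 := by
  have alg : ∀ {g k x y : ℝ}, 0 < g → g < k → 0 ≤ x → 0 ≤ y →
      x * k ^ 2 + y * g ^ 2 = (g + k) ^ 2 →
      (g + k) ^ 2 ≤ x * (g + k) ^ 2 + (x + y) * g ^ 2 := by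
    intro g k x y hg hk hx hy e
    have : 0 ≤ x * (2 * g * k) := by
      have : 0 < k := hg.trans hk
      positivity
    have : 0 ≤ x * g ^ 2 := by positivity
    nlinarith
  induction X with
  | leaf =>
    intro r a A b B h hg
    obtain ⟨g0, h0, -, e2⟩ := ec_use hδ h
    rcases edge_cases hδ h.1 with ⟨h1, h2⟩ | ⟨-, rfl⟩ | ⟨_, _, _, _, h1, _⟩
    · exact alg g0 hg bb_nonneg bb_nonneg (e2 h1 h2)
    · have h4 : bb r leaf = 1 / r ^ 2 := by simp [bb, RT.u, RT.p]
      have h5 := four_le_inv hδ hδ2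
      rw [← h4] at h5
      have h6 : 0 ≤ bb 0 (node a A b B) := bb_nonneg
      have h8 : 4 * (gg r leaf + gg 0 (node a A b B)) ^ 2 ≤
        bb r leaf * (gg r leaf + gg 0 (node a A b B)) ^ 2 :=
        mul_le_mul_of_nonneg_right h5 (sq_nonneg _)
      have h9 : 0 ≤ (bb r leaf + bb 0 (node a A b B)) * gg r leaf ^ 2 := by
        have : 0 ≤ bb r leaf := bb_nonneg
        positivity
      have h10 : 0 ≤ (gg r leaf + gg 0 (node a A b B)) ^ 2 := sq_nonneg _
      linarith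
    · exact absurd h1 (by simp)
  | node c C d D iC iD =>
    intro r a A b B h hg
    obtain ⟨g0, h0, -, e2⟩ := ec_use hδ h
    rcases edge_cases hδ h.1 with ⟨h1, h2⟩ | ⟨h1, _⟩ | ⟨_, _, _, _, -, rfl⟩
    · exact alg g0 hg bb_nonneg bb_nonneg (e2 h1 h2)
    · exact absurd h1 (by simp)
    · obtain ⟨s1, s2, s3, s4, s5, s6, s7, s8, s9, s10, s11⟩ := split_zero hδ h
      have i1 := iC _ _ _ _ _ s1 (by rw [s5]; rw [s3] at hg; linarith)
      have i2 := iD _ _ _ _ _ s2 (by rw [s7]; rw [s3] at hg; linarith)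
      rw [s5, s6] at i1
      rw [s7, s8] at i2
      rw [s3, s4]
      have b1 : 0 ≤ bb c C := bb_nonneg
      have b2 : 0 ≤ bb d D := bb_nonneg
      have b3 : 0 ≤ bb 0 (node a A b B) := bb_nonneg
      have b4 : 0 ≤ (bb c C + bb d D + bb 0 (node a A b B)) * (gg c C * gg d D) := by positivity
      have b5 : 0 ≤ (gg c C + gg d D + gg 0 (node a A b B)) ^ 2 := sq_nonneg _
      nlinarith

theorem heavy_alg {g h b c : ℝ} (hg : 0 < g) (hh : 0 < h) (hle : h ≤ g) (hb : 0 ≤ b)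
    (hχ : b + c < 4) (hc : 3 * (g + h) + (b + c) / 2 * h ≤ c * (g + h))
    (e : b * h ^ 2 + c * g ^ 2 = (g + h) ^ 2) : False := by
  have h1 : (g - h) * (3 * (g + h) + (b + c) / 2 * h) ≤ (g - h) * (c * (g + h)) :=
    mul_le_mul_of_nonneg_left hc (sub_nonneg.2 hle)
  have h2 : (g + h) * (3 * (g - h) + (b + c) / 2 * h) ≤ (g + h) * (g + h) := by
    nlinarith
  have h3 : 3 * (g - h) + (b + c) / 2 * h ≤ g + h := le_of_mul_le_mul_left h2 (by linarith)
  have h4 : 6 * (g + h) ≤ (b + c) * (2 * g + h) := by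
    have : 0 ≤ b * (g + h) := by positivity
    nlinarith
  have h5 : 6 * (g + h) * h ≤ (8 * h - 4 * g) * (2 * g + h) := by
    have h6 : (b + c) * (2 * g + h) * h ≤ (8 * h - 4 * g) * (2 * g + h) := by
      have h7 : (b + c) * h ≤ 8 * h - 4 * g := by linarith
      have := mul_le_mul_of_nonneg_right h7 (show 0 ≤ 2 * g + h by linarith)
      linarith
    have := mul_le_mul_of_nonneg_right h4 hh.le
    linarith
  have h8 : (g - h) * (8 * g + 2 * h) ≤ 0 := by nlinarith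
  have h9 : g ≤ h := by
    by_contra hc'
    push Not at hc'
    have : 0 < (g - h) * (8 * g + 2 * h) := mul_pos (sub_pos.2 hc') (by linarith)
    linarith
  have h10 : g = h := le_antisymm h9 hle
  subst h10
  have h11 : (b + c - 4) * g ^ 2 = 0 := by linear_combination e
  rcases mul_eq_zero.1 h11 with h12 | h12
  · linarith
  · have : 0 < g ^ 2 := by positivity
    linarith

/-- there is no branch heavier than three others -/
theorem heavy {δ : ℝ} (hδ : 0 < δ) (hδ2 : δ ≤ 1 / 2) (X : RT) : ∀ (r a : ℝ) (A : RT) (b : ℝ)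
    (B : RT), CC δ (X, r, node a A b B) → bb r X + bb 0 (node a A b B) < 4 →
    gg 0 (node a A b B) ≤ gg r X →
    3 * (gg r X + gg 0 (node a A b B)) +
      (bb r X + bb 0 (node a A b B)) / 2 * gg 0 (node a A b B) ≤
      bb 0 (node a A b B) * (gg r X + gg 0 (node a A b B)) → False := by
  induction X with
  | leaf =>
    intro r a A b B h hχ hg hc
    obtain ⟨g0, h0, -, e2⟩ := ec_use hδ h
    rcases edge_cases hδ h.1 with ⟨h1, h2⟩ | ⟨-, rfl⟩ | ⟨_, _, _, _, h1, _⟩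
    · exact heavy_alg g0 h0 hg bb_nonneg hχ hc (e2 h1 h2)
    · have h4 : bb r leaf = 1 / r ^ 2 := by simp [bb, RT.u, RT.p]
      have h5 := four_le_inv hδ hδ2
      rw [← h4] at h5
      have h6 : 0 ≤ bb 0 (node a A b B) := bb_nonneg
      linarith
    · exact absurd h1 (by simp)
  | node c C d D iC iD =>
    intro r a A b B h hχ hg hc
    obtain ⟨g0, h0, -, e2⟩ := ec_use hδ h
    rcases edge_cases hδ h.1 with ⟨h1, h2⟩ | ⟨h1, _⟩ | ⟨_, _, _, _, -, rfl⟩
    · exact heavy_alg g0 h0 hg bb_nonneg hχ hc (e2 h1 h2)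
    · exact absurd h1 (by simp)
    · obtain ⟨s1, s2, s3, s4, s5, s6, s7, s8, s9, s10, s11⟩ := split_zero hδ h
      rw [s3, s4] at hc
      rw [s4] at hχ
      rcases le_or_gt (gg d D + gg 0 (node a A b B)) (gg c C) with hl | hl
      · have k := grp1 hδ hδ2 D _ _ _ _ _ s2 (by rw [s8]; linarith) (by rw [s7]; linarith)
        rw [s7, s8] at k
        refine iC _ _ _ _ _ s1 (by rw [s6]; linarith) (by rw [s5]; exact hl) ?_
        rw [s5, s6]
        nlinarith
      · rcases le_or_gt (gg c C + gg 0 (node a A b B)) (gg d D) with hl' | hl'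
        · have k := grp1 hδ hδ2 C _ _ _ _ _ s1 (by rw [s6]; linarith) (by rw [s5]; linarith)
          rw [s5, s6] at k
          refine iD _ _ _ _ _ s2 (by rw [s8]; linarith) (by rw [s7]; exact hl') ?_
          rw [s7, s8]
          nlinarith
        · have k1 := grp1 hδ hδ2 C _ _ _ _ _ s1 (by rw [s6]; linarith) (by rw [s5]; exact hl)
          have k2 := grp1 hδ hδ2 D _ _ _ _ _ s2 (by rw [s8]; linarith) (by rw [s7]; exact hl')
          rw [s5, s6] at k1
          rw [s7, s8] at k2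
          have b1 : 0 ≤ bb c C := bb_nonneg
          have b2 : 0 ≤ bb d D := bb_nonneg
          have b3 : 0 ≤ bb 0 (node a A b B) := bb_nonneg
          have G : 0 < gg c C + gg d D + gg 0 (node a A b B) := by linarith
          have : 5 * (gg c C + gg d D + gg 0 (node a A b B)) ≤
              (bb c C + bb d D + bb 0 (node a A b B)) *
              (gg c C + gg d D + gg 0 (node a A b B)) := by
            have : 0 ≤ (bb c C + bb d D + bb 0 (node a A b B)) / 2 *
              (gg c C + gg d D + gg 0 (node a A b B)) := by positivity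
            linarith
          have := le_of_mul_le_mul_right this G
          linarith

theorem light_aux {g1 g2 h x1 x2 y : ℝ} (p1 : 0 < g1) (p2 : 0 < g2) (p3 : 0 < h)
    (hle : g1 + g2 ≤ h) (hχ : 4 ≤ x1 + x2 + y)
    (h1 : (g1 + (g2 + h)) ^ 2 ≤ x1 * (g2 + h) ^ 2 + (x2 + y) * g1 ^ 2)
    (h2 : (g2 + (g1 + h)) ^ 2 ≤ x2 * (g1 + h) ^ 2 + (x1 + y) * g2 ^ 2)
    (h3 : (x1 + x2) * h ^ 2 + y * (g1 + g2) ^ 2 ≤ (g1 + g2 + h) ^ 2) :
    g1 + g2 = h ∧ x1 + x2 + y = 4 ∧ 3 ≤ x1 + x2 := by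
  have k1 : 0 < g2 + h - g1 := by linarith
  have k2 : 0 < g1 + h - g2 := by linarith
  have k3 : 0 ≤ h - g1 - g2 := by linarith
  have k4 : 0 ≤ x1 + x2 + y - 4 := by linarith
  have j1 : 0 ≤ (g2 + h - g1) * ((h - g1 - g2) * (x1 * (g1 + g2 + h)) -
      (h - g1 - g2) * (g1 + g2 + h + 2 * g1) + (x1 + x2 + y - 4) * g1 ^ 2) := by
    have e : (g2 + h - g1) * ((h - g1 - g2) * (x1 * (g1 + g2 + h)) -
      (h - g1 - g2) * (g1 + g2 + h + 2 * g1) + (x1 + x2 + y - 4) * g1 ^ 2) =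
      (h - g1 - g2) * (x1 * (g2 + h) ^ 2 + (x2 + y) * g1 ^ 2 - (g1 + (g2 + h)) ^ 2) +
      2 * g2 * g1 ^ 2 * (x1 + x2 + y - 4) := by ring
    rw [e]
    have := mul_nonneg k3 (sub_nonneg.2 h1)
    have : 0 ≤ 2 * g2 * g1 ^ 2 * (x1 + x2 + y - 4) := by positivity
    linarith
  have j2 : 0 ≤ (g1 + h - g2) * ((h - g1 - g2) * (x2 * (g1 + g2 + h)) -
      (h - g1 - g2) * (g1 + g2 + h + 2 * g2) + (x1 + x2 + y - 4) * g2 ^ 2) := by
    have e : (g1 + h - g2) * ((h - g1 - g2) * (x2 * (g1 + g2 + h)) -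
      (h - g1 - g2) * (g1 + g2 + h + 2 * g2) + (x1 + x2 + y - 4) * g2 ^ 2) =
      (h - g1 - g2) * (x2 * (g1 + h) ^ 2 + (x1 + y) * g2 ^ 2 - (g2 + (g1 + h)) ^ 2) +
      2 * g1 * g2 ^ 2 * (x1 + x2 + y - 4) := by ring
    rw [e]
    have := mul_nonneg k3 (sub_nonneg.2 h2)
    have : 0 ≤ 2 * g1 * g2 ^ 2 * (x1 + x2 + y - 4) := by positivity
    linarith
  have l1 := nonneg_of_mul_nonneg_right j1 k1
  have l2 := nonneg_of_mul_nonneg_right j2 k2
  have l5 : (g1 + g2 + h) * (h - g1 - g2) + 2 * (x1 + x2 + y - 4) * (g1 * g2) ≤ 0 := by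
    nlinarith
  have l6 : 0 ≤ (g1 + g2 + h) * (h - g1 - g2) := by positivity
  have l7 : 0 ≤ 2 * (x1 + x2 + y - 4) * (g1 * g2) := by positivity
  have l8 : (g1 + g2 + h) * (h - g1 - g2) = 0 := by linarith
  have l9 : 2 * (x1 + x2 + y - 4) * (g1 * g2) = 0 := by linarith
  have m1 : h - g1 - g2 = 0 := by
    rcases mul_eq_zero.1 l8 with h | h
    · linarith
    · exact h
  have m2 : x1 + x2 + y - 4 = 0 := by
    rcases mul_eq_zero.1 l9 with h | h
    · linarith
    · exact absurd h (by positivity)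
  have m3 : h = g1 + g2 := by linarith
  have m4 : y = 4 - x1 - x2 := by linarith
  subst m3
  subst m4
  refine ⟨rfl, by linarith, ?_⟩
  have n1 : 0 ≤ (g2 * (2 * (g1 + g2))) * (x1 * (2 * (g1 + g2)) - (2 * (g1 + g2) + 2 * g1)) := by
    nlinarith
  have n2 : 0 ≤ (g1 * (2 * (g1 + g2))) * (x2 * (2 * (g1 + g2)) - (2 * (g1 + g2) + 2 * g2)) := by
    nlinarith
  have n3 := nonneg_of_mul_nonneg_right n1 (by positivity)
  have n4 := nonneg_of_mul_nonneg_right n2 (by positivity)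
  have n5 : 3 * (2 * (g1 + g2)) ≤ (x1 + x2) * (2 * (g1 + g2)) := by linarith
  exact le_of_mul_le_mul_right n5 (by positivity)

/-- there is no edge with label zero between two vertices of degree three -/
theorem nd_zero {δ : ℝ} (hδ : 0 < δ) (hδ2 : δ ≤ 1 / 2) {c : ℝ} {C : RT} {d : ℝ} {D : RT}
    {a : ℝ} {A : RT} {b : ℝ} {B : RT} (h : CC δ (node c C d D, 0, node a A b B)) : False := by
  have h' := h.of_ul hδ (UL.swap _ _ _)
  obtain ⟨s1, s2, s3, s4, s5, s6, s7, s8, s9, s10, s11⟩ := split_zero hδ h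
  obtain ⟨t1, t2, t3, t4, t5, t6, t7, t8, t9, t10, t11⟩ := split_zero hδ h'
  obtain ⟨-, -, e1, -⟩ := ec_use hδ h
  have b1 : 0 ≤ bb c C := bb_nonneg
  have b2 : 0 ≤ bb d D := bb_nonneg
  have b3 : 0 ≤ bb a A := bb_nonneg
  have b4 : 0 ≤ bb b B := bb_nonneg
  rcases le_or_gt 4 (bb 0 (node c C d D) + bb 0 (node a A b B)) with hχ | hχ
  · have main : ∀ {c : ℝ} {C : RT} {d : ℝ} {D : RT} {a : ℝ} {A : RT} {b : ℝ} {B : RT},
        CC δ (node c C d D, 0, node a A b B) →
        4 ≤ bb 0 (node c C d D) + bb 0 (node a A b B) →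
        gg 0 (node c C d D) ≤ gg 0 (node a A b B) →
        gg 0 (node c C d D) = gg 0 (node a A b B) ∧
        bb 0 (node c C d D) + bb 0 (node a A b B) = 4 ∧ 3 ≤ bb 0 (node c C d D) := by
      intro c C d D a A b B h hχ hle
      obtain ⟨s1, s2, s3, s4, s5, s6, s7, s8, s9, s10, s11⟩ := split_zero hδ h
      obtain ⟨-, -, e1, -⟩ := ec_use hδ h
      rw [s4] at hχ
      rw [s3] at hle
      have k1 := grp2 hδ hδ2 C _ _ _ _ _ s1 (by rw [s6]; linarith) (by rw [s5]; linarith)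
      have k2 := grp2 hδ hδ2 D _ _ _ _ _ s2 (by rw [s8]; linarith) (by rw [s7]; linarith)
      rw [s5, s6] at k1
      rw [s7, s8] at k2
      rw [s3, s4] at e1
      rw [s3, s4]
      exact light_aux s9 s10 s11 hle hχ k1 k2 e1
    rcases le_total (gg 0 (node c C d D)) (gg 0 (node a A b B)) with hl | hl
    · obtain ⟨m1, m2, m3⟩ := main h hχ hl
      obtain ⟨n1, n2, n3⟩ := main h' (by linarith) m1.ge
      linarith
    · obtain ⟨m1, m2, m3⟩ := main h' (by linarith) hl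
      obtain ⟨n1, n2, n3⟩ := main h hχ m1.ge
      linarith
  · rw [s4, t4] at hχ
    -- bounds for all four branches, unless one of them is heavy
    rcases le_or_gt (gg d D + gg 0 (node a A b B)) (gg c C) with hl | hl
    · have k2 := grp1 hδ hδ2 D _ _ _ _ _ s2 (by rw [s8, t4]; linarith)
        (by rw [s7]; linarith)
      have k3 := grp1 hδ hδ2 A _ _ _ _ _ t1 (by rw [t6, s4]; linarith)
        (by rw [t5, s3]; rw [t3] at hl; linarith)
      have k4 := grp1 hδ hδ2 B _ _ _ _ _ t2 (by rw [t8, s4]; linarith)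
        (by rw [t7, s3]; rw [t3] at hl; linarith)
      rw [s7, s8, t3, t4] at k2
      rw [t5, t6, s3, s4] at k3
      rw [t7, t8, s3, s4] at k4
      refine heavy hδ hδ2 C _ _ _ _ _ s1 (by rw [s6, t4]; linarith) (by rw [s5]; exact hl) ?_
      rw [s5, s6, t3, t4]
      nlinarith
    · rcases le_or_gt (gg c C + gg 0 (node a A b B)) (gg d D) with hl' | hl'
      · have k1 := grp1 hδ hδ2 C _ _ _ _ _ s1 (by rw [s6, t4]; linarith)
          (by rw [s5]; linarith)
        have k3 := grp1 hδ hδ2 A _ _ _ _ _ t1 (by rw [t6, s4]; linarith)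
          (by rw [t5, s3]; rw [t3] at hl'; linarith)
        have k4 := grp1 hδ hδ2 B _ _ _ _ _ t2 (by rw [t8, s4]; linarith)
          (by rw [t7, s3]; rw [t3] at hl'; linarith)
        rw [s5, s6, t3, t4] at k1
        rw [t5, t6, s3, s4] at k3
        rw [t7, t8, s3, s4] at k4
        refine heavy hδ hδ2 D _ _ _ _ _ s2 (by rw [s8, t4]; linarith) (by rw [s7]; exact hl') ?_
        rw [s7, s8, t3, t4]
        nlinarith
      · have k1 := grp1 hδ hδ2 C _ _ _ _ _ s1 (by rw [s6, t4]; linarith)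
          (by rw [s5]; exact hl)
        have k2 := grp1 hδ hδ2 D _ _ _ _ _ s2 (by rw [s8, t4]; linarith)
          (by rw [s7]; exact hl')
        rw [s5, s6, t3, t4] at k1
        rw [s7, s8, t3, t4] at k2
        rcases le_or_gt (gg b B + gg 0 (node c C d D)) (gg a A) with hr | hr
        · have k4 := grp1 hδ hδ2 B _ _ _ _ _ t2 (by rw [t8, s4]; linarith)
            (by rw [t7]; linarith)
          rw [t7, t8, s3, s4] at k4
          refine heavy hδ hδ2 A _ _ _ _ _ t1 (by rw [t6, s4]; linarith)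
            (by rw [t5]; exact hr) ?_
          rw [t5, t6, s3, s4]
          nlinarith
        · rcases le_or_gt (gg a A + gg 0 (node c C d D)) (gg b B) with hr' | hr'
          · have k3 := grp1 hδ hδ2 A _ _ _ _ _ t1 (by rw [t6, s4]; linarith)
              (by rw [t5]; linarith)
            rw [t5, t6, s3, s4] at k3
            refine heavy hδ hδ2 B _ _ _ _ _ t2 (by rw [t8, s4]; linarith)
              (by rw [t7]; exact hr') ?_
            rw [t7, t8, s3, s4]
            nlinarith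
          · have k3 := grp1 hδ hδ2 A _ _ _ _ _ t1 (by rw [t6, s4]; linarith)
              (by rw [t5]; exact hr)
            have k4 := grp1 hδ hδ2 B _ _ _ _ _ t2 (by rw [t8, s4]; linarith)
              (by rw [t7]; exact hr')
            rw [t5, t6, s3, s4] at k3
            rw [t7, t8, s3, s4] at k4
            have G : 0 < gg c C + gg d D + gg a A + gg b B := by linarith
            have S : 0 ≤ (bb c C + bb d D + (bb a A + bb b B)) / 2 *
              (gg c C + gg d D + gg a A + gg b B) := by positivity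
            have : 4 * (gg c C + gg d D + gg a A + gg b B) ≤
                (bb c C + bb d D + (bb a A + bb b B)) *
                (gg c C + gg d D + gg a A + gg b B) := by
              nlinarith
            have := le_of_mul_le_mul_right this G
            linarith

/-- the label above a leaf is not on the boundary -/
theorem nd_leaf {δ : ℝ} (hδ : 0 < δ) (hδ2 : δ < 1 / 4) {a : ℝ} {A : RT} {b : ℝ} {B : RT}
    (h : CC δ (leaf, δ, node a A b B)) : False := by
  obtain ⟨g0, h0, e1, -⟩ := ec_use hδ h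
  obtain ⟨n1, n2, n3, ⟨n4, n5, n6, n7⟩⟩ := BxU.nn hδ h.1
  have hA := NN_tot n6 n4
  have hB := NN_tot n7 n5
  have hL : 0 < (leaf : RT).p + δ := by simp [RT.p, hδ]
  have hA' := h.of_ul hδ (UL.swap _ _ _)
  have t1 : CC δ (A, a, node b B δ leaf) := hA'.of_ul hδ (UL.toA _ _ _ _ _ _)
  have t2 : CC δ (B, b, node a A δ leaf) := hA'.of_ul hδ (UL.toB _ _ _ _ _ _)
  have gL : gg δ leaf = 1 / δ := by simp [gg, RT.p]
  have bL : bb δ leaf = 1 / δ ^ 2 := by simp [bb, RT.p, RT.u]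
  have e3 := gg_node (a := a) (A := A) (b := b) (B := B) hA hB
  have e4 := bb_node (a := a) (A := A) (b := b) (B := B) hA hB
  have e5 := gg_node (a := b) (A := B) (b := δ) (B := leaf) hB hL
  have e6 := bb_node (a := b) (A := B) (b := δ) (B := leaf) hB hL
  have e7 := gg_node (a := a) (A := A) (b := δ) (B := leaf) hA hL
  have e8 := bb_node (a := a) (A := A) (b := δ) (B := leaf) hA hL
  have gA : 0 < gg a A := by unfold gg; positivity
  have gB : 0 < gg b B := by unfold gg; positivity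
  have bA : 0 ≤ bb a A := bb_nonneg
  have bB : 0 ≤ bb b B := bb_nonneg
  rw [gL, bL, e3, e4] at e1
  rw [gL] at g0
  -- the other two branches are light
  obtain ⟨s, hs⟩ : ∃ s, s = gg a A + gg b B := ⟨_, rfl⟩
  have hs0 : 0 < s := by rw [hs]; linarith
  have h5 : s * (1 / δ) ≤ 1 / δ + s := by
    have h6 : (s * (1 / δ)) ^ 2 ≤ (1 / δ + s) ^ 2 := by
      rw [← hs] at e1
      have : 1 / δ ^ 2 * s ^ 2 = (s * (1 / δ)) ^ 2 := by rw [mul_pow, one_div_pow]; ring
      rw [this] at e1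
      have : 0 ≤ (bb a A + bb b B) * (1 / δ) ^ 2 := by positivity
      linarith
    exact (pow_le_pow_iff_left₀ (by positivity) (by positivity) two_ne_zero).1 h6
  have h6 : s ≤ 1 + δ * s := by
    have := mul_le_mul_of_nonneg_left h5 hδ.le
    have h7 : δ * (s * (1 / δ)) = s := by field_simp
    have h8 : δ * (1 / δ + s) = 1 + δ * s := by field_simp
    linarith
  have h7 : 3 * s < 1 / δ := by
    rw [lt_div_iff₀ hδ]
    have : s * δ < s * (1 / 4) := mul_lt_mul_of_pos_left hδ2 hs0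
    nlinarith
  have k1 := grp3 hδ (by linarith) A _ _ _ _ _ t1 (by rw [e5, gL]; linarith)
  have k2 := grp3 hδ (by linarith) B _ _ _ _ _ t2 (by rw [e7, gL]; linarith)
  rw [e5, e6, gL, bL] at k1
  rw [e7, e8, gL, bL] at k2
  obtain ⟨L, hL'⟩ : ∃ L, L = 1 / δ := ⟨_, rfl⟩
  obtain ⟨M, hM⟩ : ∃ M, M = 1 / δ ^ 2 := ⟨_, rfl⟩
  have hM0 : 0 < M := by rw [hM]; positivity
  rw [← hL', ← hM] at k1 k2 e1
  rw [← hL'] at h7 g0
  obtain ⟨x, hx⟩ : ∃ x, x = bb a A := ⟨_, rfl⟩
  obtain ⟨y, hy⟩ : ∃ y, y = bb b B := ⟨_, rfl⟩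
  obtain ⟨g, hg⟩ : ∃ g, g = gg a A := ⟨_, rfl⟩
  obtain ⟨k, hk⟩ : ∃ g, g = gg b B := ⟨_, rfl⟩
  rw [← hx] at k1 k2 e1 bA
  rw [← hy] at k1 k2 e1 bB
  rw [← hg] at k1 k2 e1 gA hs
  rw [← hk] at k1 k2 e1 gB hs
  subst hs
  -- now a purely algebraic contradiction
  have hG : 0 < L + (g + k) := by linarith
  have c1 : 2 * (L + (g + k)) ^ 2 ≤ (x + y) * (L + (g + k)) ^ 2 +
      (x + y + M) * (g ^ 2 + k ^ 2) := by nlinarith
  rcases le_or_gt ((x + y + M) * (g ^ 2 + k ^ 2)) (2 * (L + (g + k)) ^ 2) with hc | hc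
  · have c2 : (L - (g + k)) * (2 * (L + (g + k)) ^ 2 - (x + y + M) * (g ^ 2 + k ^ 2)) ≤
        (L - (g + k)) * ((x + y) * (L + (g + k)) ^ 2) :=
      mul_le_mul_of_nonneg_left (by linarith) (by linarith)
    have c3 : (L + (g + k)) * ((x + y) * (L - (g + k)) * (L + (g + k)) +
        (x + y + M) * (g + k) ^ 2) ≤ (L + (g + k)) * (L + (g + k)) ^ 2 :=
      mul_le_mul_of_nonneg_left (by nlinarith) hG.le
    have c4 : 0 ≤ (x + y + M) * (g * k) * (L + (g + k)) := by positivity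
    have c5 : 0 ≤ (x + y + M) * (g ^ 2 + k ^ 2) * (g + k) := by positivity
    have c6 : 0 < (L + (g + k)) ^ 2 * (L - 3 * (g + k)) := mul_pos (by positivity) (by linarith)
    nlinarith
  · have c2 : (x + y + M) * (g ^ 2 + k ^ 2) ≤ (x + y + M) * (g + k) ^ 2 :=
      mul_le_mul_of_nonneg_left (by nlinarith [mul_pos gA gB]) (by linarith)
    have c3 : (x + y + M) * (g + k) ^ 2 ≤ (L + (g + k)) ^ 2 := by
      have : 0 ≤ (x + y) * (L ^ 2 - (g + k) ^ 2) := by
        have : 0 ≤ L ^ 2 - (g + k) ^ 2 := by nlinarith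
        positivity
      nlinarith
    have : 0 < (L + (g + k)) ^ 2 := by positivity
    linarith

/-- Minimal labels are positive and satisfy all stationarity equations. -/
theorem CC_main {δ : ℝ} (hδ : 0 < δ) (hδ2 : δ < 1 / 4) {T : UT} (h : CC δ T)
    (hs : 3 ≤ (shU T).1.size + (shU T).2.size) : PsU T ∧ EE T := by
  have key : ∀ A r B, UL T (A, r, B) → sl δ A r := by
    intro A r B hT
    have hc := h.of_ul hδ hT
    rcases edge_cases hδ hc.1 with ⟨h1, _⟩ | ⟨rfl, rfl⟩ | ⟨c, C, d, D, rfl, rfl⟩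
    · exact h1
    · exfalso
      cases B with
      | leaf =>
        have := hT.sh.size
        simp [shU, RT.sh, Sh.size] at this hs
        omega
      | node a A b B => exact nd_leaf hδ hδ2 hc
    · exfalso
      cases B with
      | leaf =>
        have h2 : δ ≤ 0 := hc.1.2.1
        linarith
      | node a A b B => exact nd_zero hδ (by linarith) hc
  have hE : EE T := by
    rintro ⟨A, r, B⟩ hT
    exact (h.2 _ hT).2 (key A r B hT) (key B r A (hT.trans (UL.swap _ _ _)))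
  refine ⟨?_, hE⟩
  -- all labels are positive
  have pos : ∀ A r B, UL T (A, r, B) → 0 < r := by
    intro A r B hT
    have := key A r B hT
    cases A with
    | leaf => exact hδ.trans this
    | node => exact this
  have hrec : ∀ A r B, UL T (A, r, B) → Ps A := by
    intro A
    induction A with
    | leaf => intro _ _ _; trivial
    | node a A b B iA iB =>
      intro r C hT
      have h1 := hT.trans (UL.toA _ _ _ _ _ _)
      have h2 := hT.trans (UL.toB _ _ _ _ _ _)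
      exact ⟨el_pos_iff.2 (pos _ _ _ h1), el_pos_iff.2 (pos _ _ _ h2), iA _ _ h1, iB _ _ h2⟩
  obtain ⟨A, r, B⟩ := T
  have h1 := UL.refl (A, r, B)
  have h2 := UL.swap A r B
  exact ⟨el_pos_iff.2 (pos _ _ _ h1), el_pos_iff.2 (pos _ _ _ h1), hrec _ _ _ h1, hrec _ _ _ h2⟩

end Pool.Agent.H64.Sm
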