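import Pool.Agent.H64.SmExch2

/-!
# Branches of a minimal tree (MP_ebc12b_co, helper64)
-/

set_option autoImplicit false

namespace Pool.Agent.H64.Sm

open Pool.Agent.Helper877_Smith

open RT Mk

/-- `X` is a branch of `T` -/
def Occ (T : UT) (X : RT) : Prop := ∃ r Y, UL T (X, r, Y)

theorem Occ.left {T : UT} {a b : ℝ} {A B : RT} (h : Occ T (RT.node a A b B)) : Occ T A := by
  obtain ⟨r, Y, h⟩ := h
  exact ⟨a, _, h.trans (UL.toA _ _ _ _ _ _)⟩

theorem Occ.right {T : UT} {a b : ℝ} {A B : RT} (h : Occ T (RT.node a A b B)) : Occ T B := by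
  obtain ⟨r, Y, h⟩ := h
  exact ⟨b, _, h.trans (UL.toB _ _ _ _ _ _)⟩

theorem node_bounds {T : UT} (hG : GM T) {a b : ℝ} {A B : RT} (h : Occ T (RT.node a A b B)) :
    0 < A.u ∧ 0 < B.u ∧ A.u * B.u ≤ (RT.node a A b B).u * (A.u + B.u) ∧
      4 * (RT.node a A b B).u ≤ A.u + B.u ∧
      (A.u = B.u → 2 * (RT.node a A b B).u = A.u) := by
  obtain ⟨r, Y, h⟩ := h
  have hG' := hG.of_ul h
  have hN := PsU_nn hG'.1
  have V := vert_of hN hG'.2.1
  obtain ⟨-, -, ⟨h3, h4, h5, h6⟩, -⟩ := hN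
  have uA := NN_u_pos h5
  have uB := NN_u_pos h6
  obtain ⟨v1, v2, v3, v4, v5, -⟩ := V
  rw [RT.u]
  obtain ⟨α, hα⟩ : ∃ α, α = A.p + a := ⟨_, rfl⟩
  obtain ⟨β, hβ⟩ : ∃ β, β = B.p + b := ⟨_, rfl⟩
  obtain ⟨γ, hγ⟩ : ∃ γ, γ = Y.p + r := ⟨_, rfl⟩
  rw [← hα, ← hβ, ← hγ] at v4 v5
  rw [← hα] at v1 ⊢
  rw [← hβ] at v2 ⊢
  rw [← hγ] at v3
  have hs : 0 < α + β := by positivity
  have h1 : 4 * ((β ^ 2 * A.u + α ^ 2 * B.u) / (α + β) ^ 2) =
      A.u + B.u - (α - β) ^ 2 * (α ^ 2 + 3 * α * β + β ^ 2 + 2 * (α + β) * γ) / (α + β) ^ 2 := by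
    rw [v4, v5]
    field_simp
    ring
  refine ⟨uA, uB, ?_, ?_, fun he => ?_⟩
  · rw [div_mul_eq_mul_div, le_div_iff₀ (by positivity)]
    nlinarith [sq_nonneg (β * A.u - α * B.u)]
  · rw [h1]
    have : 0 ≤ (α - β) ^ 2 * (α ^ 2 + 3 * α * β + β ^ 2 + 2 * (α + β) * γ) / (α + β) ^ 2 := by
      positivity
    linarith
  · have h2 : (α - β) * (α + β + γ) = 0 := by
      rw [v4, v5] at he
      linear_combination he
    have h3 : α = β := by
      rcases mul_eq_zero.1 h2 with h | h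
      · linarith
      · have : 0 < α + β + γ := by positivity
        linarith
    rw [h3, ← he]
    field_simp
    ring

/-! ### Local optimality for a relation -/

/-- local optimality -/
def StR (R : Mk → Mk → Prop) (T : Mk × Mk) : Prop :=
  ∀ x a y b L, MU T (nd x a, cmb L (nd y b)) → ¬ (R b x ∧ R a y)

theorem StR.use {R : Mk → Mk → Prop} {T : Mk × Mk} (h : StR R T) {x a c y b : Mk}
    (hT : MU T (nd x a, c)) (hc : InV c y b) : ¬ (R b x ∧ R a y) := by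
  obtain ⟨L, hL⟩ := hc
  exact h x a y b L (hT.trans (MU.congr (MR.refl _) hL))

/-- leaves are lighter than the other branches -/
def LNR (R : Mk → Mk → Prop) (n : ℕ) : Prop := ∀ t z, ¬ isLf z → z.mk ≤ n → R (lf t) z

theorem bal_sideR {R : Mk → Mk → Prop} {T : Mk × Mk} {n : ℕ} (hSt : StR R T) (hLN : LNR R n)
    (hm : T.1.mk + T.2.mk ≤ n) {t : Bool} {x c : Mk} (hT : MU T (nd (lf t) x, c))
    (hx : ¬ x.isLf) : c.Bal := by
  have hmk := hT.mk
  simp only [Mk.mk] at hmk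
  have hT' : MU T (nd x (lf t), c) := hT.trans (MU.congr (MR.swap _ _) (MR.refl _))
  refine bal_of fun y b hb => ⟨fun hy => ?_, fun hb' => ?_⟩
  · by_contra hbl
    have hle := hb.mk_le
    cases y with
    | nd _ _ => exact hy
    | lf t' =>
      exact hSt.use hT' hb.swap ⟨hLN t' x hx (by omega), hLN t b hbl (by omega)⟩
  · by_contra hyl
    have hle := hb.mk_le
    cases b with
    | nd _ _ => exact hb'
    | lf t' =>
      exact hSt.use hT' hb ⟨hLN t' x hx (by omega), hLN t y hyl (by omega)⟩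

/-- the structure of a locally optimal tree -/
theorem StR.struct {R : Mk → Mk → Prop} {T : Mk × Mk} {n : ℕ} (hSt : StR R T) (hLN : LNR R n)
    (hm : T.1.mk + T.2.mk ≤ n) (h4 : 4 ≤ T.1.sz + T.2.sz) :
    (∃ A B, MU T (A, B) ∧ ¬ A.isLf ∧ ¬ B.isLf ∧ A.Bal ∧ B.Bal) ∨
      ∃ t x c, MU T (lf t, nd x c) ∧ ¬ x.isLf ∧ ¬ c.isLf ∧ x.Bal ∧ c.Bal := by
  by_cases h : NUm T
  · left
    obtain ⟨A, B, h1, h2, h3⟩ := h.pair h4
    exact ⟨A, B, h1, h2, h3, (h.of_mu (h1.trans (MU.swap _ _))).bal h3, (h.of_mu h1).bal h2⟩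
  · right
    unfold NUm at h
    push Not at h
    obtain ⟨t, x, c, hx, hc, hT⟩ := h
    have h1 : MU T (nd (lf t) x, c) := hT.trans (MU.move _ _ _).symm
    have h2 : MU T (nd (lf t) c, x) :=
      (hT.trans (MU.congr (MR.refl _) (MR.swap _ _))).trans (MU.move _ _ _).symm
    exact ⟨t, x, c, hT, hx, hc, bal_sideR hSt hLN hm h2 hc, bal_sideR hSt hLN hm h1 hx⟩

/-- lifting the shape of a path -/
theorem sh_comb (L : List Sh) {t : Sh} : ∀ {X : RT}, X.sh = comb L t →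
    ∃ L' W, X = cmbL L' W ∧ W.sh = t := by
  induction L with
  | nil => exact fun {X} h => ⟨[], X, rfl, h⟩
  | cons s L ih =>
    intro X hX
    obtain ⟨a, B, b, C, rfl, h1, h2⟩ := sh_node (show X.sh = Sh.node s (comb L t) from hX)
    obtain ⟨L', W, h3, h4⟩ := ih h2
    exact ⟨(a, B, b) :: L', W, by rw [h3]; rfl, h4⟩

/-- the relation between the branches: every branch of the first shape has a larger norm than
every branch of the second shape -/
def RR (T : UT) (Q S : Sh) (b x : Mk) : Prop :=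
  ∀ B X : RT, Occ T B → Occ T X → B.sh = b.ex Q S → X.sh = x.ex Q S → X.u < B.u

/-- a minimal tree is locally optimal -/
theorem GM.st {T : UT} (hG : GM T) {Q S : Sh} {A B : Mk}
    (hu : UIso (shU T) (A.ex Q S, B.ex Q S)) : StR (RR T Q S) (A, B) := by
  rintro x a y b L hT ⟨h1, h2⟩
  have hu2 := hu.trans (hT.ex Q S)
  simp only [ex_cmb] at hu2
  obtain ⟨⟨V, r, W⟩, w1, w2⟩ := (lift_uiso hu2).1 T rfl
  simp only [shU, Prod.mk.injEq] at w2
  obtain ⟨w3, w4⟩ := w2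
  obtain ⟨ax, X, aa, A', rfl, e1, e2⟩ := sh_node w3
  obtain ⟨L', W', rfl, e3⟩ := sh_comb _ w4
  obtain ⟨ay, Y, ab, B', rfl, e4, e5⟩ := sh_node e3
  have hocc : ∀ {s : ℝ} {Z : RT} {t : ℝ} {C : RT} (L : List (ℝ × RT × ℝ)) {X : RT} {r : ℝ}
      {Y : RT}, UL T (Y, r, cmbL L (RT.node s Z t C)) → Occ T (RT.node s Z t C) := by
    intro s Z t C L
    induction L with
    | nil => exact fun {X r Y} h => ⟨r, Y, h.trans (UL.swap _ _ _)⟩
    | cons e L ih =>
      obtain ⟨s', Z', r'⟩ := e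
      intro X r Y h
      refine ih (X := X) (r := r') (Y := RT.node s' Z' r Y) ?_
      have u1 : UL (Y, r, RT.node s' Z' r' (cmbL L (RT.node s Z t C)))
          (RT.node s' Z' r Y, r', cmbL L (RT.node s Z t C)) := by
        have e1 : UL (Y, r, RT.node s' Z' r' (cmbL L (RT.node s Z t C)))
          (RT.node r Y s' Z', r', cmbL L (RT.node s Z t C)) := (UL.move _ _ _ _ _ _).symm
        exact e1.trans (UL.congr _ (RL.swap _ _ _ _) (RL.refl _))
      exact h.trans u1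
  have o1 : Occ T (RT.node ax X aa A') := ⟨r, _, w1⟩
  have o2 : Occ T (RT.node ay Y ab B') := hocc L' (X := X) w1
  exact exch (hG.of_ul w1) ⟨h1 B' X o2.right o1.left e5 e1, h2 A' Y o1.right o2.left e2 e4⟩

end Pool.Agent.H64.Sm
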