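import Pool.Agent.H64.SmGM

/-!
# Two-port reduction of a path in a tree (MP_ebc12b_co, helper64)
-/

set_option autoImplicit false

namespace Pool.Agent.H64.Sm

open Pool.Agent.Helper877_Smith

open RT

/-- grafting a list of labelled trees along a path -/
def cmbL : List (ℝ × RT × ℝ) → RT → RT
  | [], W => W
  | (s, Z, r) :: L, W => node s Z r (cmbL L W)

theorem cmbL_append (L : List (ℝ × RT × ℝ)) (s : ℝ) (Z : RT) (r : ℝ) (W : RT) :
    cmbL (L ++ [(s, Z, r)]) W = cmbL L (node s Z r W) := by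
  induction L with
  | nil => rfl
  | cons e L ih =>
    obtain ⟨s', Z', r'⟩ := e
    show node s' Z' r' (cmbL (L ++ [(s, Z, r)]) W) = node s' Z' r' (cmbL L (node s Z r W))
    rw [ih]

/-- positive labels along the path -/
def LP (L : List (ℝ × RT × ℝ)) : Prop := ∀ e ∈ L, 0 < e.1 ∧ Ps e.2.1 ∧ 0 < e.2.2

/-- energy of a branch, with the labels -/
noncomputable def en (a : ℝ) (A : RT) : ℝ := A.k + a + A.u / (A.p + a)

theorem en_node {a : ℝ} {A : RT} {b : ℝ} {B : RT} (hA : 0 < A.p + a) (hB : 0 < B.p + b) :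
    en 0 (node a A b B) = en a A + en b B := by
  unfold en
  rw [RT.p, RT.u, RT.k, add_zero, add_zero]
  field_simp
  ring

/-- conductance, weighted norm and energy of a branch -/
noncomputable def tri (a : ℝ) (A : RT) : ℝ × ℝ × ℝ := (gg a A, bb a A, en a A)

theorem tri_node {a : ℝ} {A : RT} {b : ℝ} {B : RT} (hA : 0 < A.p + a) (hB : 0 < B.p + b) :
    tri 0 (node a A b B) = tri a A + tri b B := by
  unfold tri
  rw [gg_node hA hB, bb_node hA hB, en_node hA hB]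
  rfl

/-- data of a two-port -/
structure PD where
  p : ℝ
  q : ℝ
  c : ℝ
  e : ℝ
  f : ℝ
  h : ℝ
  m : ℝ

namespace PD

/-- the reversed two-port -/
def rev (P : PD) : PD := ⟨P.q, P.p, P.c, P.f, P.e, P.h, P.m⟩

/-- an edge -/
noncomputable def base (r : ℝ) : PD := ⟨1 / r, 1 / r, 1 / r, 0, 0, 0, r⟩

/-- adding a branch at the first vertex, and an edge before it -/
noncomputable def push (t : ℝ × ℝ × ℝ) (r : ℝ) (P : PD) : PD :=
  ⟨(P.p + t.1) / (1 + r * (P.p + t.1)), P.q - r * P.c ^ 2 / (1 + r * (P.p + t.1)),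
    P.c / (1 + r * (P.p + t.1)),
    (P.e + t.2.1) / (1 + r * (P.p + t.1)) ^ 2,
    P.f + 2 * (r * P.c / (1 + r * (P.p + t.1))) * P.h +
      (r * P.c / (1 + r * (P.p + t.1))) ^ 2 * (P.e + t.2.1),
    (P.h + r * P.c * (P.e + t.2.1) / (1 + r * (P.p + t.1))) / (1 + r * (P.p + t.1)),
    P.m + t.2.2 + r - r * (P.e + t.2.1) / (1 + r * (P.p + t.1))⟩

/-- the action on a branch -/
noncomputable def act (P : PD) (t : ℝ × ℝ × ℝ) : ℝ × ℝ × ℝ :=
  (P.p - P.c ^ 2 / (P.q + t.1),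
    P.e + 2 * (P.c / (P.q + t.1)) * P.h + (P.c / (P.q + t.1)) ^ 2 * (P.f + t.2.1),
    P.m + t.2.2 - (P.f + t.2.1) / (P.q + t.1))

/-- well formed data -/
structure WF (P : PD) : Prop where
  c0 : 0 < P.c
  cp : P.c ≤ P.p
  cq : P.c ≤ P.q
  e0 : 0 ≤ P.e
  f0 : 0 ≤ P.f
  h0 : 0 ≤ P.h

theorem WF.rev {P : PD} (h : P.WF) : P.rev.WF := ⟨h.c0, h.cq, h.cp, h.f0, h.e0, h.h0⟩

theorem rev_rev (P : PD) : P.rev.rev = P := rfl

theorem WF.base {r : ℝ} (hr : 0 < r) : (PD.base r).WF := by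
  have : 0 < 1 / r := by positivity
  exact ⟨this, le_rfl, le_rfl, le_rfl, le_rfl, le_rfl⟩

theorem WF.push {P : PD} (h : P.WF) {t : ℝ × ℝ × ℝ} (ht : 0 < t.1) (ht2 : 0 ≤ t.2.1) {r : ℝ}
    (hr : 0 < r) : (P.push t r).WF := by
  obtain ⟨c0, cp, cq, e0, f0, h0⟩ := h
  have hp : 0 < P.p := c0.trans_le cp
  have hD : 0 < 1 + r * (P.p + t.1) := by positivity
  refine ⟨?_, ?_, ?_, ?_, ?_, ?_⟩ <;> simp only [PD.push]
  · positivity
  · exact div_le_div_of_nonneg_right (by linarith) hD.le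
  · have e1 : P.q - r * P.c ^ 2 / (1 + r * (P.p + t.1)) =
        (P.q * (1 + r * (P.p + t.1)) - r * P.c ^ 2) / (1 + r * (P.p + t.1)) := by
      field_simp
    rw [e1]
    refine div_le_div_of_nonneg_right ?_ hD.le
    have h1 : P.c * (1 + r * (P.p + t.1)) ≤ P.q * (1 + r * (P.p + t.1)) :=
      mul_le_mul_of_nonneg_right cq hD.le
    have h2 : r * P.c * P.c ≤ r * P.c * (P.p + t.1) :=
      mul_le_mul_of_nonneg_left (by linarith) (by positivity)
    nlinarith
  · positivity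
  · positivity
  · positivity

/-- the effective conductance is positive -/
theorem WF.act_pos {P : PD} (h : P.WF) {t : ℝ × ℝ × ℝ} (ht : 0 < t.1) : 0 < (P.act t).1 := by
  obtain ⟨c0, cp, cq, e0, f0, h0⟩ := h
  have hq : 0 < P.q := c0.trans_le cq
  show 0 < P.p - P.c ^ 2 / (P.q + t.1)
  rw [sub_pos, div_lt_iff₀ (by positivity)]
  nlinarith

theorem base_act {r : ℝ} (hr : 0 < r) {t : ℝ × ℝ × ℝ} (ht : 0 < t.1) :
    (PD.base r).act t =
      (t.1 / (1 + r * t.1), t.2.1 / (1 + r * t.1) ^ 2, t.2.2 + r - r * t.2.1 / (1 + r * t.1)) := by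
  obtain ⟨x, y, z⟩ := t
  simp only at ht
  have h1 : 0 < 1 + r * x := by positivity
  simp only [PD.act, PD.base, Prod.mk.injEq]
  refine ⟨?_, ?_, ?_⟩
  · field_simp
    ring
  · field_simp
    ring
  · field_simp
    ring

theorem tri_base {r : ℝ} (hr : 0 < r) {X : RT} (hX : 0 < X.p) :
    tri r X = (PD.base r).act (tri 0 X) := by
  have h0 : 0 < (tri 0 X).1 := by
    show 0 < 1 / (X.p + 0)
    rw [add_zero]
    positivity
  rw [base_act hr h0]
  simp only [tri, gg, bb, en, add_zero, Prod.mk.injEq]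
  refine ⟨?_, ?_, ?_⟩
  · field_simp
  · field_simp
  · field_simp
    ring

theorem push_act {P : PD} (h : P.WF) {s t : ℝ × ℝ × ℝ} (hs : 0 < s.1) (ht : 0 < t.1) {r : ℝ}
    (hr : 0 < r) : (P.push s r).act t = (PD.base r).act (s + P.act t) := by
  have h1 := h.act_pos ht
  have h2 : 0 < (s + P.act t).1 := add_pos hs h1
  rw [base_act hr h2]
  obtain ⟨c0, cp, cq, e0, f0, h0⟩ := h
  obtain ⟨p, q, c, e, f, hh, m⟩ := P
  obtain ⟨x, y, z⟩ := s
  obtain ⟨X, Y, Z⟩ := t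
  simp only [PD.act, PD.push, Prod.mk_add_mk, Prod.mk.injEq] at *
  have hp : 0 < p := c0.trans_le cp
  have hq : 0 < q := c0.trans_le cq
  obtain ⟨Q, hQ⟩ : ∃ Q, Q = q + X := ⟨_, rfl⟩
  obtain ⟨D, hD⟩ : ∃ D, D = 1 + r * (p + x) := ⟨_, rfl⟩
  obtain ⟨E, hE⟩ : ∃ E, E = Q * D - r * c ^ 2 := ⟨_, rfl⟩
  have Q0 : 0 < Q := by rw [hQ]; positivity
  have D0 : 0 < D := by rw [hD]; positivity
  have E1 : 1 + r * (x + (p - c ^ 2 / Q)) = E / Q := by
    rw [hE, hD]
    field_simp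
    ring
  have E0 : 0 < E := by
    rw [← hQ] at h2
    have : 0 < E / Q := by
      rw [← E1]
      have : 0 < x + (p - c ^ 2 / Q) := h2
      positivity
    exact (div_pos_iff_of_pos_right Q0).1 this
  rw [← hQ, ← hD, E1]
  have e1 : q - r * c ^ 2 / D + X = E / D := by
    rw [hE, hQ]
    field_simp
    ring
  have e2 : c / D / (E / D) = c / E := by
    field_simp
  rw [e1, e2]
  refine ⟨?_, ?_, ?_⟩
  · field_simp
    rw [hE]
    linear_combination c ^ 2 * hD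
  · field_simp
    rw [hE]
    ring
  · field_simp
    rw [hE]
    ring

theorem pull_act {P : PD} (h : P.WF) {s t : ℝ × ℝ × ℝ} (hs : 0 < s.1) (ht : 0 < t.1) {r : ℝ}
    (hr : 0 < r) : (P.rev.push s r).rev.act t = P.act (s + (PD.base r).act t) := by
  rw [base_act hr ht]
  obtain ⟨c0, cp, cq, e0, f0, h0⟩ := h
  obtain ⟨p, q, c, e, f, hh, m⟩ := P
  obtain ⟨x, y, z⟩ := s
  obtain ⟨X, Y, Z⟩ := t
  simp only [PD.act, PD.push, PD.rev, Prod.mk_add_mk, Prod.mk.injEq] at *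
  have hp : 0 < p := c0.trans_le cp
  have hq : 0 < q := c0.trans_le cq
  obtain ⟨Q, hQ⟩ : ∃ Q, Q = q + x := ⟨_, rfl⟩
  obtain ⟨D, hD⟩ : ∃ D, D = 1 + r * Q := ⟨_, rfl⟩
  obtain ⟨G, hG⟩ : ∃ G, G = Q + X * D := ⟨_, rfl⟩
  obtain ⟨H, hH⟩ : ∃ H, H = 1 + r * X := ⟨_, rfl⟩
  have Q0 : 0 < Q := by rw [hQ]; positivity
  have D0 : 0 < D := by rw [hD]; positivity
  have G0 : 0 < G := by rw [hG]; positivity
  have H0 : 0 < H := by rw [hH]; positivity
  have hrG : r * G + 1 = D * H := by rw [hG, hH, hD]; ring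
  rw [← hQ, ← hD, ← hH]
  have e1 : Q / D + X = G / D := by
    rw [hG]
    field_simp
  have e2 : q + (x + X / H) = G / H := by
    rw [← add_assoc, ← hQ, hG, hD, hH]
    have : 1 + r * X ≠ 0 := by rw [← hH]; exact H0.ne'
    field_simp
    ring
  rw [e1, e2]
  have e3 : c / D / (G / D) = c / G := by field_simp
  have e4 : c / (G / H) = c * H / G := by field_simp
  rw [e3, e4]
  have e5 : r = (D * H - 1) / G := by
    field_simp
    linear_combination hrG
  refine ⟨?_, ?_, ?_⟩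
  · field_simp
    linear_combination (-c^2) * hrG
  · rw [e5]
    field_simp
    ring
  · rw [e5]
    field_simp
    ring

end PD

/-- the data of the path with labels `L`, whose first edge has label `r` -/
noncomputable def ofL : ℝ → List (ℝ × RT × ℝ) → PD
  | r, [] => PD.base r
  | r, (s, Z, r1) :: L => (ofL r1 L).push (tri s Z) r

/-- the path is equivalent to the two-port -/
structure Port (r : ℝ) (L : List (ℝ × RT × ℝ)) (P : PD) : Prop where
  wf : P.WF
  sem : ∀ W : RT, 0 < W.p → 0 < (cmbL L W).p ∧ tri r (cmbL L W) = P.act (tri 0 W)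
  dd : ∀ W : RT, 0 < W.p → DD W → DD (cmbL L W)

theorem tri0_pos {W : RT} (hW : 0 < W.p) : 0 < (tri 0 W).1 := by
  show 0 < 1 / (W.p + 0)
  rw [add_zero]
  positivity

theorem Ps_tot {a : ℝ} {A : RT} (ha : 0 < a) (hA : Ps A) : 0 < A.p + a := by
  have := (NN_p_nonneg (Ps_nn hA)).1
  linarith

theorem tri_pos {a : ℝ} {A : RT} (h : 0 < A.p + a) : 0 < (tri a A).1 := by
  show 0 < 1 / (A.p + a)
  positivity

theorem tri_nonneg (a : ℝ) (A : RT) : 0 ≤ (tri a A).2.1 := bb_nonneg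

theorem p_node_pos {a : ℝ} {A : RT} {b : ℝ} {B : RT} (hA : 0 < A.p + a) (hB : 0 < B.p + b) :
    0 < (node a A b B).p := by
  rw [RT.p]
  positivity

theorem port_base {r : ℝ} (hr : 0 < r) : Port r [] (PD.base r) :=
  ⟨PD.WF.base hr, fun _ hW => ⟨hW, PD.tri_base hr hW⟩, fun _ _ h => h⟩

theorem port_push {r1 : ℝ} {L : List (ℝ × RT × ℝ)} {P : PD} (h : Port r1 L P) (h1 : 0 < r1)
    {s : ℝ} {Z : RT} (hs : 0 < s) (hZ : Ps Z) {r : ℝ} (hr : 0 < r) :
    Port r ((s, Z, r1) :: L) (P.push (tri s Z) r) := by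
  have hZs := Ps_tot hs hZ
  refine ⟨h.wf.push (tri_pos hZs) (tri_nonneg _ _) hr, fun W hW => ?_, fun W hW hD => ?_⟩
  · obtain ⟨g1, g2⟩ := h.sem W hW
    have hX : 0 < (cmbL L W).p + r1 := by linarith
    have hp : 0 < (node s Z r1 (cmbL L W)).p := p_node_pos hZs hX
    refine ⟨hp, ?_⟩
    rw [PD.push_act h.wf (tri_pos hZs) (tri0_pos hW) hr, ← g2, ← tri_node hZs hX]
    exact PD.tri_base hr hp
  · have hX : 0 < (cmbL L W).p + r1 := by have := (h.sem W hW).1; linarith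
    exact ⟨by linarith, NN_DD (Ps_nn hZ), h.dd W hW hD⟩

theorem port_pull {r : ℝ} {L : List (ℝ × RT × ℝ)} {P : PD} (h : Port r L P)
    {s : ℝ} {Z : RT} (hs : 0 < s) (hZ : Ps Z) {r1 : ℝ} (h1 : 0 < r1) :
    Port r (L ++ [(s, Z, r1)]) (P.rev.push (tri s Z) r1).rev := by
  have hZs := Ps_tot hs hZ
  refine ⟨(h.wf.rev.push (tri_pos hZs) (tri_nonneg _ _) h1).rev, fun W hW => ?_,
    fun W hW hD => ?_⟩
  · have hX : 0 < W.p + r1 := by linarith
    obtain ⟨g1, g2⟩ := h.sem (node s Z r1 W) (p_node_pos hZs hX)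
    rw [cmbL_append]
    refine ⟨g1, ?_⟩
    rw [g2, PD.pull_act h.wf (tri_pos hZs) (tri0_pos hW) h1, tri_node hZs hX,
      PD.tri_base h1 hW]
  · have hX : 0 < W.p + r1 := by linarith
    rw [cmbL_append]
    exact h.dd _ (p_node_pos hZs hX) ⟨by linarith, NN_DD (Ps_nn hZ), hD⟩

theorem exists_port (L : List (ℝ × RT × ℝ)) : ∀ r : ℝ, 0 < r → LP L → Port r L (ofL r L) := by
  induction L with
  | nil => exact fun r hr _ => port_base hr
  | cons e L ih =>
    obtain ⟨s, Z, r1⟩ := e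
    intro r hr hL
    obtain ⟨h1, h2, h3⟩ := hL _ List.mem_cons_self
    exact port_push (ih r1 h3 fun e he => hL e (List.mem_cons_of_mem _ he)) h3 h1 h2 hr

/-- reversal of a path -/
theorem reversal (L : List (ℝ × RT × ℝ)) : ∀ r : ℝ, 0 < r → LP L →
    ∃ r' L', 0 < r' ∧ LP L' ∧ (∀ V W, UL (V, r, cmbL L W) (W, r', cmbL L' V)) ∧
      Port r' L' (ofL r L).rev := by
  induction L with
  | nil =>
    intro r hr _
    exact ⟨r, [], hr, fun _ h => absurd h (List.not_mem_nil), fun V W => UL.swap _ _ _,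
      port_base hr⟩
  | cons e L ih =>
    obtain ⟨s, Z, r1⟩ := e
    intro r hr hL
    obtain ⟨h1, h2, h3⟩ := hL _ List.mem_cons_self
    obtain ⟨r', L', g1, g2, g3, g4⟩ := ih r1 h3 fun e he => hL e (List.mem_cons_of_mem _ he)
    refine ⟨r', L' ++ [(s, Z, r)], g1, ?_, fun V W => ?_, port_pull g4 h1 h2 hr⟩
    · intro e he
      rcases List.mem_append.1 he with he | he
      · exact g2 e he
      · rw [List.mem_singleton] at he
        subst he
        exact ⟨h1, h2, hr⟩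
    · rw [cmbL_append]
      have u1 : UL (V, r, node s Z r1 (cmbL L W)) (node s Z r V, r1, cmbL L W) := by
        have e1 : UL (V, r, node s Z r1 (cmbL L W)) (node r V s Z, r1, cmbL L W) :=
          (UL.move _ _ _ _ _ _).symm
        exact e1.trans (UL.congr _ (RL.swap _ _ _ _) (RL.refl _))
      exact u1.trans (g3 _ _)

end Pool.Agent.H64.Sm
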