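import Pool.Agent.H64.SmEmb

/-!
# Steiner minimal trees of a regular simplex (MP_ebc12b_co, helper64)
-/

set_option autoImplicit false

namespace Pool.Agent.H64.Sm

open Pool.Agent.Helper877_Smith

variable {d : ℕ}

/-- The graph `G` is a tree, its vertices are placed at distinct points of `ℝ^d`, and each of the
terminals `e_1, ..., e_d` is the position of a vertex. -/
structure IsST {V : Type} (G : SimpleGraph V) (pos : V → Sp d) : Prop where
  /-- the graph is a tree -/
  tree : G.IsTree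
  /-- distinct vertices have distinct positions -/
  inj : Function.Injective pos
  /-- each terminal is the position of a vertex -/
  cov : ∀ i : Fin d, ∃ v, pos v = tm i

/-- A Steiner minimal tree for the terminals `e_1, ..., e_d`: a finite tree in `ℝ^d` with straight
edges which contains the terminals and has the minimum total length among all such trees. As usual,
a Steiner point (a vertex which is not a terminal) must not have exactly two neighbours: such a
point would subdivide an edge. -/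
structure IsSMT {V : Type} [Fintype V] (G : SimpleGraph V) (pos : V → Sp d) : Prop
    extends IsST G pos where
  /-- the tree is not longer than any other such tree -/
  min : ∀ (W : Type) [Fintype W] (H : SimpleGraph W) (q : W → Sp d), IsST H q →
    netLen G pos ≤ netLen H q
  /-- no Steiner point has exactly two neighbours -/
  deg : ∀ v, (∀ i : Fin d, pos v ≠ tm i) → (G.neighborSet v).ncard ≠ 2

/-- at least two neighbours -/
def N2 {V : Type} (G : SimpleGraph V) (x : V) : Prop := ∃ a b, a ≠ b ∧ G.Adj x a ∧ G.Adj x b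

/-- at least three neighbours -/
def N3 {V : Type} (G : SimpleGraph V) (x : V) : Prop :=
  ∃ a b c, a ≠ b ∧ a ≠ c ∧ b ≠ c ∧ G.Adj x a ∧ G.Adj x b ∧ G.Adj x c

theorem N3_ncard {V : Type} {G : SimpleGraph V} {x : V} (h : N3 G x) :
    (G.neighborSet x).ncard ≠ 2 := by
  intro h2
  rw [Set.ncard_eq_two] at h2
  obtain ⟨p, q, -, h2⟩ := h2
  obtain ⟨a, b, c, hab, hac, hbc, ha, hb, hc⟩ := h
  have h3 : ∀ y, G.Adj x y → y = p ∨ y = q := by
    intro y hy
    have : y ∈ G.neighborSet x := hy
    rw [h2] at this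
    simpa using this
  rcases h3 a ha with rfl | rfl <;> rcases h3 b hb with rfl | rfl <;>
    rcases h3 c hc with rfl | rfl <;> simp_all

theorem D2_ncard {V : Type} {G : SimpleGraph V} {x : V} (h : D2 G x) :
    (G.neighborSet x).ncard = 2 := by
  obtain ⟨a, b, hab, h⟩ := h
  rw [Set.ncard_eq_two]
  refine ⟨a, b, hab, ?_⟩
  ext y
  rw [SimpleGraph.mem_neighborSet, h y]
  simp

section

variable {V W : Type} {G : SimpleGraph V} {v : V} {H : SimpleGraph W} {w : W}

theorem N3.inl {x : V} (h : N3 G x) : N3 (jn G v H w) (Sum.inl x) := by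
  obtain ⟨a, b, c, h1, h2, h3, h4, h5, h6⟩ := h
  exact ⟨Sum.inl a, Sum.inl b, Sum.inl c, fun h => h1 (Sum.inl_injective h),
    fun h => h2 (Sum.inl_injective h), fun h => h3 (Sum.inl_injective h), h4, h5, h6⟩

theorem N3.inr {x : W} (h : N3 H x) : N3 (jn G v H w) (Sum.inr x) := by
  obtain ⟨a, b, c, h1, h2, h3, h4, h5, h6⟩ := h
  exact ⟨Sum.inr a, Sum.inr b, Sum.inr c, fun h => h1 (Sum.inr_injective h),
    fun h => h2 (Sum.inr_injective h), fun h => h3 (Sum.inr_injective h), h4, h5, h6⟩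

theorem N2.inl (h : N2 G v) : N3 (jn G v H w) (Sum.inl v) := by
  obtain ⟨a, b, h1, h2, h3⟩ := h
  exact ⟨Sum.inl a, Sum.inl b, Sum.inr w, fun h => h1 (Sum.inl_injective h), by simp, by simp,
    h2, h3, rfl, rfl⟩

theorem N2.inr (h : N2 H w) : N3 (jn G v H w) (Sum.inr w) := by
  obtain ⟨a, b, h1, h2, h3⟩ := h
  exact ⟨Sum.inr a, Sum.inr b, Sum.inl v, fun h => h1 (Sum.inr_injective h), by simp, by simp,
    h2, h3, rfl, rfl⟩

end

theorem deg_br (b : Br d) : ∀ x : VT b.shape, (∀ i, pv b x ≠ tm i) →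
    (x = rtv b.shape → N2 (RG b.shape) x) ∧ (x ≠ rtv b.shape → N3 (RG b.shape) x) := by
  induction b with
  | term i =>
    intro x hx
    exact absurd rfl (hx i)
  | pt p l r hl hr =>
    rintro ((a | a) | a) ha
    · refine ⟨fun _ => ⟨Sum.inl (Sum.inr (rtv l.shape)), Sum.inr (rtv r.shape), by simp, ?_, ?_⟩,
        fun h => absurd rfl h⟩
      · exact ⟨rfl, rfl⟩
      · exact ⟨rfl, rfl⟩
    · refine ⟨fun h => absurd (Sum.inl_injective h) (by simp), fun _ => ?_⟩
      obtain ⟨h1, h2⟩ := hl a ha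
      by_cases h : a = rtv l.shape
      · rw [h] at h1 ⊢
        exact N3.inl (h1 rfl).inr
      · exact N3.inl (h2 h).inr
    · refine ⟨fun h => absurd h (by
        intro h'
        cases h'), fun _ => ?_⟩
      obtain ⟨h1, h2⟩ := hr a ha
      by_cases h : a = rtv r.shape
      · rw [h] at h1 ⊢
        exact (h1 rfl).inr
      · exact N3.inr (h2 h)

theorem deg_FST (W : FST d) (x : VT W.top.1 ⊕ VT W.top.2) (hx : ∀ i, pw W x ≠ tm i) :
    N3 (TGr W.top) x := by
  rcases x with a | a
  · obtain ⟨h1, h2⟩ := deg_br W.left a hx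
    by_cases h : a = rtv W.left.shape
    · rw [h] at h1 ⊢
      exact (h1 rfl).inl
    · exact N3.inl (h2 h)
  · obtain ⟨h1, h2⟩ := deg_br W.right a hx
    by_cases h : a = rtv W.right.shape
    · rw [h] at h1 ⊢
      exact (h1 rfl).inr
    · exact N3.inr (h2 h)

/-- the graph of a minimal full Steiner tree is a Steiner minimal tree -/
theorem smt_of_fst (hd : 3 ≤ d) (W : FST d) (hW : ∀ W' : FST d, W.length ≤ W'.length) :
    IsSMT (TGr W.top) (pw W) := by
  obtain ⟨-, -, hndg⟩ := fst_min hd W hW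
  have hadj := pw_adj W hndg
  have hc := TGr_connected W.top
  have hmin : ∀ (V : Type) [Fintype V] (H : SimpleGraph V) (q : V → Sp d), H.Connected →
      (∀ i : Fin d, ∃ v, q v = tm i) → netLen (TGr W.top) (pw W) ≤ netLen H q := by
    intro V _ H q hH hq
    obtain ⟨W', hW'⟩ := exists_fst_le (by omega) V H q hH hq
    rw [netLen_TGr]
    exact (hW W').trans hW'
  have hmin' := fun (H : SimpleGraph (VT W.top.1 ⊕ VT W.top.2)) (hH : H.Connected) =>
    hmin _ H (pw W) hH (pw_cov W)
  exact ⟨⟨tree_of_min hc hadj hmin', inj_of_min hc hadj hmin', pw_cov W⟩,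
    fun V _ H q hH => hmin V H q hH.tree.connected hH.cov,
    fun v hv => N3_ncard (deg_FST W v hv)⟩

theorem tms_univ {V : Type} [Fintype V] {pos : V → Sp d} (hinj : Function.Injective pos)
    (hcov : ∀ i : Fin d, ∃ v, pos v = tm i) : tms pos = Finset.univ.val := by
  classical
  unfold tms
  rw [Finset.sum_comm]
  have : ∀ i : Fin d, (∑ x, if pos x = tm i then ({i} : Multiset (Fin d)) else 0) = {i} := by
    intro i
    obtain ⟨v, hv⟩ := hcov i
    rw [Finset.sum_eq_single v]
    · rw [if_pos hv]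
    · intro x _ hx
      rw [if_neg]
      intro h
      exact hx (hinj (h.trans hv.symm))
    · intro h
      exact absurd (Finset.mem_univ v) h
  have h2 : (∑ i, ∑ x, if pos x = tm i then ({i} : Multiset (Fin d)) else 0) =
      ∑ i : Fin d, ({i} : Multiset (Fin d)) := Finset.sum_congr rfl fun i _ => this i
  rw [h2]
  exact Finset.sum_multiset_singleton _

/-- every tree which is not longer than the shortest full Steiner trees has the conjectured
topology -/
theorem tree_top (hd : 3 ≤ d) {V : Type} [Fintype V] {G : SimpleGraph V} {pos : V → Sp d}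
    (h : IsST G pos) (hdg : ∀ v, (∀ i : Fin d, pos v ≠ tm i) → (G.neighborSet v).ncard ≠ 2)
    {W1 : FST d} (hW1 : ∀ W' : FST d, W1.length ≤ W'.length) (hle : netLen G pos ≤ W1.length) :
    Nonempty (G ≃g TGr (Tgood d)) := by
  have hpos : ∀ x y, G.Adj x y → pos x ≠ pos y := fun x y hxy hh => hxy.ne (h.inj hh)
  have hdeg : ∀ x, (∀ i, pos x ≠ tm i) → ¬ D2 G x := fun x hx h2 => hdg x hx (D2_ncard h2)
  obtain ⟨ρ, hρ⟩ := h.cov ⟨0, by omega⟩
  obtain ⟨ρ', hρ'⟩ := h.cov ⟨1, by omega⟩
  have hne : ρ ≠ ρ' := by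
    intro hh
    rw [hh, hρ'] at hρ
    have := tm_inj hρ
    simp at this
  obtain ⟨u, hu⟩ : ∃ u, G.Adj ρ u := by
    obtain ⟨p⟩ := h.tree.connected.preconnected ρ ρ'
    cases p with
    | nil => exact absurd rfl hne
    | cons h p => exact ⟨_, h⟩
  obtain ⟨V1, V2, i1, i2, G1, G2, v1, v2, t1, t2, hc, e, he⟩ := tree_split h.tree hu
  obtain ⟨q, hq⟩ : ∃ q : V1 ⊕ V2 → Sp d, q = fun x => pos (e.symm x) := ⟨_, rfl⟩
  have hpq : pos = fun x => q (e x) := by
    rw [hq]
    ext1 x
    simp
  have hpos' : ∀ x y, (jn G1 v1 G2 v2).Adj x y → q x ≠ q y := by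
    intro x y hxy
    rw [hq]
    exact hpos _ _ (e.symm.map_rel_iff.2 hxy)
  have hdeg' : ∀ x, (∀ i, q x ≠ tm i) → ¬ D2 (jn G1 v1 G2 v2) x := by
    intro x hxi h2
    have hx' : e (e.symm x) = x := e.apply_symm_apply x
    refine hdeg (e.symm x) (fun i => ?_) (D2_iso e (by rw [hx']; exact h2))
    have := hxi i
    rw [hq] at this
    exact this
  have R1 : Res G1 v1 (fun a => q (Sum.inl a)) := by
    refine rooted _ V1 G1 v1 _ rfl t1 (fun x y hxy => ?_) (fun x hx hxi h2 => ?_)
    · exact hpos' (Sum.inl x) (Sum.inl y) hxy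
    · exact hdeg' (Sum.inl x) hxi (D2_inl hx h2)
  have R2 : Res G2 v2 (fun a => q (Sum.inr a)) := by
    refine rooted _ V2 G2 v2 _ rfl t2 (fun x y hxy => ?_) (fun x hx hxi h2 => ?_)
    · exact hpos' (Sum.inr x) (Sum.inr y) hxy
    · exact hdeg' (Sum.inr x) hxi (D2_inr hx h2)
  have hD : 0 < dist (q (Sum.inl v1)) (q (Sum.inr v2)) :=
    dist_pos.2 (hpos' _ _ ⟨rfl, rfl⟩)
  have hL := netLen_jn G1 v1 G2 v2 q
  have hT := tms_sum q
  have L2 := netLen_nonneg G2 (fun a => q (Sum.inr a))
  have hLe : netLen G pos = netLen (jn G1 v1 G2 v2) q := by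
    rw [hpq]
    exact netLen_iso e q
  have hTe : tms pos = tms q := by
    rw [hpq]
    exact tms_equiv e.toEquiv q
  rw [tms_univ h.inj h.cov] at hTe
  rw [← hTe] at hT
  rw [← hLe] at hL
  have hv1 : q (Sum.inl v1) = tm ⟨0, by omega⟩ := by
    rw [hq]
    show pos (e.symm (Sum.inl v1)) = _
    rw [← he, e.symm_apply_apply]
    exact hρ
  obtain ⟨b1, a1, a2, a3, a4⟩ : ∃ b : Br d, b.terms = tms (fun a => q (Sum.inl a)) ∧
      b.pos = q (Sum.inl v1) ∧ b.len ≤ netLen G1 (fun a => q (Sum.inl a)) ∧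
      (b.len = netLen G1 (fun a => q (Sum.inl a)) → b.ndg →
        RI G1 v1 (RG b.shape) (rtv b.shape)) := by
    rcases R1 with ⟨-, a2, -⟩ | ⟨b, a1, -⟩ | h
    · exact absurd hv1 (a2 _)
    · exact absurd hv1 (a1 _)
    · exact h
  rcases Res_hang (G := G1) (v := v1) (fun h => hdeg' _ h) R2 with h0 | ⟨b2, k1, k2, k3⟩
  · -- all terminals are on one side
    exfalso
    rw [h0, add_zero, ← a1] at hT
    cases b1 with
    | term i =>
      have hcard := congrArg Multiset.card hT
      rw [show (Finset.univ : Finset (Fin d)).val.card = Finset.univ.card from rfl,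
        Finset.card_univ, Fintype.card_fin] at hcard
      simp [Br.terms] at hcard
      omega
    | pt x l r =>
      have h5 := hW1 ⟨l, r, hT.symm⟩
      have h6 : (⟨l, r, hT.symm⟩ : FST d).length ≤ (Br.pt x l r).len := by
        show dist l.pos r.pos + l.len + r.len ≤ dist x l.pos + dist x r.pos + l.len + r.len
        have := dist_triangle_left l.pos r.pos x
        linarith
      linarith
  · rw [← a1, ← k1] at hT
    obtain ⟨W, hWd⟩ : ∃ W : FST d, W = ⟨b1, b2, hT.symm⟩ := ⟨_, rfl⟩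
    have hWl : W.length = dist (q (Sum.inl v1)) b2.pos + b1.len + b2.len := by
      rw [hWd, ← a2]
      rfl
    have h1 := hW1 W
    have hWmin : ∀ W' : FST d, W.length ≤ W'.length := by
      intro W'
      have := hW1 W'
      linarith
    obtain ⟨-, g1, g2⟩ := fst_min hd W hWmin
    rw [hWd] at g2
    obtain ⟨-, g3, g4⟩ := g2
    obtain ⟨e1, f1⟩ := a4 (by linarith) g3
    obtain ⟨e2, f2⟩ := k3 (by linarith) g4
    obtain ⟨i, -⟩ := jn_iso e1 e2 f1 f2
    have hTop : Nonempty (TGr (b1.shape, b2.shape) ≃g TGr (Tgood d)) := by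
      rw [hWd] at g1
      exact TGr_uiso g1
    exact ⟨(e.trans i).trans hTop.some⟩

/-- every Steiner minimal tree has the conjectured topology -/
theorem smt_top (hd : 3 ≤ d) {V : Type} [Fintype V] {G : SimpleGraph V} {pos : V → Sp d}
    (h : IsSMT G pos) : Nonempty (G ≃g TGr (Tgood d)) := by
  obtain ⟨W1, hW1⟩ := exists_fst_min hd
  have hS1 := smt_of_fst hd W1 hW1
  refine tree_top hd h.toIsST h.deg hW1 ?_
  rw [← netLen_TGr]
  exact h.min _ _ _ hS1.toIsST

/-- a Steiner minimal tree exists -/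
theorem exists_smt (hd : 3 ≤ d) : ∃ (V : Type) (_ : Fintype V) (G : SimpleGraph V)
    (pos : V → Sp d), IsSMT G pos := by
  obtain ⟨W1, hW1⟩ := exists_fst_min hd
  exact ⟨_, _, _, _, smt_of_fst hd W1 hW1⟩

end Pool.Agent.H64.Sm
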