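import Pool.Agent.H64.SmTreeSplit

/-!
# The graph of a shape (MP_ebc12b_co, helper64)
-/

set_option autoImplicit false

namespace Pool.Agent.H64.Sm

open Pool.Agent.Helper877_Smith

/-- The vertices of a rooted binary tree. -/
def VT : Sh → Type
  | Sh.leaf => Unit
  | Sh.node l r => (Unit ⊕ VT l) ⊕ VT r

/-- The root of a rooted binary tree. -/
def rtv : (s : Sh) → VT s
  | Sh.leaf => ()
  | Sh.node _ _ => Sum.inl (Sum.inl ())

/-- The graph of a rooted binary tree: a vertex, or a new vertex joined by an edge with the root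
of each of the two subtrees. -/
def RG : (s : Sh) → SimpleGraph (VT s)
  | Sh.leaf => (⊥ : SimpleGraph Unit)
  | Sh.node l r => jn (jn (⊥ : SimpleGraph Unit) () (RG l) (rtv l)) (Sum.inl ()) (RG r) (rtv r)

/-- The graph of two rooted binary trees whose roots are joined by an edge. -/
def TGr (S : Sh × Sh) : SimpleGraph (VT S.1 ⊕ VT S.2) := jn (RG S.1) (rtv S.1) (RG S.2) (rtv S.2)

theorem RG_riso {s t : Sh} (h : RIso s t) : RI (RG s) (rtv s) (RG t) (rtv t) := by
  induction h with
  | refl => exact RI.refl _ _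
  | symm _ ih => exact ih.symm
  | trans _ _ h1 h2 => exact h1.trans h2
  | congr _ _ h1 h2 => exact RI.jnl (RI.jnl (RI.refl _ _) h1) h2
  | swap l r =>
    refine ⟨⟨⟨fun x => match x with
      | Sum.inl (Sum.inl a) => Sum.inl (Sum.inl a)
      | Sum.inl (Sum.inr a) => Sum.inr a
      | Sum.inr a => Sum.inl (Sum.inr a), fun x => match x with
      | Sum.inl (Sum.inl a) => Sum.inl (Sum.inl a)
      | Sum.inl (Sum.inr a) => Sum.inr a
      | Sum.inr a => Sum.inl (Sum.inr a), ?_, ?_⟩, ?_⟩, rfl⟩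
    · rintro ((a | a) | a) <;> rfl
    · rintro ((a | a) | a) <;> rfl
    · rintro ((a | a) | a) ((b | b) | b) <;> simp [RG, jn]

theorem TGr_uiso {S T : Sh × Sh} (h : UIso S T) : Nonempty (TGr S ≃g TGr T) := by
  induction h with
  | refl => exact ⟨RelIso.refl _⟩
  | symm _ ih => exact ⟨ih.some.symm⟩
  | trans _ _ h1 h2 => exact ⟨h1.some.trans h2.some⟩
  | swap A B => exact jn_swap _ _ _ _
  | congr h1 h2 =>
    obtain ⟨e, he⟩ := RG_riso h1
    obtain ⟨f, hf⟩ := RG_riso h2
    exact ⟨(jn_iso e f he hf).choose⟩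
  | move A B C =>
    refine ⟨⟨⟨fun x => match x with
      | Sum.inl (Sum.inl (Sum.inl a)) => Sum.inr (Sum.inl (Sum.inl a))
      | Sum.inl (Sum.inl (Sum.inr a)) => Sum.inl a
      | Sum.inl (Sum.inr a) => Sum.inr (Sum.inl (Sum.inr a))
      | Sum.inr a => Sum.inr (Sum.inr a), fun x => match x with
      | Sum.inr (Sum.inl (Sum.inl a)) => Sum.inl (Sum.inl (Sum.inl a))
      | Sum.inl a => Sum.inl (Sum.inl (Sum.inr a))
      | Sum.inr (Sum.inl (Sum.inr a)) => Sum.inl (Sum.inr a)
      | Sum.inr (Sum.inr a) => Sum.inr a, ?_, ?_⟩, ?_⟩⟩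
    · rintro (((a | a) | a) | a) <;> rfl
    · rintro (a | ((a | a) | a)) <;> rfl
    · rintro (((a | a) | a) | a) (((b | b) | b) | b) <;> simp [TGr, RG, rtv, jn, and_comm] <;>
        first | tauto | (intro h; cases h)

end Pool.Agent.H64.Sm
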