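import Pool.Agent.H64.SmPort

/-!
# Exchanging two branches of a minimal tree (MP_ebc12b_co, helper64)
-/

set_option autoImplicit false

namespace Pool.Agent.H64.Sm

open Pool.Agent.Helper877_Smith

open RT

theorem swap_alg {S G X Y Z ua uy B l : ℝ} (hG : 0 ≤ G) (hGB : G < B) (hSB : S < B) (hl : 0 < l)
    (hu : uy < ua) (he : l ^ 2 = ua + (X - 2 * (G / B) * Y + (G / B) ^ 2 * (uy + Z)))
    (hmin : ∀ B' l', S < B' → 0 < B' → 0 < l' →
      B + (uy + Z + G ^ 2) / B + l +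
        (ua + (X - 2 * (G / B) * Y + (G / B) ^ 2 * (uy + Z))) / l ≤
      B' + (ua + Z + G ^ 2) / B' + l' +
        (uy + (X - 2 * (G / B') * Y + (G / B') ^ 2 * (ua + Z))) / l') : Z ≤ X := by
  by_contra hXZ
  push Not at hXZ
  have hB : 0 < B := hG.trans_lt hGB
  obtain ⟨a, ha⟩ : ∃ a, a = l + G ^ 2 / B := ⟨_, rfl⟩
  rcases le_or_gt a B with hc | hc
  · -- keep the resistance at the second vertex
    obtain ⟨t, ht⟩ : ∃ t, t = (ua - uy) * (1 - (G / B) ^ 2) := ⟨_, rfl⟩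
    have hGB1 : G / B < 1 := (div_lt_one hB).2 hGB
    have hGB0 : 0 ≤ G / B := by positivity
    have h1 : 0 < 1 - (G / B) ^ 2 := by nlinarith
    have t0 : 0 < t := by rw [ht]; exact mul_pos (by linarith) h1
    obtain ⟨δ, hδ⟩ : ∃ δ, δ = min (t / l) l / 2 := ⟨_, rfl⟩
    have hm : 0 < min (t / l) l := lt_min (by positivity) hl
    have δ0 : 0 < δ := by rw [hδ]; positivity
    have δ1 : δ < t / l := by
      have := min_le_left (t / l) l
      rw [hδ]; linarith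
    have δ2 : δ < l := by
      have := min_le_right (t / l) l
      rw [hδ]; linarith
    have hδt : l * δ < t := by
      rw [lt_div_iff₀ hl] at δ1
      linarith
    have h2 := hmin B (l - δ) hSB hB (by linarith)
    have e1 : uy + (X - 2 * (G / B) * Y + (G / B) ^ 2 * (ua + Z)) = l ^ 2 - t := by
      rw [he, ht]; ring
    rw [e1, ← he] at h2
    have hlδ : 0 < l - δ := by linarith
    have e2 : (l - δ) + (l ^ 2 - t) / (l - δ) = 2 * l - t / l - δ * (t - l * δ) / (l * (l - δ)) := by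
      field_simp
      ring
    have e3 : l ^ 2 / l = l := by field_simp
    have e4 : (ua + Z + G ^ 2) / B - (uy + Z + G ^ 2) / B - t / l = (ua - uy) / (B * l) * (a - B) := by
      rw [ht, ha]
      field_simp
      ring
    have h5 : (ua - uy) / (B * l) * (a - B) ≤ 0 :=
      mul_nonpos_of_nonneg_of_nonpos (div_nonneg (by linarith) (by positivity)) (by linarith)
    have h6 : 0 < δ * (t - l * δ) / (l * (l - δ)) := by
      have : 0 < t - l * δ := by linarith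
      positivity
    linarith
  · -- exchange the resistances
    have ha0 : 0 < a := hB.trans hc
    have hGa : G < a := hGB.trans hc
    have hl' : 0 < B - G ^ 2 / a := by
      rw [sub_pos, div_lt_iff₀ ha0]
      nlinarith
    have h2 := hmin a (B - G ^ 2 / a) (hSB.trans hc) ha0 hl'
    obtain ⟨D, hDd⟩ : ∃ D, D = a * B - G ^ 2 := ⟨_, rfl⟩
    have hD : 0 < D := by rw [hDd]; nlinarith
    have el : l = D / B := by
      rw [hDd, ha]
      field_simp
      ring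
    have el' : B - G ^ 2 / a = D / a := by
      rw [hDd]
      field_simp
    have e1 : B + (uy + Z + G ^ 2) / B + l +
        (ua + (X - 2 * (G / B) * Y + (G / B) ^ 2 * (uy + Z))) / l =
        B + a + (B * (X + ua) + a * (Z + uy) - 2 * G * Y) / D := by
      rw [el]
      field_simp
      rw [hDd]
      ring
    have e2 : a + (ua + Z + G ^ 2) / a + (B - G ^ 2 / a) +
        (uy + (X - 2 * (G / a) * Y + (G / a) ^ 2 * (ua + Z))) / (B - G ^ 2 / a) =
        B + a + (a * (X + uy) + B * (Z + ua) - 2 * G * Y) / D := by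
      rw [el']
      field_simp
      rw [hDd]
      ring
    rw [e1, e2] at h2
    have h3 : (a * (X + uy) + B * (Z + ua) - 2 * G * Y) / D <
        (B * (X + ua) + a * (Z + uy) - 2 * G * Y) / D := by
      refine div_lt_div_of_pos_right ?_ hD
      nlinarith [mul_pos (sub_pos.2 hc) (sub_pos.2 hXZ)]
    linarith

theorem rest_alg {A C c N1 N2 e B h K t u k X Y Z Mp Mu Mk : ℝ} (hA : 0 < A) (hC : 0 < C)
    (he : e = A * C - c ^ 2) (he0 : 0 < e) (ht : 0 < t) (hB : B = A / e + t)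
    (hX : X = (C ^ 2 * N1 + c ^ 2 * N2 + 2 * c * C * h) / e ^ 2)
    (hZ : Z = (A ^ 2 * N2 + c ^ 2 * N1 + 2 * c * A * h) / e ^ 2)
    (hY : Y = (A * c * N2 + C * c * N1 + (A * C + c ^ 2) * h) / e ^ 2)
    (hM : Mp ≠ 0)
    (h1 : 1 / Mp = A - c ^ 2 / (C + 1 / t))
    (h2 : Mu / Mp ^ 2 = N1 + 2 * (c / (C + 1 / t)) * h + (c / (C + 1 / t)) ^ 2 * (N2 + u / t ^ 2))
    (h3 : Mk + Mu / Mp = K + (C * N1 + A * N2 + 2 * c * h) / e + (k + u / t) -
      (N2 + u / t ^ 2) / (C + 1 / t)) :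
    Mp = C / e - (c / e) ^ 2 / B ∧ Mu = X - 2 * (c / e / B) * Y + (c / e / B) ^ 2 * (u + Z) ∧
      Mk = K + k + (u + Z) / B := by
  obtain ⟨D, hD⟩ : ∃ D, D = C * t + 1 := ⟨_, rfl⟩
  have D0 : 0 < D := by rw [hD]; positivity
  have e1 : C + 1 / t = D / t := by rw [hD]; field_simp
  have B0 : 0 < B := by rw [hB]; positivity
  have eB : e * B = e * t + A := by rw [hB]; field_simp; ring
  have eB2 : e * B = A * D - c ^ 2 * t := by rw [eB, hD, he]; ring
  rw [e1] at h1 h2 h3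
  have h1' : 1 / Mp = e * B / D := by
    rw [h1, eB2]
    field_simp
  have hMp : Mp = D / (e * B) := by
    have h5 : Mp * (1 / Mp) = 1 := by field_simp
    rw [h1'] at h5
    field_simp at h5 ⊢
    linarith
  have hMp0 : 0 < Mp := by rw [hMp]; positivity
  have hMu : Mu = Mp ^ 2 * (Mu / Mp ^ 2) := by field_simp
  rw [h2] at hMu
  have hMk : Mk = K + (C * N1 + A * N2 + 2 * c * h) / e + (k + u / t) -
      (N2 + u / t ^ 2) / (D / t) - Mp * (Mu / Mp ^ 2) := by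
    have : Mp * (Mu / Mp ^ 2) = Mu / Mp := by field_simp
    rw [this]
    linarith
  rw [h2] at hMk
  have g1 : Mp = C / e - (c / e) ^ 2 / B := by
    rw [hMp]
    field_simp
    rw [eB, hD, he]
    ring
  refine ⟨g1, ?_, ?_⟩
  · rw [hMu, hMp, hX, hY, hZ]
    field_simp
    rw [eB, hD, he]
    ring
  · rw [hMk, hMp, hZ]
    field_simp
    have key : (e * t + A) * (((K * e + (C * N1 + A * N2 + 2 * c * h)) * t + e * (k * t + u)) * D -
        e * (N2 * t ^ 2 + u)) - e * t * (D * (N1 * D + 2 * c * h * t) + c ^ 2 * (N2 * t ^ 2 + u)) =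
        t * D * (e * (e * t + A) * (K + k) + (e ^ 2 * u + (A ^ 2 * N2 + N1 * c ^ 2 +
        A * 2 * c * h))) := by
      rw [hD, he]
      ring
    linear_combination (((K * e + (C * N1 + A * N2 + 2 * c * h)) * t + e * (k * t + u)) * D -
        e * (N2 * t ^ 2 + u) - t * D * e * (K + k)) * eB + key

theorem WF_e_pos {P : PD} (h : P.WF) {g1 g2 : ℝ} (h1 : 0 < g1) (h2 : 0 < g2) :
    0 < (P.p + g1) * (P.q + g2) - P.c ^ 2 := by
  obtain ⟨c0, cp, cq, -⟩ := h
  nlinarith [mul_le_mul cp cq c0.le (c0.le.trans cp), mul_pos h1 h2,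
    mul_pos h1 (c0.trans_le cq), mul_pos h2 (c0.trans_le cp)]

theorem rest_form {r : ℝ} {L : List (ℝ × RT × ℝ)} {P : PD} (hP : Port r L P) (hr : 0 < r)
    {ax ab : ℝ} {x b : RT} (hx : 0 < x.p + ax) (hb : 0 < b.p + ab) {A C N1 N2 e X Y Z K : ℝ}
    (hA : A = P.p + gg ax x) (hC : C = P.q + gg ab b) (hN1 : N1 = P.e + bb ax x)
    (hN2 : N2 = P.f + bb ab b) (he : e = A * C - P.c ^ 2)
    (hX : X = (C ^ 2 * N1 + P.c ^ 2 * N2 + 2 * P.c * C * P.h) / e ^ 2)
    (hZ : Z = (A ^ 2 * N2 + P.c ^ 2 * N1 + 2 * P.c * A * P.h) / e ^ 2)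
    (hY : Y = (A * P.c * N2 + C * P.c * N1 + (A * C + P.c ^ 2) * P.h) / e ^ 2)
    (hK : K = en ax x + en ab b + P.m - (C * N1 + A * N2 + 2 * P.c * P.h) / e)
    {M U : RT} {l2 B : ℝ} (hU : 0 < U.p + l2) (hB : B = A / e + (U.p + l2))
    (hM : M = node ax x r (cmbL L (node l2 U ab b))) :
    0 < M.p ∧ M.p = C / e - (P.c / e) ^ 2 / B ∧
      M.u = X - 2 * (P.c / e / B) * Y + (P.c / e / B) ^ 2 * (U.u + Z) ∧
      M.k = K + (U.k + l2) + (U.u + Z) / B := by
  have gx : 0 < gg ax x := by unfold gg; positivity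
  have gb : 0 < gg ab b := by unfold gg; positivity
  have he0 : 0 < e := by rw [he, hA, hC]; exact WF_e_pos hP.wf gx gb
  obtain ⟨c0, cp, cq, -, -, -⟩ := hP.wf
  have A0 : 0 < A := by rw [hA]; linarith
  have C0 : 0 < C := by rw [hC]; linarith
  have hW : 0 < (node l2 U ab b).p := p_node_pos hU hb
  obtain ⟨s1, s2⟩ := hP.sem _ hW
  have hXr : 0 < (cmbL L (node l2 U ab b)).p + r := by linarith
  have hMp : 0 < M.p := by rw [hM]; exact p_node_pos hx hXr
  have key : tri 0 M = tri ax x + P.act (tri l2 U + tri ab b) := by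
    rw [hM, tri_node hx hXr, s2, tri_node hU hb]
  obtain ⟨Mp, hMp'⟩ : ∃ Mp, Mp = M.p := ⟨_, rfl⟩
  simp only [tri, PD.act, Prod.mk_add_mk, Prod.mk.injEq] at key
  obtain ⟨k1, k2, k3⟩ := key
  have g0 : gg 0 M = 1 / M.p := by unfold gg; rw [add_zero]
  have b0 : bb 0 M = M.u / M.p ^ 2 := by unfold bb; rw [add_zero]
  have e0 : en 0 M = M.k + M.u / M.p := by unfold en; rw [add_zero, add_zero]
  rw [g0] at k1
  rw [b0] at k2
  rw [e0] at k3
  have gU : gg l2 U = 1 / (U.p + l2) := rfl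
  have bU : bb l2 U = U.u / (U.p + l2) ^ 2 := rfl
  have eU : en l2 U = (U.k + l2) + U.u / (U.p + l2) := rfl
  refine ⟨hMp, rest_alg (A := A) (C := C) (N1 := N1) (N2 := N2) (h := P.h) (t := U.p + l2)
    (u := U.u) (k := U.k + l2) A0 C0 he he0 hU hB hX hZ hY hMp.ne' ?_ ?_ ?_⟩
  · rw [k1, hA, hC, gU]
    ring_nf
  · rw [k2, hN1, hC, hN2, gU, bU]
    ring_nf
  · rw [k3, hK, hC, hN2, gU, bU, eU]
    ring_nf

/-- the difference of the norms at the two ends -/
noncomputable def Dl (P : PD) (gi bi gj bj : ℝ) : ℝ :=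
  ((P.q + gj) ^ 2 - P.c ^ 2) * (P.e + bi) - ((P.p + gi) ^ 2 - P.c ^ 2) * (P.f + bj) +
    2 * P.c * P.h * ((P.q + gj) - (P.p + gi))

theorem size_cmbL (L : List (ℝ × RT × ℝ)) : ∃ n : ℕ, ∀ W, (cmbL L W).sh.size = n + W.sh.size := by
  induction L with
  | nil => exact ⟨0, fun W => (Nat.zero_add _).symm⟩
  | cons e L ih =>
    obtain ⟨s, Z, r⟩ := e
    obtain ⟨n, hn⟩ := ih
    refine ⟨Z.sh.size + n, fun W => ?_⟩
    show Z.sh.size + (cmbL L W).sh.size = _
    rw [hn]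
    omega

theorem Ps_cmbL (L : List (ℝ × RT × ℝ)) {W : RT} : Ps (cmbL L W) → LP L ∧ Ps W := by
  induction L with
  | nil => exact fun h => ⟨fun _ h => absurd h (List.not_mem_nil), h⟩
  | cons e L ih =>
    obtain ⟨s, Z, r⟩ := e
    rintro ⟨h1, h2, h3, h4⟩
    obtain ⟨g1, g2⟩ := ih h4
    refine ⟨fun e he => ?_, g2⟩
    rcases List.mem_cons.1 he with rfl | he
    · exact ⟨el_pos h1, h3, el_pos h2⟩
    · exact g1 e he

/-- the exchange of two branches -/
theorem swap_main {r : ℝ} {L : List (ℝ × RT × ℝ)} {P : PD} (hP : Port r L P)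
    {ax aa ay ab : ℝ} {x a y b : RT}
    (hG : GM (node ax x aa a, r, cmbL L (node ay y ab b))) (hu : y.u < a.u) :
    0 ≤ Dl P (gg ax x) (bb ax x) (gg ab b) (bb ab b) := by
  have hG1 := hG.of_ul (UL.toB ax x aa a r (cmbL L (node ay y ab b)))
  obtain ⟨q1, q2, q3⟩ := hG1
  obtain ⟨p1, -, p2, p3, p4, p5, p6⟩ := q1
  have haa : 0 < aa := el_pos p1
  have hax : 0 < ax := el_pos p3
  have hr : 0 < r := el_pos p4
  simp only at p2 p5 p6
  obtain ⟨p7, p8, p9, p10, p11⟩ := Ps_cmbL L p6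
  have hay : 0 < ay := el_pos p8
  have hab : 0 < ab := el_pos p9
  have tx := Ps_tot hax p5
  have ty := Ps_tot hay p10
  have tb := Ps_tot hab p11
  have ta := Ps_tot haa p2
  obtain ⟨A, hA⟩ : ∃ A, A = P.p + gg ax x := ⟨_, rfl⟩
  obtain ⟨C, hC⟩ : ∃ C, C = P.q + gg ab b := ⟨_, rfl⟩
  obtain ⟨N1, hN1⟩ : ∃ N1, N1 = P.e + bb ax x := ⟨_, rfl⟩
  obtain ⟨N2, hN2⟩ : ∃ N2, N2 = P.f + bb ab b := ⟨_, rfl⟩
  obtain ⟨e, he⟩ : ∃ e, e = A * C - P.c ^ 2 := ⟨_, rfl⟩
  obtain ⟨X, hX⟩ : ∃ X, X = (C ^ 2 * N1 + P.c ^ 2 * N2 + 2 * P.c * C * P.h) / e ^ 2 := ⟨_, rfl⟩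
  obtain ⟨Z, hZ⟩ : ∃ Z, Z = (A ^ 2 * N2 + P.c ^ 2 * N1 + 2 * P.c * A * P.h) / e ^ 2 := ⟨_, rfl⟩
  obtain ⟨Y, hY⟩ : ∃ Y, Y = (A * P.c * N2 + C * P.c * N1 + (A * C + P.c ^ 2) * P.h) / e ^ 2 :=
    ⟨_, rfl⟩
  obtain ⟨K, hK⟩ : ∃ K, K = en ax x + en ab b + P.m -
    (C * N1 + A * N2 + 2 * P.c * P.h) / e := ⟨_, rfl⟩
  have gx : 0 < gg ax x := by unfold gg; positivity
  have gb : 0 < gg ab b := by unfold gg; positivity
  have he0 : 0 < e := by rw [he, hA, hC]; exact WF_e_pos hP.wf gx gb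
  obtain ⟨c0, cp, cq, -, -, -⟩ := hP.wf
  have A0 : 0 < A := by rw [hA]; linarith
  have C0 : 0 < C := by rw [hC]; linarith
  have hcA : P.c < A := by rw [hA]; linarith
  have form := fun {M U : RT} {l2 B : ℝ} => rest_form (M := M) (U := U) (l2 := l2) (B := B) hP hr
    tx tb hA hC hN1 hN2 he hX hZ hY hK
  obtain ⟨M, hM⟩ : ∃ M, M = node ax x r (cmbL L (node ay y ab b)) := ⟨_, rfl⟩
  obtain ⟨B, hB⟩ : ∃ B, B = A / e + (y.p + ay) := ⟨_, rfl⟩
  obtain ⟨m1, m2, m3, m4⟩ := form ty hB hM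
  obtain ⟨l, hl⟩ : ∃ l, l = a.p + aa + M.p := ⟨_, rfl⟩
  have l0 : 0 < l := by rw [hl]; linarith
  have e1 := q2 _ (UL.refl _)
  unfold E1 at e1
  simp only at e1
  rw [← hM, ← hl] at e1
  rw [← hM] at q3
  have hAe : 0 < A / e := by positivity
  have hZX : Z ≤ X := by
    refine swap_alg (S := A / e) (G := P.c / e) (X := X) (Y := Y) (Z := Z) (ua := a.u) (uy := y.u)
      (B := B) (l := l) (by positivity) ?_ (by rw [hB]; linarith) l0 hu (by rw [← e1, m3]) ?_
    · rw [hB]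
      have : P.c / e < A / e := div_lt_div_of_pos_right hcA he0
      linarith
    · intro B' l' hB' hB0 hl'
      obtain ⟨t, ht⟩ : ∃ t, t = B' - A / e - a.p := ⟨_, rfl⟩
      have hta : 0 < a.p + t := by rw [ht]; linarith
      obtain ⟨M', hM'⟩ : ∃ M', M' = node ax x r (cmbL L (node t a ab b)) := ⟨_, rfl⟩
      have hBt : B' = A / e + (a.p + t) := by rw [ht]; ring
      obtain ⟨n1, n2, n3, n4⟩ := form hta hBt hM'
      have hW : 0 < (node t a ab b).p := p_node_pos hta tb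
      have hmin := q3 (y, l' - y.p - M'.p, M') ?_ ?_
      · unfold F at hmin
        simp only at hmin
        rw [← hl] at hmin
        have f1 : y.p + (l' - y.p - M'.p) + M'.p = l' := by ring
        rw [f1, m4, n4, m3, n3, n2] at hmin
        have g1 : aa = l - a.p - (C / e - (P.c / e) ^ 2 / B) := by rw [hl, ← m2]; ring
        have g2 : ay = B - A / e - y.p := by rw [hB]; ring
        rw [g1, g2, ht] at hmin
        have i1 : (y.u + Z + (P.c / e) ^ 2) / B = (y.u + Z) / B + (P.c / e) ^ 2 / B := add_div _ _ _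
        have i2 : (a.u + Z + (P.c / e) ^ 2) / B' = (a.u + Z) / B' + (P.c / e) ^ 2 / B' :=
          add_div _ _ _
        rw [i1, i2]
        linarith
      · refine ⟨?_, NN_DD (Ps_nn p10), ?_⟩
        · simp only
          linarith
        · rw [hM']
          obtain ⟨s1, s2⟩ := hP.sem _ hW
          exact ⟨by linarith, NN_DD (Ps_nn p5), hP.dd _ hW
            ⟨by linarith, NN_DD (Ps_nn p2), NN_DD (Ps_nn p11)⟩⟩
      · obtain ⟨n, hn⟩ := size_cmbL L
        unfold szU shU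
        simp only [hM, hM', RT.sh, Sh.size, hn]
        omega
  have hD : Dl P (gg ax x) (bb ax x) (gg ab b) (bb ab b) = e ^ 2 * (X - Z) := by
    unfold Dl
    rw [← hA, ← hC, ← hN1, ← hN2, hX, hZ]
    field_simp
    ring
  rw [hD]
  exact mul_nonneg (by positivity) (by linarith)

end Pool.Agent.H64.Sm
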