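import Pool.Agent.H64.SmCross
import Pool.Agent.H64.SmDefs

/-!
# Smith's conjecture (MP_ebc12b_co, seat helper64)
-/

set_option autoImplicit false

namespace Pool.Agent.H64.Sm

open Pool.Agent.Helper877_Smith

/-- the shape of a binary tree -/
def toSh : Smith.BT → Sh
  | Smith.BT.leaf => Sh.leaf
  | Smith.BT.node l r => Sh.node (toSh l) (toSh r)

theorem toSh_full (h : ℕ) : toSh (Smith.full h) = Sh.full h := by
  induction h with
  | zero => rfl
  | succ h ih => simp only [Smith.full, Sh.full, toSh, ih]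

theorem toSh_good (d : ℕ) : toSh (Smith.good d) = good d := by
  induction d using Nat.strong_induction_on with
  | _ d ih =>
  rw [Smith.good, good]
  split_ifs with h1 h2 h3
  · rfl
  · exact toSh_full 1
  · have : 0 < 2 ^ (Nat.log 2 (d - 1) - 1) := by positivity
    rw [toSh, toSh_full, ih _ (by omega)]
  · have : 0 < 2 ^ (Nat.log 2 (d - 1)) := by positivity
    rw [toSh, toSh_full, ih _ (by omega)]

theorem join_eq {V W : Type} (G : SimpleGraph V) (v : V) (H : SimpleGraph W) (w : W) :
    Smith.join G v H w = jn G v H w := by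
  ext x y
  rcases x with a | a <;> rcases y with b | b <;> rfl

theorem graph_RG (t : Smith.BT) :
    RI (Smith.graph t) (Smith.root t) (RG (toSh t)) (rtv (toSh t)) := by
  induction t with
  | leaf => exact RI.refl _ _
  | node l r hl hr =>
    show RI (Smith.join (Smith.join (⊥ : SimpleGraph Unit) () (Smith.graph l) (Smith.root l))
      (Sum.inl ()) (Smith.graph r) (Smith.root r)) (Sum.inl (Sum.inl ())) _ _
    rw [join_eq, join_eq]
    exact RI.jnl (RI.jnl (RI.refl _ _) hl) hr

theorem unrooted_TGr {t : Smith.BT} (ht : 1 < (toSh t).size) :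
    Nonempty (TGr (unroot (toSh t)) ≃g Smith.unrooted t) := by
  cases t with
  | leaf => exact absurd ht (by simp [toSh, Sh.size])
  | node l r =>
    obtain ⟨e, he⟩ := (graph_RG l).symm
    obtain ⟨f, hf⟩ := (graph_RG r).symm
    show Nonempty (jn (RG (toSh l)) (rtv (toSh l)) (RG (toSh r)) (rtv (toSh r)) ≃g
      Smith.join (Smith.graph l) (Smith.root l) (Smith.graph r) (Smith.root r))
    rw [join_eq]
    exact ⟨(jn_iso e f he hf).choose⟩

theorem size_good (d : ℕ) (hd : 1 ≤ d) : (good d).size = d := by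
  induction d using Nat.strong_induction_on with
  | _ d ih =>
  rw [good]
  split_ifs with h1 h2 h3
  · show 1 = d
    omega
  · rw [h2]
    rfl
  · have h4 : 0 < Nat.log 2 (d - 1) := Nat.log_pos (by norm_num) (by omega)
    have h5 : 2 ^ Nat.log 2 (d - 1) ≤ d - 1 := Nat.pow_log_le_self 2 (by omega)
    have h6 : 2 ^ Nat.log 2 (d - 1) = 2 * 2 ^ (Nat.log 2 (d - 1) - 1) := by
      rw [← pow_succ']
      congr 1
      omega
    have : 0 < 2 ^ (Nat.log 2 (d - 1) - 1) := by positivity
    rw [Sh.size, Sh.size_full, ih _ (by omega) (by omega)]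
    omega
  · have h5 : 2 ^ Nat.log 2 (d - 1) ≤ d - 1 := Nat.pow_log_le_self 2 (by omega)
    have : 0 < 2 ^ (Nat.log 2 (d - 1)) := by positivity
    rw [Sh.size, Sh.size_full, ih _ (by omega) (by omega)]
    omega

theorem smithTree_TGr {d : ℕ} (hd : 3 ≤ d) : Nonempty (TGr (Tgood d) ≃g Smith.smithTree d) := by
  have h := unrooted_TGr (t := Smith.good d) (by rw [toSh_good, size_good d (by omega)]; omega)
  rw [toSh_good] at h
  exact h

variable {d : ℕ}

/-- the graph of a minimal full Steiner tree is a Steiner minimal tree -/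
theorem smith_min (hd : 3 ≤ d) (W : FST d) (hW : ∀ W' : FST d, W.length ≤ W'.length) :
    Smith.IsSteinerMinimal (TGr W.top) (pw W) := by
  have hS := smt_of_fst hd W hW
  have hmin : ∀ (V : Type) [Fintype V] (H : SimpleGraph V) (q : V → Sp d), H.Connected →
      (∀ i : Fin d, ∃ v, q v = tm i) → netLen (TGr W.top) (pw W) ≤ netLen H q := by
    intro V _ H q hH hq
    obtain ⟨W', hW'⟩ := exists_fst_le (by omega) V H q hH hq
    rw [netLen_TGr]
    exact (hW W').trans hW'
  have hSh : Shortest (TGr W.top) (pw W) :=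
    ⟨hS.tree.connected, fun x y hxy hh => hxy.ne (hS.inj hh), pw_cov W, hmin⟩
  refine ⟨⟨hS.tree, hS.inj, fun a b c e hab hce hne p hp hq => ?_, pw_cov W⟩,
    fun V _ H q hH => hmin V H q hH.tree.connected hH.cov, hS.deg⟩
  exact hSh.cross hab hce hne (dist_add_dist_of_mem_segment hp) (dist_add_dist_of_mem_segment hq)

/-- Smith's conjecture -/
theorem smith (hd : 3 ≤ d) {V : Type} [Fintype V] {G : SimpleGraph V} {pos : V → Sp d}
    (h : Smith.IsSteinerMinimal G pos) : Nonempty (G ≃g Smith.smithTree d) := by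
  obtain ⟨W1, hW1⟩ := exists_fst_min hd
  have hS1 := smith_min hd W1 hW1
  have hle : netLen G pos ≤ W1.length := by
    rw [← netLen_TGr]
    exact h.minimal _ _ _ hS1.isTree
  have h1 := tree_top hd ⟨h.isTree.tree, h.isTree.inj, h.isTree.cov⟩ h.steiner hW1 hle
  exact ⟨h1.some.trans (smithTree_TGr hd).some⟩

/-- a Steiner minimal tree exists -/
theorem smith_exists (hd : 3 ≤ d) : ∃ (V : Type) (_ : Fintype V) (G : SimpleGraph V)
    (pos : V → Sp d), Smith.IsSteinerMinimal G pos := by
  obtain ⟨W1, hW1⟩ := exists_fst_min hd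
  exact ⟨_, _, _, _, smith_min hd W1 hW1⟩

end Pool.Agent.H64.Sm
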