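import Pool.Graph.R_pool_sql_team_seeded_620a6dc7.Helper877_Smith.Good
import Pool.Graph.R_pool_sql_team_seeded_620a6dc7.Helper877_Smith.GraphRed

/-!
# Binary trees with resistances on the edges (MP_ebc12b_co, seat helper64)

A full Steiner topology on the vertices of a regular simplex, with a positive resistance on each
edge. The Dirichlet energy of the network with the terminals held at the vertices of the simplex is
computed by a recursion over the rooted tree. The sum `F` of the resistances and of this energy is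
twice an upper bound for the length of a Steiner tree; its minimum is twice the minimum length.
-/

set_option autoImplicit false

namespace Pool.Agent.H64.Sm

open Pool.Agent.Helper877_Smith

/-- Rooted binary trees with a real label on every edge below the root. -/
inductive RT : Type
  | leaf : RT
  | node (a : ℝ) (A : RT) (b : ℝ) (B : RT) : RT

namespace RT

/-- the shape -/
def sh : RT → Sh
  | leaf => Sh.leaf
  | node _ A _ B => Sh.node A.sh B.sh

/-- the effective resistance below the root -/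
noncomputable def p : RT → ℝ
  | leaf => 0
  | node a A b B => (A.p + a) * (B.p + b) / ((A.p + a) + (B.p + b))

/-- the squared norm of the effective terminal -/
noncomputable def u : RT → ℝ
  | leaf => 1
  | node a A b B =>
    ((B.p + b) ^ 2 * A.u + (A.p + a) ^ 2 * B.u) / ((A.p + a) + (B.p + b)) ^ 2

/-- the sum of the labels and of the energy -/
noncomputable def k : RT → ℝ
  | leaf => 0
  | node a A b B => A.k + B.k + a + b + (A.u + B.u) / ((A.p + a) + (B.p + b))

end RT

open RT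

/-- unrooted trees: two rooted trees joined by an edge with a label -/
abbrev UT : Type := RT × ℝ × RT

/-- the shape of an unrooted tree -/
def shU (T : UT) : Sh × Sh := (T.1.sh, T.2.2.sh)

/-- the sum of all labels and of the energy -/
noncomputable def F (T : UT) : ℝ :=
  T.1.k + T.2.2.k + T.2.1 + (T.1.u + T.2.2.u) / (T.1.p + T.2.1 + T.2.2.p)

/-- isomorphism of labelled rooted trees -/
inductive RL : RT → RT → Prop
  | refl (s : RT) : RL s s
  | symm {s t : RT} : RL s t → RL t s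
  | trans {s t r : RT} : RL s t → RL t r → RL s r
  | swap (a : ℝ) (A : RT) (b : ℝ) (B : RT) : RL (node a A b B) (node b B a A)
  | congr {A A' B B' : RT} (a b : ℝ) : RL A A' → RL B B' → RL (node a A b B) (node a A' b B')

/-- isomorphism of labelled unrooted trees -/
inductive UL : UT → UT → Prop
  | refl (T : UT) : UL T T
  | symm {S T : UT} : UL S T → UL T S
  | trans {S T U : UT} : UL S T → UL T U → UL S U
  | swap (A : RT) (r : ℝ) (B : RT) : UL (A, r, B) (B, r, A)
  | move (a : ℝ) (A : RT) (b : ℝ) (B : RT) (r : ℝ) (C : RT) :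
      UL (node a A b B, r, C) (A, a, node b B r C)
  | congr {A A' B B' : RT} (r : ℝ) : RL A A' → RL B B' → UL (A, r, B) (A', r, B')

/-! ### Conditions on the labels -/

/-- a condition on the label of the edge above a tree, depending on whether it is a leaf -/
def el (Pl Pi : ℝ → Prop) : RT → ℝ → Prop
  | leaf, a => Pl a
  | node _ _ _ _, a => Pi a

/-- a condition on all labels of a rooted tree -/
def Al (Pl Pi : ℝ → Prop) : RT → Prop
  | leaf => True
  | node a A b B => el Pl Pi A a ∧ el Pl Pi B b ∧ Al Pl Pi A ∧ Al Pl Pi B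

/-- a condition on all labels of an unrooted tree -/
def AlU (Pl Pi : ℝ → Prop) (T : UT) : Prop :=
  el Pl Pi T.1 T.2.1 ∧ el Pl Pi T.2.2 T.2.1 ∧ Al Pl Pi T.1 ∧ Al Pl Pi T.2.2

section

variable {Pl Pi : ℝ → Prop}

theorem RL.el {A B : RT} (h : RL A B) (a : ℝ) : el Pl Pi A a ↔ el Pl Pi B a := by
  induction h with
  | refl => exact Iff.rfl
  | symm _ ih => exact ih.symm
  | trans _ _ h1 h2 => exact h1.trans h2
  | swap => exact Iff.rfl
  | congr _ _ _ _ => exact Iff.rfl

theorem RL.al {A B : RT} (h : RL A B) : Al Pl Pi A ↔ Al Pl Pi B := by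
  induction h with
  | refl => exact Iff.rfl
  | symm _ ih => exact ih.symm
  | trans _ _ h1 h2 => exact h1.trans h2
  | swap a A b B => simp only [Al]; tauto
  | congr a b h1 h2 i1 i2 => simp only [Al, h1.el, h2.el, i1, i2]

theorem UL.al (hP : ∀ a, Pl a → Pi a) {S T : UT} (h : UL S T) : AlU Pl Pi S ↔ AlU Pl Pi T := by
  have key : ∀ (A : RT) (a : ℝ), Sm.el Pl Pi A a → Pi a := by
    intro A a h
    cases A with
    | leaf => exact hP a h
    | node => exact h
  induction h with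
  | refl => exact Iff.rfl
  | symm _ ih => exact ih.symm
  | trans _ _ h1 h2 => exact h1.trans h2
  | swap A r B => simp only [AlU]; tauto
  | move a A b B r C =>
    simp only [AlU, Al]
    constructor
    · rintro ⟨h1, h2, ⟨h3, h4, h5, h6⟩, h7⟩
      exact ⟨h3, key A a h3, h5, h4, h2, h6, h7⟩
    · rintro ⟨h1, h2, h3, h4, h5, h6, h7⟩
      exact ⟨key C r h5, h5, ⟨h1, h4, h3, h6⟩, h7⟩
  | congr r h1 h2 => simp only [AlU, h1.el, h2.el, h1.al, h2.al]

theorem el_mono {Pl' Pi' : ℝ → Prop} (h1 : ∀ a, Pl a → Pl' a) (h2 : ∀ a, Pi a → Pi' a)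
    {A : RT} {a : ℝ} (h : el Pl Pi A a) : el Pl' Pi' A a := by
  cases A with
  | leaf => exact h1 a h
  | node => exact h2 a h

theorem Al_mono {Pl' Pi' : ℝ → Prop} (h1 : ∀ a, Pl a → Pl' a) (h2 : ∀ a, Pi a → Pi' a)
    {A : RT} (h : Al Pl Pi A) : Al Pl' Pi' A := by
  induction A with
  | leaf => trivial
  | node a A b B iA iB =>
    obtain ⟨g1, g2, g3, g4⟩ := h
    exact ⟨el_mono h1 h2 g1, el_mono h1 h2 g2, iA g3, iB g4⟩

theorem AlU_mono {Pl' Pi' : ℝ → Prop} (h1 : ∀ a, Pl a → Pl' a) (h2 : ∀ a, Pi a → Pi' a)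
    {T : UT} (h : AlU Pl Pi T) : AlU Pl' Pi' T := by
  obtain ⟨g1, g2, g3, g4⟩ := h
  exact ⟨el_mono h1 h2 g1, el_mono h1 h2 g2, Al_mono h1 h2 g3, Al_mono h1 h2 g4⟩

end

/-- nonnegative labels, positive at the leaves -/
abbrev NN (A : RT) : Prop := Al (fun a => 0 < a) (fun a => 0 ≤ a) A

/-- nonnegative labels, positive at the leaves -/
abbrev NNU (T : UT) : Prop := AlU (fun a => 0 < a) (fun a => 0 ≤ a) T

/-- positive labels -/
abbrev Ps (A : RT) : Prop := Al (fun a => 0 < a) (fun a => 0 < a) A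

/-- positive labels -/
abbrev PsU (T : UT) : Prop := AlU (fun a => 0 < a) (fun a => 0 < a) T

theorem Ps_nn {A : RT} (h : Ps A) : NN A := Al_mono (fun _ h => h) (fun _ h => le_of_lt h) h

theorem PsU_nn {T : UT} (h : PsU T) : NNU T := AlU_mono (fun _ h => h) (fun _ h => le_of_lt h) h

theorem el_pos {A : RT} {a : ℝ} (h : el (fun a => 0 < a) (fun a => 0 < a) A a) : 0 < a := by
  cases A <;> exact h

theorem el_pos_iff {A : RT} {a : ℝ} : el (fun a => 0 < a) (fun a => 0 < a) A a ↔ 0 < a := by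
  cases A <;> exact Iff.rfl

theorem el_nn {A : RT} {a : ℝ} (h : el (fun a => 0 < a) (fun a => 0 ≤ a) A a) : 0 ≤ a := by
  cases A with
  | leaf => exact le_of_lt h
  | node => exact h

theorem NN_p_nonneg {A : RT} (h : NN A) : 0 ≤ A.p ∧ ∀ a, el (fun a => 0 < a) (fun a => 0 ≤ a) A a →
    0 < A.p + a := by
  induction A with
  | leaf =>
    refine ⟨le_rfl, fun a ha => ?_⟩
    have h1 : 0 < a := ha
    simp only [RT.p, zero_add, h1]
  | node a A b B iA iB =>
    obtain ⟨h1, h2, h3, h4⟩ := h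
    have g1 := (iA h3).2 a h1
    have g2 := (iB h4).2 b h2
    have g3 : 0 < (RT.node a A b B).p := by
      rw [RT.p]; positivity
    refine ⟨g3.le, fun c hc => ?_⟩
    have : 0 ≤ c := hc
    linarith

theorem NN_tot {A : RT} {a : ℝ} (h : NN A) (ha : el (fun a => 0 < a) (fun a => 0 ≤ a) A a) :
    0 < A.p + a := (NN_p_nonneg h).2 a ha

theorem NN_p_pos {a : ℝ} {A : RT} {b : ℝ} {B : RT} (h : NN (RT.node a A b B)) :
    0 < (RT.node a A b B).p := by
  obtain ⟨h1, h2, h3, h4⟩ := h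
  have g1 := NN_tot h3 h1
  have g2 := NN_tot h4 h2
  rw [RT.p]; positivity

/-- positivity of the squared norm, for arbitrary labels -/
theorem u_nonneg (A : RT) : 0 ≤ A.u := by
  induction A with
  | leaf => exact zero_le_one
  | node a A b B iA iB => rw [RT.u]; positivity

theorem NN_u_pos {A : RT} (h : NN A) : 0 < A.u := by
  induction A with
  | leaf => exact zero_lt_one
  | node a A b B iA iB =>
    obtain ⟨h1, h2, h3, h4⟩ := h
    have g1 := NN_tot h3 h1
    have g2 := NN_tot h4 h2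
    have g3 := iA h3
    have g4 := iB h4
    rw [RT.u]; positivity

/-! ### Invariance -/

theorem RL.puk {A B : RT} (h : RL A B) : A.p = B.p ∧ A.u = B.u ∧ A.k = B.k := by
  induction h with
  | refl => exact ⟨rfl, rfl, rfl⟩
  | symm _ ih => exact ⟨ih.1.symm, ih.2.1.symm, ih.2.2.symm⟩
  | trans _ _ h1 h2 =>
    exact ⟨h1.1.trans h2.1, h1.2.1.trans h2.2.1, h1.2.2.trans h2.2.2⟩
  | swap a A b B =>
    refine ⟨?_, ?_, ?_⟩
    · simp only [RT.p]; rw [mul_comm, add_comm (A.p + a)]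
    · simp only [RT.u]; rw [add_comm (A.p + a)]; congr 1; ring
    · simp only [RT.k]; rw [add_comm (A.p + a), add_comm A.u]; ring
  | congr a b h1 h2 i1 i2 =>
    simp only [RT.p, RT.u, RT.k, i1.1, i1.2.1, i1.2.2, i2.1, i2.2.1, i2.2.2, and_self]

theorem F_move (a : ℝ) (A : RT) (b : ℝ) (B : RT) (r : ℝ) (C : RT) (hA : 0 < A.p + a)
    (hB : 0 < B.p + b) (hC : 0 < C.p + r) :
    F (RT.node a A b B, r, C) = F (A, a, RT.node b B r C) := by
  unfold F
  simp only [RT.p, RT.u, RT.k]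
  obtain ⟨α, hα⟩ : ∃ α, α = A.p + a := ⟨_, rfl⟩
  obtain ⟨β, hβ⟩ : ∃ β, β = B.p + b := ⟨_, rfl⟩
  obtain ⟨γ, hγ⟩ : ∃ γ, γ = C.p + r := ⟨_, rfl⟩
  rw [← hα] at hA
  rw [← hβ] at hB
  rw [← hγ] at hC
  rw [← hα, ← hβ, ← hγ]
  have e1 : α * β / (α + β) + r + C.p = (α * β + β * γ + γ * α) / (α + β) := by
    rw [hγ]; field_simp; ring
  have e2 : α + β * γ / (β + γ) = (α * β + β * γ + γ * α) / (β + γ) := by
    field_simp; ring
  rw [e1, e2]
  have hE : 0 < α * β + β * γ + γ * α := by positivity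
  field_simp
  ring

theorem UL.F_eq {S T : UT} (h : UL S T) : NNU S → F S = F T := by
  have hP : ∀ a : ℝ, 0 < a → 0 ≤ a := fun a h => h.le
  have key : ∀ {S T : UT}, UL S T → (NNU S → F S = F T) := by
    intro S T h
    induction h with
    | refl => exact fun _ => rfl
    | symm h ih => exact fun hn => (ih ((h.al hP).2 hn)).symm
    | trans h1 _ i1 i2 => exact fun hn => (i1 hn).trans (i2 ((h1.al hP).1 hn))
    | swap A r B =>
      intro _
      unfold F
      simp only
      rw [add_comm A.k, add_comm A.u, show A.p + r + B.p = B.p + r + A.p by ring]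
    | move a A b B r C =>
      rintro ⟨h1, h2, ⟨h3, h4, h5, h6⟩, h7⟩
      exact F_move a A b B r C (NN_tot h5 h3) (NN_tot h6 h4) (NN_tot h7 h2)
    | congr r h1 h2 =>
      intro _
      unfold F
      simp only [h1.puk.1, h1.puk.2.1, h1.puk.2.2, h2.puk.1, h2.puk.2.1, h2.puk.2.2]
  exact key h

/-! ### Shapes -/

theorem RL.sh {A B : RT} (h : RL A B) : RIso A.sh B.sh := by
  induction h with
  | refl => exact RIso.refl _
  | symm _ ih => exact ih.symm
  | trans _ _ h1 h2 => exact h1.trans h2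
  | swap a A b B => exact RIso.swap _ _
  | congr a b h1 h2 i1 i2 => exact RIso.congr i1 i2

theorem UL.sh {S T : UT} (h : UL S T) : UIso (shU S) (shU T) := by
  induction h with
  | refl => exact UIso.refl _
  | symm _ ih => exact ih.symm
  | trans _ _ h1 h2 => exact h1.trans h2
  | swap A r B => exact UIso.swap _ _
  | move a A b B r C => exact UIso.move _ _ _
  | congr r h1 h2 => exact UIso.congr h1.sh h2.sh

theorem sh_leaf {A : RT} (h : A.sh = Sh.leaf) : A = RT.leaf := by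
  cases A with
  | leaf => rfl
  | node => exact absurd h (by simp [RT.sh])

theorem sh_node {A : RT} {s t : Sh} (h : A.sh = Sh.node s t) :
    ∃ a B b C, A = RT.node a B b C ∧ B.sh = s ∧ C.sh = t := by
  cases A with
  | leaf => exact absurd h (by simp [RT.sh])
  | node a B b C =>
    simp only [RT.sh, Sh.node.injEq] at h
    exact ⟨a, B, b, C, rfl, h.1, h.2⟩

theorem lift_riso {s t : Sh} (h : RIso s t) :
    (∀ A : RT, A.sh = s → ∃ B, RL A B ∧ B.sh = t) ∧
      ∀ A : RT, A.sh = t → ∃ B, RL A B ∧ B.sh = s := by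
  induction h with
  | refl => exact ⟨fun A hA => ⟨A, RL.refl _, hA⟩, fun A hA => ⟨A, RL.refl _, hA⟩⟩
  | symm _ ih => exact ⟨ih.2, ih.1⟩
  | trans _ _ h1 h2 =>
    refine ⟨fun A hA => ?_, fun A hA => ?_⟩
    · obtain ⟨B, g1, g2⟩ := h1.1 A hA
      obtain ⟨C, g3, g4⟩ := h2.1 B g2
      exact ⟨C, g1.trans g3, g4⟩
    · obtain ⟨B, g1, g2⟩ := h2.2 A hA
      obtain ⟨C, g3, g4⟩ := h1.2 B g2
      exact ⟨C, g1.trans g3, g4⟩
  | swap l r =>
    refine ⟨fun A hA => ?_, fun A hA => ?_⟩ <;>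
    · obtain ⟨a, B, b, C, rfl, h1, h2⟩ := sh_node hA
      exact ⟨_, RL.swap _ _ _ _, by simp only [RT.sh, h1, h2]⟩
  | congr _ _ i1 i2 =>
    refine ⟨fun A hA => ?_, fun A hA => ?_⟩
    · obtain ⟨a, B, b, C, rfl, h1, h2⟩ := sh_node hA
      obtain ⟨B', g1, g2⟩ := i1.1 B h1
      obtain ⟨C', g3, g4⟩ := i2.1 C h2
      exact ⟨_, RL.congr a b g1 g3, by simp only [RT.sh, g2, g4]⟩
    · obtain ⟨a, B, b, C, rfl, h1, h2⟩ := sh_node hA
      obtain ⟨B', g1, g2⟩ := i1.2 B h1
      obtain ⟨C', g3, g4⟩ := i2.2 C h2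
      exact ⟨_, RL.congr a b g1 g3, by simp only [RT.sh, g2, g4]⟩

theorem lift_uiso {S T : Sh × Sh} (h : UIso S T) :
    (∀ V : UT, shU V = S → ∃ W, UL V W ∧ shU W = T) ∧
      ∀ V : UT, shU V = T → ∃ W, UL V W ∧ shU W = S := by
  induction h with
  | refl => exact ⟨fun A hA => ⟨A, UL.refl _, hA⟩, fun A hA => ⟨A, UL.refl _, hA⟩⟩
  | symm _ ih => exact ⟨ih.2, ih.1⟩
  | trans _ _ h1 h2 =>
    refine ⟨fun A hA => ?_, fun A hA => ?_⟩
    · obtain ⟨B, g1, g2⟩ := h1.1 A hA
      obtain ⟨C, g3, g4⟩ := h2.1 B g2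
      exact ⟨C, g1.trans g3, g4⟩
    · obtain ⟨B, g1, g2⟩ := h2.2 A hA
      obtain ⟨C, g3, g4⟩ := h1.2 B g2
      exact ⟨C, g1.trans g3, g4⟩
  | swap A B =>
    refine ⟨?_, ?_⟩ <;>
    · rintro ⟨V, r, W⟩ hV
      simp only [shU, Prod.mk.injEq] at hV
      exact ⟨(W, r, V), UL.swap _ _ _, by simp only [shU, hV.1, hV.2]⟩
  | move A B C =>
    refine ⟨?_, ?_⟩
    · rintro ⟨V, r, W⟩ hV
      simp only [shU, Prod.mk.injEq] at hV
      obtain ⟨a, X, b, Y, rfl, h1, h2⟩ := sh_node hV.1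
      exact ⟨_, UL.move _ _ _ _ _ _, by simp only [shU, RT.sh, h1, h2, hV.2]⟩
    · rintro ⟨V, r, W⟩ hV
      simp only [shU, Prod.mk.injEq] at hV
      obtain ⟨a, X, b, Y, rfl, h1, h2⟩ := sh_node hV.2
      exact ⟨_, (UL.move _ _ _ _ _ _).symm, by simp only [shU, RT.sh, h1, h2, hV.1]⟩
  | congr h1 h2 =>
    refine ⟨?_, ?_⟩
    · rintro ⟨V, r, W⟩ hV
      simp only [shU, Prod.mk.injEq] at hV
      obtain ⟨V', g1, g2⟩ := (lift_riso h1).1 V hV.1
      obtain ⟨W', g3, g4⟩ := (lift_riso h2).1 W hV.2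
      exact ⟨_, UL.congr r g1 g3, by simp only [shU, g2, g4]⟩
    · rintro ⟨V, r, W⟩ hV
      simp only [shU, Prod.mk.injEq] at hV
      obtain ⟨V', g1, g2⟩ := (lift_riso h1).2 V hV.1
      obtain ⟨W', g3, g4⟩ := (lift_riso h2).2 W hV.2
      exact ⟨_, UL.congr r g1 g3, by simp only [shU, g2, g4]⟩

end Pool.Agent.H64.Sm
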