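import Pool.Agent.H64.SmMain

/-!
# Splitting a tree at an edge (MP_ebc12b_co, helper64)
-/

set_option autoImplicit false

namespace Pool.Agent.H64.Sm

open Pool.Agent.Helper877_Smith

/-- The graph obtained from two graphs by joining a vertex of the first with a vertex of the
second by an edge. -/
def jn {V W : Type} (G : SimpleGraph V) (v : V) (H : SimpleGraph W) (w : W) :
    SimpleGraph (V ⊕ W) where
  Adj x y := match x, y with
    | Sum.inl a, Sum.inl b => G.Adj a b
    | Sum.inr a, Sum.inr b => H.Adj a b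
    | Sum.inl a, Sum.inr b => a = v ∧ b = w
    | Sum.inr b, Sum.inl a => a = v ∧ b = w
  symm := ⟨by
    rintro (a | a) (b | b) h
    · exact G.adj_symm h
    · exact h
    · exact h
    · exact H.adj_symm h⟩
  loopless := ⟨by
    rintro (a | a) h
    · exact G.loopless.irrefl a h
    · exact H.loopless.irrefl a h⟩

/-- isomorphism of rooted graphs -/
def RI {V W : Type} (G : SimpleGraph V) (v : V) (H : SimpleGraph W) (w : W) : Prop :=
  ∃ e : G ≃g H, e v = w

section

variable {V W V' W' X : Type} {G : SimpleGraph V} {H : SimpleGraph W} {G' : SimpleGraph V'}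
  {H' : SimpleGraph W'} {K : SimpleGraph X} {v : V} {w : W} {v' : V'} {w' : W'} {x : X}

theorem RI.refl (G : SimpleGraph V) (v : V) : RI G v G v := ⟨RelIso.refl _, rfl⟩

theorem RI.symm (h : RI G v H w) : RI H w G v := by
  obtain ⟨e, he⟩ := h
  exact ⟨e.symm, by rw [← he]; exact e.symm_apply_apply v⟩

theorem RI.trans (h : RI G v H w) (h' : RI H w K x) : RI G v K x := by
  obtain ⟨e, he⟩ := h
  obtain ⟨f, hf⟩ := h'
  exact ⟨e.trans f, by rw [← hf, ← he]; rfl⟩

/-- the equivalence of the vertex sets is an isomorphism of the joined graphs -/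
theorem jn_iso (e : G ≃g G') (f : H ≃g H') (he : e v = v') (hf : f w = w') :
    ∃ i : jn G v H w ≃g jn G' v' H' w', (∀ a, i (Sum.inl a) = Sum.inl (e a)) ∧
      ∀ b, i (Sum.inr b) = Sum.inr (f b) := by
  refine ⟨⟨Equiv.sumCongr e.toEquiv f.toEquiv, ?_⟩, fun a => rfl, fun b => rfl⟩
  rintro (a | a) (b | b)
  · exact e.map_rel_iff
  · show (e a = v' ∧ f b = w') ↔ (a = v ∧ b = w)
    rw [← he, ← hf, e.injective.eq_iff, f.injective.eq_iff]
  · show (e b = v' ∧ f a = w') ↔ (b = v ∧ a = w)
    rw [← he, ← hf, e.injective.eq_iff, f.injective.eq_iff]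
  · exact f.map_rel_iff

theorem RI.jnl (h : RI G v G' v') (h' : RI H w H' w') :
    RI (jn G v H w) (Sum.inl v) (jn G' v' H' w') (Sum.inl v') := by
  obtain ⟨e, he⟩ := h
  obtain ⟨f, hf⟩ := h'
  obtain ⟨i, h1, -⟩ := jn_iso e f he hf
  exact ⟨i, by rw [h1, he]⟩

theorem jn_swap (G : SimpleGraph V) (v : V) (H : SimpleGraph W) (w : W) :
    Nonempty (jn G v H w ≃g jn H w G v) := by
  refine ⟨⟨Equiv.sumComm V W, ?_⟩⟩
  rintro (a | a) (b | b)
  · exact Iff.rfl
  · exact and_comm
  · exact and_comm
  · exact Iff.rfl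

/-- a tree is two trees joined by an edge -/
theorem tree_split [Fintype V] (hG : G.IsTree) {ρ u : V} (h : G.Adj ρ u) :
    ∃ (V1 V2 : Type) (_ : Fintype V1) (_ : Fintype V2) (G1 : SimpleGraph V1)
      (G2 : SimpleGraph V2) (v1 : V1) (v2 : V2), G1.IsTree ∧ G2.IsTree ∧
      Fintype.card V1 + Fintype.card V2 = Fintype.card V ∧
      RI G ρ (jn G1 v1 G2 v2) (Sum.inl v1) := by
  classical
  obtain ⟨G', hG'⟩ : ∃ G', G' = G.deleteEdges {s(ρ, u)} := ⟨_, rfl⟩
  have hle : G' ≤ G := by rw [hG']; exact SimpleGraph.deleteEdges_le _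
  have hadj : ∀ a b, G'.Adj a b ↔ G.Adj a b ∧ s(a, b) ≠ s(ρ, u) := by
    intro a b
    rw [hG', SimpleGraph.deleteEdges_adj]
    simp
  have hbr : ¬ G'.Reachable ρ u := by
    have h1 := (SimpleGraph.isAcyclic_iff_forall_adj_isBridge.1 hG.isAcyclic) h
    rw [SimpleGraph.isBridge_iff] at h1
    rw [hG']
    exact h1
  have hwalk : ∀ x y : V, G.Walk x y → y = ρ → (G'.Reachable ρ x ∨ G'.Reachable u x) := by
    intro x y p
    induction p with
    | nil => intro h; left; rw [h]
    | @cons a b c hab p ih =>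
      intro hc
      by_cases he : s(a, b) = s(ρ, u)
      · rw [Sym2.eq_iff] at he
        rcases he with he | he
        · left; rw [he.1]
        · right; rw [he.1]
      · have h1 : G'.Adj a b := (hadj a b).2 ⟨hab, he⟩
        rcases ih hc with h2 | h2
        · left; exact h2.trans h1.symm.reachable
        · right; exact h2.trans h1.symm.reachable
  have hcov : ∀ x, G'.Reachable ρ x ∨ G'.Reachable u x := by
    intro x
    obtain ⟨p⟩ := hG.connected.preconnected x ρ
    exact hwalk x ρ p rfl
  obtain ⟨S, hS⟩ : ∃ S : Set V, S = {x | G'.Reachable ρ x} := ⟨_, rfl⟩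
  have hSc : Sᶜ = {x | G'.Reachable u x} := by
    rw [hS]
    ext x
    constructor
    · intro hx
      exact (hcov x).resolve_left hx
    · intro hx hx'
      exact hbr (SimpleGraph.Reachable.trans hx' (SimpleGraph.Reachable.symm hx))
  have hconn : ∀ z : V, (G.induce {x | G'.Reachable z x}).Connected := by
    intro z
    have h1 := (G'.connectedComponentMk z).connected_toSimpleGraph
    have h2 : (G'.connectedComponentMk z).supp = {x | G'.Reachable z x} := by
      ext x
      rw [SimpleGraph.ConnectedComponent.mem_supp_iff, SimpleGraph.ConnectedComponent.eq]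
      exact ⟨fun h => h.symm, fun h => h.symm⟩
    have h3 : (G'.induce {x | G'.Reachable z x}).Connected := by
      rw [← h2]
      exact h1
    exact h3.mono (SimpleGraph.comap_monotone _ hle)
  have hρ : ρ ∈ S := by rw [hS]; exact SimpleGraph.Reachable.refl _
  have hu : u ∈ Sᶜ := by rw [hSc]; exact SimpleGraph.Reachable.refl _
  refine ⟨S, ↑(Sᶜ), inferInstance, inferInstance, G.induce S, G.induce Sᶜ, ⟨ρ, hρ⟩, ⟨u, hu⟩,
    ⟨by rw [hS]; exact hconn ρ, hG.isAcyclic.induce _⟩,
    ⟨by rw [hSc]; exact hconn u, hG.isAcyclic.induce _⟩, ?_, ?_⟩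
  · rw [← Fintype.card_sum]
    exact Fintype.card_congr (Equiv.Set.sumCompl S)
  · refine RI.symm ⟨⟨Equiv.Set.sumCompl S, ?_⟩, ?_⟩
    · have hcross : ∀ a b : V, a ∈ S → b ∈ Sᶜ → (G.Adj a b ↔ a = ρ ∧ b = u) := by
        intro a b ha hb
        constructor
        · intro hab
          by_contra hne
          have he : s(a, b) ≠ s(ρ, u) := by
            intro he
            rw [Sym2.eq_iff] at he
            rcases he with he | he
            · exact hne he
            · rw [he.1] at ha
              exact hu ha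
          have h1 : G'.Adj a b := (hadj a b).2 ⟨hab, he⟩
          apply hb
          rw [hS] at ha ⊢
          exact SimpleGraph.Reachable.trans ha h1.reachable
        · rintro ⟨rfl, rfl⟩
          exact h
      rintro (⟨a, ha⟩ | ⟨a, ha⟩) (⟨b, hb⟩ | ⟨b, hb⟩)
      · exact Iff.rfl
      · show G.Adj a b ↔ _
        rw [hcross a b ha hb]
        simp [jn]
      · show G.Adj a b ↔ _
        rw [G.adj_comm, hcross b a hb ha]
        simp [jn]
      · exact Iff.rfl
    · rfl

end

end Pool.Agent.H64.Sm
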