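import Pool.Agent.H64.SmLow

/-!
# The stationary tree is the only minimiser of its shape (MP_ebc12b_co, helper64)
-/

set_option autoImplicit false

namespace Pool.Agent.H64.Sm

open Pool.Agent.Helper877_Smith

open RT

theorem kk_self (A : RT) : kk A A = A.u := by
  induction A with
  | leaf => rfl
  | node a A b B iA iB =>
    rw [kk, RT.u, iA, iB]
    ring

/-- the inequality for a branch, with the case of equality -/
theorem dual_branch_eq (X0 : RT) : ∀ (r : ℝ) (Y : RT), NNU (X0, r, Y) → EE (X0, r, Y) →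
    ∀ X : RT, X.sh = X0.sh → DD X →
      X0.k - X0.p + 2 * X0.u / (X0.p + r + Y.p) = X.k - X.p + 2 * kk X0 X / (X0.p + r + Y.p) →
      X = X0 := by
  induction X0 with
  | leaf =>
    intro r Y _ _ X hX _ _
    exact sh_leaf hX
  | node a A b B iA iB =>
    intro r Y hn he X hX hD heq
    obtain ⟨a', A', b', B', rfl, sA, sB⟩ := sh_node hX
    obtain ⟨hD1, hD2, hD3⟩ := hD
    have hv := vert_of hn he
    have nA := NNU_of_ul hn (UL.toA _ _ _ _ _ _)
    have eA := he.of_ul (UL.toA _ _ _ _ _ _)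
    have nB := NNU_of_ul hn (UL.toB _ _ _ _ _ _)
    have eB := he.of_ul (UL.toB _ _ _ _ _ _)
    have hA := dual_branch A a (node b B r Y) nA eA A' sA hD2
    have hB := dual_branch B b (node a A r Y) nB eB B' sB hD3
    have jA := iA a (node b B r Y) nA eA A' sA hD2
    have jB := iB b (node a A r Y) nB eB B' sB hD3
    have cA := (kk_cs A A').resolve_right (fun h => h sA)
    have cB := (kk_cs B B').resolve_right (fun h => h sB)
    obtain ⟨h1, h2, ⟨h3, h4, h5, h6⟩, h7⟩ := hn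
    have uA := NN_u_pos h5
    have uB := NN_u_pos h6
    have uY := NN_u_pos h7
    obtain ⟨v1, v2, v3, v4, v5, v6⟩ := hv
    have kA := kk_self A
    have kB := kk_self B
    simp only [kk, RT.u, RT.k, RT.p] at hA hB jA jB heq
    obtain ⟨α, hα⟩ : ∃ α, α = A.p + a := ⟨_, rfl⟩
    obtain ⟨β, hβ⟩ : ∃ β, β = B.p + b := ⟨_, rfl⟩
    obtain ⟨γ, hγ⟩ : ∃ γ, γ = Y.p + r := ⟨_, rfl⟩
    obtain ⟨x, hx⟩ : ∃ x, x = A'.p + a' := ⟨_, rfl⟩
    obtain ⟨y, hy⟩ : ∃ y, y = B'.p + b' := ⟨_, rfl⟩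
    rw [← hα] at v1 v4 v5 v6 hA hB jA jB heq
    rw [← hβ] at v2 v4 v5 v6 hA hB jA jB heq
    rw [← hγ] at v3 v4 v5 v6 hA hB jA jB
    rw [← hx] at hD1 heq
    rw [← hy] at hD1 heq
    have hE : 0 < α * β + β * γ + γ * α := by positivity
    obtain ⟨E, hEd⟩ : ∃ E, E = α * β + β * γ + γ * α := ⟨_, rfl⟩
    rw [← hEd] at hE
    have l1 : α + β * γ / (β + γ) = E / (β + γ) := by rw [hEd]; field_simp <;> ring
    have l2 : β + α * γ / (α + γ) = E / (α + γ) := by rw [hEd]; field_simp <;> ring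
    have l3 : α * β / (α + β) + r + Y.p = E / (α + β) := by
      rw [hEd, show α * β / (α + β) + r + Y.p = α * β / (α + β) + γ by rw [hγ]; ring]
      field_simp; ring
    rw [l1] at hA jA
    rw [l2] at hB jB
    rw [l3] at heq
    obtain ⟨MA, hMA⟩ : ∃ MA, MA = ((β + γ) * x + γ * y) / E := ⟨_, rfl⟩
    obtain ⟨MB, hMB⟩ : ∃ MB, MB = ((α + γ) * y + γ * x) / E := ⟨_, rfl⟩
    have qA := sq_aux (M := MA) uA cA
    have qB := sq_aux (M := MB) uB cB
    have hQ : x ^ 2 + x * y + y ^ 2 - A.u * MA ^ 2 - B.u * MB ^ 2 =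
        Y.u * (β * x - α * y) ^ 2 / E ^ 2 := by
      rw [hMA, hMB, v4, v5, v6, eq_div_iff (by positivity)]
      have : (x ^ 2 + x * y + y ^ 2 - (α * (2 * α + β + γ) - β * γ) / 2 *
          (((β + γ) * x + γ * y) / E) ^ 2 - (β * (2 * β + α + γ) - α * γ) / 2 *
          (((α + γ) * y + γ * x) / E) ^ 2) * E ^ 2 =
          (x ^ 2 + x * y + y ^ 2) * E ^ 2 - (α * (2 * α + β + γ) - β * γ) / 2 *
          ((β + γ) * x + γ * y) ^ 2 - (β * (2 * β + α + γ) - α * γ) / 2 *
          ((α + γ) * y + γ * x) ^ 2 := by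
        field_simp
      rw [this, hEd]
      ring
    have hQ0 : 0 ≤ Y.u * (β * x - α * y) ^ 2 / E ^ 2 := by positivity
    obtain ⟨P, hPd⟩ : ∃ P, P = (x ^ 2 + x * y + y ^ 2 + A'.u - 2 * kk A A' * MA + B'.u -
        2 * kk B B' * MB) / (x + y) := ⟨_, rfl⟩
    have hP : 0 ≤ P := by rw [hPd]; exact div_nonneg (by linarith) hD1.le
    have e1 : A'.k + B'.k + a' + b' + (A'.u + B'.u) / (x + y) - x * y / (x + y) +
        2 * ((β * y * kk A A' + α * x * kk B B') / ((α + β) * (x + y))) / (E / (α + β)) =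
        (A'.k - A'.p + 2 * kk A A' / (E / (β + γ))) + (B'.k - B'.p + 2 * kk B B' / (E / (α + γ))) +
        P := by
      rw [hPd, hMA, hMB, show a' = x - A'.p by rw [hx]; ring,
        show b' = y - B'.p by rw [hy]; ring]
      have hxy : x + y ≠ 0 := hD1.ne'
      field_simp
      ring
    have e2 : A.k + B.k + a + b + (A.u + B.u) / (α + β) - α * β / (α + β) +
        2 * ((β ^ 2 * A.u + α ^ 2 * B.u) / (α + β) ^ 2) / (E / (α + β)) =
        (A.k - A.p + 2 * A.u / (E / (β + γ))) + (B.k - B.p + 2 * B.u / (E / (α + γ))) := by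
      have h9 : α ^ 2 + α * β + β ^ 2 = A.u + B.u := by rw [v4, v5]; ring
      rw [show a = α - A.p by rw [hα]; ring, show b = β - B.p by rw [hβ]; ring]
      field_simp
      rw [hEd]
      linear_combination (α * β + β * γ + γ * α) * h9
    rw [e1, e2] at heq
    have hA' : A' = A := jA (by linarith)
    have hB' : B' = B := jB (by linarith)
    have hP0 : P = 0 := by linarith
    have hnum : x ^ 2 + x * y + y ^ 2 + A'.u - 2 * kk A A' * MA + B'.u - 2 * kk B B' * MB = 0 := by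
      rw [hPd, div_eq_zero_iff] at hP0
      exact hP0.resolve_right hD1.ne'
    rw [hA', hB', kA, kB] at hnum
    have w1 : 0 ≤ A.u * (1 - MA) ^ 2 := by positivity
    have w2 : 0 ≤ B.u * (1 - MB) ^ 2 := by positivity
    have w3 : A.u * (1 - MA) ^ 2 = 0 := by nlinarith
    have w4 : B.u * (1 - MB) ^ 2 = 0 := by nlinarith
    have w5 : MA = 1 := by
      have := (mul_eq_zero.1 w3).resolve_left uA.ne'
      have := pow_eq_zero_iff (two_ne_zero) |>.1 this
      linarith
    have w6 : MB = 1 := by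
      have := (mul_eq_zero.1 w4).resolve_left uB.ne'
      have := pow_eq_zero_iff (two_ne_zero) |>.1 this
      linarith
    rw [hMA, div_eq_one_iff_eq hE.ne'] at w5
    rw [hMB, div_eq_one_iff_eq hE.ne'] at w6
    have w7 : x = α := by
      have : E * (x - α) = 0 := by
        rw [hEd] at w5 w6 ⊢
        linear_combination (α + γ) * w5 - γ * w6
      have := (mul_eq_zero.1 this).resolve_left hE.ne'
      linarith
    have w8 : y = β := by
      have : E * (y - β) = 0 := by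
        rw [hEd] at w5 w6 ⊢
        linear_combination (β + γ) * w6 - γ * w5
      have := (mul_eq_zero.1 this).resolve_left hE.ne'
      linarith
    have w9 : a' = a := by
      rw [hx, hα, hA'] at w7
      linarith
    have w10 : b' = b := by
      rw [hy, hβ, hB'] at w8
      linarith
    rw [hA', hB', w9, w10]

/-- the stationary tree is the only minimiser -/
theorem dual_uniq {T0 T : UT} (hn : NNU T0) (he : EE T0) (hs : shU T = shU T0) (hD : DU T)
    (hF : F T ≤ F T0) : T = T0 := by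
  obtain ⟨A0, r0, B0⟩ := T0
  obtain ⟨A, r, B⟩ := T
  simp only [shU, Prod.mk.injEq] at hs
  obtain ⟨d1, d2, d3⟩ := hD
  simp only at d1 d2 d3
  have hA := dual_branch A0 r0 B0 hn he A hs.1 d2
  have hB := dual_branch B0 r0 A0 (NNU_of_ul hn (UL.swap _ _ _)) (he.of_ul (UL.swap _ _ _)) B
    hs.2 d3
  have jA := dual_branch_eq A0 r0 B0 hn he A hs.1 d2
  have jB := dual_branch_eq B0 r0 A0 (NNU_of_ul hn (UL.swap _ _ _))
    (he.of_ul (UL.swap _ _ _)) B hs.2 d3
  have e1 := he _ (UL.refl _)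
  have cA := (kk_cs A0 A).resolve_right (fun h => h hs.1)
  have cB := (kk_cs B0 B).resolve_right (fun h => h hs.2)
  have cs := cs_aux (u_nonneg A0) (u_nonneg B0) (u_nonneg A) (u_nonneg B) cA cB
  have hl := (NNU_DU hn).1
  have kA := kk_self A0
  have kB := kk_self B0
  unfold E1 at e1
  unfold F at hF
  simp only at hl e1 hF
  rw [show B0.p + r0 + A0.p = A0.p + r0 + B0.p by ring] at hB jB
  obtain ⟨l0, hl0⟩ : ∃ l, l = A0.p + r0 + B0.p := ⟨_, rfl⟩
  obtain ⟨l, hl1⟩ : ∃ l, l = A.p + r + B.p := ⟨_, rfl⟩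
  rw [← hl0] at hA hB jA jB e1 hl hF
  rw [← hl1] at d1 hF
  rw [e1] at cs hF
  obtain ⟨K, hK⟩ : ∃ K, K = (kk A0 A + kk B0 B) / l0 := ⟨_, rfl⟩
  have hK2 : K ^ 2 ≤ A.u + B.u := by
    rw [hK, div_pow, div_le_iff₀ (by positivity)]
    linarith
  have h5 : (l - K) ^ 2 / l + (A.u + B.u - K ^ 2) / l = l - 2 * K + (A.u + B.u) / l := by
    field_simp
    ring
  have h51 : 0 ≤ (l - K) ^ 2 / l := by positivity
  have h52 : 0 ≤ (A.u + B.u - K ^ 2) / l := div_nonneg (by linarith) d1.le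
  have h6 : 2 * A0.u / l0 + 2 * B0.u / l0 = 2 * l0 := by
    rw [← add_div, ← mul_add, e1]
    field_simp
  have h7 : 2 * kk A0 A / l0 + 2 * kk B0 B / l0 = 2 * K := by
    rw [hK]
    ring
  have h8 : l0 ^ 2 / l0 = l0 := by field_simp
  rw [h8] at hF
  have iA : A = A0 := jA (by linarith)
  have iB : B = B0 := jB (by linarith)
  have h9 : (l - K) ^ 2 / l = 0 := by linarith
  have h10 : l = K := by
    rw [div_eq_zero_iff] at h9
    rcases h9 with h9 | h9
    · have := pow_eq_zero_iff (two_ne_zero) |>.1 h9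
      linarith
    · exact absurd h9 d1.ne'
  have h11 : K = l0 := by
    rw [hK, iA, iB, kA, kB, e1]
    field_simp
  have h12 : r = r0 := by
    rw [h11, hl1, hl0, iA, iB] at h10
    linarith
  rw [iA, iB, h12]

end Pool.Agent.H64.Sm
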